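import Pool.Agent.H471.EP.Ba

set_option autoImplicit false

/-!
From the moments to the Fourier coefficients.
-/

namespace Pool.Agent.H471.EP

open Complex MeasureTheory Set ENNReal Filter Topology
open Pool.Agent.H471.QP (ex ex_add norm_ex ex_cont conj_ex ex_deriv)
open Pool.Agent.Y969.GP (ht lam FR PS ff)
open Pool.Agent.H471.GS (mem_FR' ht_pos sh ee sh_meas sh_cont)

lemma prod_diff {ι : Type} (s : Finset ι) (a b : ι → ℂ) {η : ℝ} (hη : 0 ≤ η) (ha : ∀ i ∈ s, ‖a i‖ ≤ 2)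
    (hb : ∀ i ∈ s, ‖b i‖ ≤ 2) (hab : ∀ i ∈ s, ‖a i - b i‖ ≤ η) :
    ‖∏ i ∈ s, a i - ∏ i ∈ s, b i‖ ≤ s.card * 2 ^ s.card * η := by
  classical
  induction s using Finset.induction_on with
  | empty => simp
  | insert i s hi ih =>
    have h1 := ih (fun j hj => ha j (Finset.mem_insert_of_mem hj)) (fun j hj => hb j (Finset.mem_insert_of_mem hj))
      (fun j hj => hab j (Finset.mem_insert_of_mem hj))
    have h2 : ‖∏ j ∈ s, b j‖ ≤ 2 ^ s.card := by
      rw [norm_prod]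
      calc _ ≤ ∏ _j ∈ s, (2 : ℝ) := Finset.prod_le_prod (fun j _ => norm_nonneg _) fun j hj =>
            hb j (Finset.mem_insert_of_mem hj)
        _ = _ := by rw [Finset.prod_const]
    have h3 := ha i (Finset.mem_insert_self i s)
    have h4 := hab i (Finset.mem_insert_self i s)
    rw [Finset.prod_insert hi, Finset.prod_insert hi, Finset.card_insert_of_notMem hi]
    have e : a i * ∏ j ∈ s, a j - b i * ∏ j ∈ s, b j = a i * (∏ j ∈ s, a j - ∏ j ∈ s, b j) + (a i - b i) * ∏ j ∈ s, b j := by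
      ring
    rw [e]
    refine (norm_add_le _ _).trans ?_
    rw [norm_mul, norm_mul]
    calc _ ≤ 2 * (s.card * 2 ^ s.card * η) + η * 2 ^ s.card := by gcongr
      _ ≤ _ := by
          push_cast
          rw [pow_succ]
          have : 0 ≤ η * 2 ^ s.card := by positivity
          nlinarith

/-- the test function -/
noncomputable def gt {K : ℕ} (q : Fin K → ℕ × ℕ) (α : Fin K → ℝ) : ℂ := ∏ j, ex (-(α j * lam (q j)))

lemma gt_meas {K : ℕ} (q : Fin K → ℕ × ℕ) : Measurable (gt q) := by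
  unfold gt
  refine Finset.measurable_fun_prod _ fun j _ => ?_
  apply ex_cont.measurable.comp
  exact ((measurable_pi_apply j).mul_const _).neg

lemma gt_norm {K : ℕ} (q : Fin K → ℕ × ℕ) (α : Fin K → ℝ) : ‖gt q α‖ = 1 := by
  unfold gt
  rw [norm_prod]
  simp [norm_ex]

attribute [irreducible] gt

lemma Fg_meas (K Z : ℕ) (q : Fin K → ℕ × ℕ) : Measurable (fun y : (Fin K → ℝ) × ℝ => Fs K Z y.1 y.2 * gt q y.1) := by
  have n1 : Measurable (fun y : (Fin K → ℝ) × ℝ => Fs K Z y.1 y.2) := Fs_meas K Z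
  have n2 : Measurable (fun y : (Fin K → ℝ) × ℝ => gt q y.1) := (gt_meas q).comp measurable_fst
  exact n1.mul n2

lemma Fg_int {K Z : ℕ} {T C0 : ℝ} (h : Big T) (hZ : (Z : ℝ) ≤ T) {μ : Measure ℝ} (hμ : Mz T C0 μ) (q : Fin K → ℕ × ℕ) :
    Integrable (fun y : (Fin K → ℝ) × ℝ => Fs K Z y.1 y.2 * gt q y.1) ((pb K T).prod μ) := by
  have := hμ.pr
  have hb : ∀ᵐ y ∂((pb K T).prod μ), ‖Fs K Z y.1 y.2 * gt q y.1‖ ≤ BB T Z ^ K := by
    have b1 : ∀ᵐ y ∂((pb K T).prod μ), ∀ j, y.1 j ∈ Icc (T / Real.log T) T :=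
      Measure.quasiMeasurePreserving_fst.ae (ae_pb K T)
    have b2 : ∀ᵐ y ∂((pb K T).prod μ), y.2 ∈ Icc 0 T :=
      Measure.quasiMeasurePreserving_snd.ae hμ.sup
    filter_upwards [b1, b2] with y u v
    rw [norm_mul, gt_norm, mul_one]
    exact Fs_bd h hZ v u
  exact Integrable.of_bound (Fg_meas K Z q).aestronglyMeasurable _ hb

/-- the one-dimensional integral -/
noncomputable def I0 (Z : ℕ) (T : ℝ) (p : ℕ × ℕ) (t : ℝ) : ℂ := ∫ x, sh Z (t + x) * ex (-(x * lam p)) ∂(bm T)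

/-- Fubini -/
lemma four1 {K Z : ℕ} {T C0 : ℝ} (h : Big T) (hZ : (Z : ℝ) ≤ T) {μ : Measure ℝ} (hμ : Mz T C0 μ) (q : Fin K → ℕ × ℕ) :
    ∫ α, Dm K Z μ α * gt q α ∂(pb K T) = ∫ t, ∏ j, I0 Z T (q j) t ∂μ ∧
      Integrable (fun t => ∏ j, I0 Z T (q j) t) μ := by
  have := hμ.pr
  have hint := Fg_int h hZ hμ q
  have e1 : ∀ t, ∫ α, Fs K Z α t * gt q α ∂(pb K T) = ∏ j, I0 Z T (q j) t := by
    intro t
    have e2 : ∀ α : Fin K → ℝ, Fs K Z α t * gt q α = ∏ j, (sh Z (t + α j) * ex (-(α j * lam (q j)))) := by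
      intro α
      unfold Fs gt
      rw [Finset.prod_mul_distrib]
    simp_rw [e2]
    unfold pb I0
    rw [integral_fintype_prod_eq_prod (fun (j : Fin K) (x : ℝ) => sh Z (t + x) * ex (-(x * lam (q j))))]
  constructor
  · have e3 : ∀ α, Dm K Z μ α * gt q α = ∫ t, Fs K Z α t * gt q α ∂μ := by
      intro α
      unfold Dm
      rw [integral_mul_const]
    simp_rw [e3]
    rw [integral_integral_swap (f := fun (α : Fin K → ℝ) (t : ℝ) => Fs K Z α t * gt q α) hint]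
    exact integral_congr_ae (Eventually.of_forall e1)
  · have h3 := hint.integral_prod_right
    refine h3.congr (Eventually.of_forall fun t => ?_)
    exact e1 t

/-- the constant -/
noncomputable def cq {K : ℕ} (q : Fin K → ℕ × ℕ) : ℝ := ∏ j, (√(ht (q j)))⁻¹

/-- the Fourier coefficients from the averages -/
lemma four2 {K Z : ℕ} {T C0 : ℝ} (h : Big T) (hZ : (Z : ℝ) ≤ T) (hZ3 : 14 * (Z : ℝ) ^ 3 ≤ rho T * T) {μ : Measure ℝ}
    (hμ : Mz T C0 μ) {q : Fin K → ℕ × ℕ} (hq : q ∈ TS K Z) {η : ℝ}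
    (hη : ∀ j, 3 * rho T + Real.log (ht (q j)) / Real.log T ≤ η) (hη1 : η ≤ 1) (hη0 : 0 ≤ η) :
    ‖(∫ α, Dm K Z μ α * gt q α ∂(pb K T)) / (T * Real.log T) ^ K - (cq q : ℂ) * fc μ (Lam q)‖ ≤
      K * 2 ^ K * η := by
  have := hμ.pr
  obtain ⟨a1, a2, a3⟩ := h.a
  obtain ⟨f1, f2⟩ := four1 h hZ hμ q
  rw [f1]
  have e1 : (∫ t, ∏ j, I0 Z T (q j) t ∂μ) / (T * Real.log T : ℂ) ^ K = ∫ t, ∏ j, (I0 Z T (q j) t / (T * Real.log T : ℂ)) ∂μ := by
    rw [← integral_div]
    congr 1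
    funext t
    rw [Finset.prod_div_distrib, Finset.prod_const, Finset.card_univ, Fintype.card_fin]
  have i1 : Integrable (fun t => ∏ j, (I0 Z T (q j) t / (T * Real.log T : ℂ))) μ := by
    have := f2.div_const ((T * Real.log T : ℂ) ^ K)
    refine this.congr (Eventually.of_forall fun t => ?_)
    simp only
    rw [Finset.prod_div_distrib, Finset.prod_const, Finset.card_univ, Fintype.card_fin]
  have e2 : (cq q : ℂ) * fc μ (Lam q) = ∫ t, ∏ j, ((((√(ht (q j)))⁻¹ : ℝ) : ℂ) * ex (t * lam (q j))) ∂μ := by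
    unfold fc cq
    rw [← integral_const_mul]
    congr 1
    funext t
    rw [Finset.prod_mul_distrib, Complex.ofReal_prod, ← ex_sum]
    unfold Lam
    rw [Finset.mul_sum]
  have hm : Continuous (fun t : ℝ => ∏ j, ((((√(ht (q j)))⁻¹ : ℝ) : ℂ) * ex (t * lam (q j)))) := by
    apply continuous_finsetProd
    intro j _
    exact continuous_const.mul (ex_cont.comp (by fun_prop))
  have hn : ∀ (t : ℝ) (j : Fin K), ‖(((√(ht (q j)))⁻¹ : ℝ) : ℂ) * ex (t * lam (q j))‖ ≤ 1 := by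
    intro t j
    obtain ⟨l1, l2, l3, l4, l5⟩ := log_ht h hZ (mem_TS.1 hq j)
    rw [norm_mul, norm_ex, mul_one, Complex.norm_real, Real.norm_of_nonneg l4.le]
    exact l3
  have i2 : Integrable (fun t : ℝ => ∏ j, ((((√(ht (q j)))⁻¹ : ℝ) : ℂ) * ex (t * lam (q j)))) μ := by
    apply Integrable.of_bound (C := 1) hm.aestronglyMeasurable
    refine Eventually.of_forall fun t => ?_
    rw [norm_prod]
    exact Finset.prod_le_one (fun j _ => norm_nonneg _) fun j _ => hn t j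
  rw [e1, e2, ← integral_sub i1 i2]
  have hb : ∀ᵐ t ∂μ, ‖∏ j, (I0 Z T (q j) t / (T * Real.log T : ℂ)) - ∏ j, ((((√(ht (q j)))⁻¹ : ℝ) : ℂ) * ex (t * lam (q j)))‖ ≤
      K * 2 ^ K * η := by
    filter_upwards [hμ.sup] with t ht0
    have k1 : ∀ j, ‖I0 Z T (q j) t / (T * Real.log T : ℂ) - (((√(ht (q j)))⁻¹ : ℝ) : ℂ) * ex (t * lam (q j))‖ ≤ η := by
      intro j
      have := I1 h hZ hZ3 ht0 (mem_TS.1 hq j)
      rw [intervalIntegral.integral_of_le a2] at this
      exact this.trans (hη j)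
    have k2 : ∀ j, ‖I0 Z T (q j) t / (T * Real.log T : ℂ)‖ ≤ 2 := by
      intro j
      have e : I0 Z T (q j) t / (T * Real.log T : ℂ) = (I0 Z T (q j) t / (T * Real.log T : ℂ) -
        (((√(ht (q j)))⁻¹ : ℝ) : ℂ) * ex (t * lam (q j))) + (((√(ht (q j)))⁻¹ : ℝ) : ℂ) * ex (t * lam (q j)) := by ring
      rw [e]
      refine (norm_add_le _ _).trans ?_
      linarith [k1 j, hn t j]
    have k3 := prod_diff (Finset.univ : Finset (Fin K)) (fun j => I0 Z T (q j) t / (T * Real.log T : ℂ))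
      (fun j => (((√(ht (q j)))⁻¹ : ℝ) : ℂ) * ex (t * lam (q j))) hη0 (fun j _ => k2 j)
      (fun j _ => (hn t j).trans (by norm_num)) (fun j _ => k1 j)
    rwa [Finset.card_univ, Fintype.card_fin] at k3
  have := norm_integral_le_of_norm_le_const hb
  simpa using this

/-- convergence in the mean -/
lemma L1b (k : ℕ) {C0 : ℝ} (hC0 : 0 < C0) {T : ℕ → ℝ} (hT : Tendsto T atTop atTop) {μ₁ μ₂ : ℕ → Measure ℝ}
    (h1 : ∀ᶠ n in atTop, Mz (T n) C0 (μ₁ n)) (h2 : ∀ᶠ n in atTop, Mz (T n) C0 (μ₂ n))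
    (hm : ∀ ε : ℝ, 0 < ε → ∀ η : ℝ, 0 < η → ∀ᶠ n in atTop, (pb (k + 1) (T n)) {α | ε * Real.log (T n) ^ (k + 1) <
      ‖Dm (k + 1) (ZT k (T n)) (μ₁ n) α - Dm (k + 1) (ZT k (T n)) (μ₂ n) α‖} ≤ ENNReal.ofReal (η * T n ^ (k + 1))) :
    Tendsto (fun n => (∫ α, ‖Dm (k + 1) (ZT k (T n)) (μ₁ n) α - Dm (k + 1) (ZT k (T n)) (μ₂ n) α‖ ∂(pb (k + 1) (T n))) /
      (T n * Real.log (T n)) ^ (k + 1)) atTop (𝓝 0) := by
  obtain ⟨C, hC, hE⟩ := En_bdd k hC0
  rw [Metric.tendsto_nhds]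
  intro ε' hε'
  obtain ⟨ε, hε⟩ : ∃ ε : ℝ, ε = ε' / (2 * (2 + C)) := ⟨_, rfl⟩
  have hε0 : 0 < ε := by rw [hε]; positivity
  have hεb : ε * (2 + C) < ε' := by
    have : ε * (2 + C) = ε' / 2 := by rw [hε]; field_simp
    rw [this]
    linarith
  filter_upwards [h1, h2, hT.eventually hE, hm ε hε0 (ε ^ 2) (by positivity), hT.eventually (ad_ev k le_rfl)] with
    n m1 m2 b1 b2 b3
  have hbig := b3.1.big
  have hZ := b3.1.f.2.2.1
  have hl : 0 < Real.log (T n) := by linarith [hbig.1]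
  have hT0 := hbig.2.2
  have := m1.pr
  have := m2.pr
  obtain ⟨a1, a2, a3⟩ := hbig.a
  have b4 := b1 _ _ m1 m2
  obtain ⟨L, hL⟩ : ∃ L : ℝ, L = Real.log (T n) ^ (k + 1) := ⟨_, rfl⟩
  have hL0 : 0 < L := by rw [hL]; positivity
  have hEm := E_meas (k + 1) (ZT k (T n)) (μ₁ n) (μ₂ n)
  have hEi := E_int (K := k + 1) hbig hZ m1 m2
  have hE2i := E2_int (K := k + 1) hbig hZ m1 m2
  have hmul := En_mul (k := k) hbig (μ₁ n) (μ₂ n)
  obtain ⟨E, hEdef⟩ : ∃ E : (Fin (k + 1) → ℝ) → ℝ, E = fun α => ‖Dm (k + 1) (ZT k (T n)) (μ₁ n) α -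
    Dm (k + 1) (ZT k (T n)) (μ₂ n) α‖ := ⟨_, rfl⟩
  rw [← hL] at b2
  have e0 : ∀ α, ‖Dm (k + 1) (ZT k (T n)) (μ₁ n) α - Dm (k + 1) (ZT k (T n)) (μ₂ n) α‖ = E α := fun α => by rw [hEdef]
  simp only [e0] at b2 hEm hEi hE2i hmul ⊢
  have hB : MeasurableSet {α | ε * L < E α} := measurableSet_lt measurable_const hEm
  have hI : Integrable ({α | ε * L < E α}.indicator fun _ => L / ε) (pb (k + 1) (T n)) :=
    (integrable_const _).indicator hB
  have hub : ∫ α, E α ∂(pb (k + 1) (T n)) ≤ ∫ α, ((ε * L + ε / L * E α ^ 2) + {α | ε * L < E α}.indicator (fun _ => L / ε) α)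
      ∂(pb (k + 1) (T n)) := by
    apply integral_mono hEi (((integrable_const _).add (hE2i.const_mul _)).add hI)
    intro α
    have h0 : 0 ≤ E α := by rw [hEdef]; positivity
    have h3 : 0 ≤ ε / L * E α ^ 2 := by positivity
    show E α ≤ (ε * L + ε / L * E α ^ 2) + {α | ε * L < E α}.indicator (fun _ => L / ε) α
    by_cases hα : ε * L < E α
    · rw [Set.indicator_of_mem (show α ∈ {α | ε * L < E α} from hα)]
      have e : ε * L + ε / L * E α ^ 2 + L / ε - E α = (ε * L + (ε * E α - L) ^ 2 / (L * ε) + E α) := by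
        field_simp
        ring
      have : 0 ≤ ε * L + (ε * E α - L) ^ 2 / (L * ε) + E α := by positivity
      linarith
    · rw [Set.indicator_of_notMem (show α ∉ {α | ε * L < E α} from hα)]
      push Not at hα
      linarith
  have hpu : (pb (k + 1) (T n)).real univ ≤ T n ^ (k + 1) := by
    rw [pb_eq, measureReal_restrict_apply MeasurableSet.univ, univ_inter, Measure.real, volume_pi_pi, ENNReal.toReal_prod]
    simp only [Real.volume_Ioc, Finset.prod_const, Finset.card_univ, Fintype.card_fin]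
    rw [ENNReal.toReal_ofReal (by linarith)]
    exact pow_le_pow_left₀ (by linarith) (by linarith) _
  have hpB : (pb (k + 1) (T n)).real {α | ε * L < E α} ≤ ε ^ 2 * T n ^ (k + 1) := by
    rw [Measure.real]
    exact ENNReal.toReal_le_of_le_ofReal (by positivity) b2
  have hi3 : Integrable (fun α => ε * L + ε / L * E α ^ 2) (pb (k + 1) (T n)) := (integrable_const _).add (hE2i.const_mul _)
  rw [integral_add hi3 hI, integral_add (integrable_const _) (hE2i.const_mul _), integral_const,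
    integral_const_mul, integral_indicator_const _ hB, hmul, smul_eq_mul, smul_eq_mul] at hub
  have e5 : (T n * Real.log (T n) ^ 2) ^ (k + 1) = T n ^ (k + 1) * L ^ 2 := by
    rw [hL, mul_pow, ← pow_mul, ← pow_mul, mul_comm 2 (k + 1)]
  have e6 : (T n * Real.log (T n)) ^ (k + 1) = T n ^ (k + 1) * L := by rw [hL, mul_pow]
  rw [e5] at hub
  rw [e6, Real.dist_eq, sub_zero, abs_of_nonneg (by
    apply div_nonneg (integral_nonneg fun α => by rw [hEdef]; positivity)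
    positivity), div_lt_iff₀ (by positivity)]
  have hTk : 0 < T n ^ (k + 1) := by positivity
  calc ∫ α, E α ∂(pb (k + 1) (T n)) ≤ (T n ^ (k + 1)) * (ε * L) + ε / L * (T n ^ (k + 1) * L ^ 2 * C) +
        (ε ^ 2 * T n ^ (k + 1)) * (L / ε) := by
        refine hub.trans ?_
        gcongr
    _ = (ε * (2 + C)) * (T n ^ (k + 1) * L) := by
        field_simp
        ring
    _ < ε' * (T n ^ (k + 1) * L) := by gcongr

/-- **from the moments to the Fourier coefficients** -/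
theorem ab (k : ℕ) {C0 : ℝ} (hC0 : 1 ≤ C0) {T : ℕ → ℝ} (hT : Tendsto T atTop atTop) {ν : ℕ → Measure ℝ}
    (h1 : ∀ᶠ n in atTop, Mz (T n) C0 (ν n))
    (ha : ∀ ε : ℝ, 0 < ε → ∀ η : ℝ, 0 < η → ∀ᶠ n in atTop,
      volume {α : Fin (k + 1) → ℝ | (∀ j, 0 ≤ α j ∧ α j ≤ T n) ∧
        ε * Real.log (T n) ^ (k + 1) < ‖Mm (k + 1) (ν n) α - Mm (k + 1) (un (T n)) α‖} ≤
      ENNReal.ofReal (η * T n ^ (k + 1))) : FCo ν := by
  obtain ⟨δ, hδ, hbad⟩ := bad k C0
  have hu : ∀ᶠ n in atTop, Mz (T n) C0 (un (T n)) := by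
    filter_upwards [hT.eventually_ge_atTop 1] with n hn
    exact un_mz hn hC0
  have hTd : Tendsto (fun n => (T n) ^ (-δ)) atTop (𝓝 0) := (tendsto_rpow_neg_atTop hδ).comp hT
  have hmean := L1b k (by linarith : 0 < C0) hT h1 hu (by
    intro ε hε η hη
    filter_upwards [h1, hu, hT.eventually hbad, ha (ε / 2) (by positivity) (η / 3) (by positivity),
      hTd.eventually_le_const (show 0 < η / 3 by positivity),
      hTd.eventually_le_const (show 0 < ε / 4 by positivity), hT.eventually (ad_ev k le_rfl)] with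
      n m1 m2 b1 b2 b4 b5 b6
    have hbig := b6.1.big
    have hl : 0 < Real.log (T n) := by linarith [hbig.1]
    have hl1 : 1 ≤ Real.log (T n) := by linarith [hbig.1]
    have hT0 := hbig.2.2
    have hL : 1 ≤ Real.log (T n) ^ (k + 1) := one_le_pow₀ hl1
    have := m1.pr
    have := m2.pr
    obtain ⟨a1, a2, a3⟩ := hbig.a
    have hms : MeasurableSet {α | ε * Real.log (T n) ^ (k + 1) <
      ‖Dm (k + 1) (ZT k (T n)) (ν n) α - Dm (k + 1) (ZT k (T n)) (un (T n)) α‖} :=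
      measurableSet_lt measurable_const (E_meas _ _ _ _)
    rw [pb_eq, Measure.restrict_apply hms]
    have hsub : {α | ε * Real.log (T n) ^ (k + 1) <
        ‖Dm (k + 1) (ZT k (T n)) (ν n) α - Dm (k + 1) (ZT k (T n)) (un (T n)) α‖} ∩
        (Set.univ.pi fun _ : Fin (k + 1) => Ioc (T n / Real.log (T n)) (T n)) ⊆
        ({α : Fin (k + 1) → ℝ | (∀ j, 0 ≤ α j ∧ α j ≤ T n) ∧ T n ^ (-δ) < ‖Mm (k + 1) (ν n) α - Dm (k + 1) (ZT k (T n)) (ν n) α‖} ∪
        {α : Fin (k + 1) → ℝ | (∀ j, 0 ≤ α j ∧ α j ≤ T n) ∧ T n ^ (-δ) < ‖Mm (k + 1) (un (T n)) α - Dm (k + 1) (ZT k (T n)) (un (T n)) α‖}) ∪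
        {α : Fin (k + 1) → ℝ | (∀ j, 0 ≤ α j ∧ α j ≤ T n) ∧
          ε / 2 * Real.log (T n) ^ (k + 1) < ‖Mm (k + 1) (ν n) α - Mm (k + 1) (un (T n)) α‖} := by
      rintro α ⟨hα, hbx⟩
      have hbx' : ∀ j, 0 ≤ α j ∧ α j ≤ T n := by
        intro j
        have := hbx j (mem_univ j)
        exact ⟨a1.le.trans this.1.le, this.2⟩
      by_cases c2 : T n ^ (-δ) < ‖Mm (k + 1) (ν n) α - Dm (k + 1) (ZT k (T n)) (ν n) α‖
      · exact Or.inl (Or.inl ⟨hbx', c2⟩)
      · by_cases c3 : T n ^ (-δ) < ‖Mm (k + 1) (un (T n)) α - Dm (k + 1) (ZT k (T n)) (un (T n)) α‖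
        · exact Or.inl (Or.inr ⟨hbx', c3⟩)
        · refine Or.inr ⟨hbx', ?_⟩
          push Not at c2 c3
          have h5 : ε * Real.log (T n) ^ (k + 1) <
            ‖Dm (k + 1) (ZT k (T n)) (ν n) α - Dm (k + 1) (ZT k (T n)) (un (T n)) α‖ := hα
          have e : Dm (k + 1) (ZT k (T n)) (ν n) α - Dm (k + 1) (ZT k (T n)) (un (T n)) α =
              (Mm (k + 1) (un (T n)) α - Dm (k + 1) (ZT k (T n)) (un (T n)) α) -
              (Mm (k + 1) (ν n) α - Dm (k + 1) (ZT k (T n)) (ν n) α) +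
              (Mm (k + 1) (ν n) α - Mm (k + 1) (un (T n)) α) := by ring
          rw [e] at h5
          have h6 := norm_add_le ((Mm (k + 1) (un (T n)) α - Dm (k + 1) (ZT k (T n)) (un (T n)) α) -
              (Mm (k + 1) (ν n) α - Dm (k + 1) (ZT k (T n)) (ν n) α)) (Mm (k + 1) (ν n) α - Mm (k + 1) (un (T n)) α)
          have h7 := norm_sub_le (Mm (k + 1) (un (T n)) α - Dm (k + 1) (ZT k (T n)) (un (T n)) α)
              (Mm (k + 1) (ν n) α - Dm (k + 1) (ZT k (T n)) (ν n) α)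
          have h8 : ε * 1 ≤ ε * Real.log (T n) ^ (k + 1) := by gcongr
          nlinarith
    refine (measure_mono hsub).trans ?_
    have q1 := b1 (ν n) m1
    have q2 := b1 (un (T n)) m2
    have q4 : ENNReal.ofReal (T n ^ (k + 1) * T n ^ (-δ)) ≤ ENNReal.ofReal (η / 3 * T n ^ (k + 1)) := by
      apply ENNReal.ofReal_le_ofReal
      rw [mul_comm]
      gcongr
    have hη4 : 0 ≤ η / 3 * T n ^ (k + 1) := by positivity
    calc _ ≤ (ENNReal.ofReal (η / 3 * T n ^ (k + 1)) + ENNReal.ofReal (η / 3 * T n ^ (k + 1))) +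
          ENNReal.ofReal (η / 3 * T n ^ (k + 1)) :=
          (measure_union_le _ _).trans (add_le_add ((measure_union_le _ _).trans (add_le_add (q1.trans q4) (q2.trans q4))) b2)
      _ = _ := by
          rw [← ENNReal.ofReal_add hη4 hη4, ← ENNReal.ofReal_add (by positivity) (by positivity)]
          congr 1
          ring)
  -- the coefficients
  intro r hr hr1
  obtain ⟨q, hq⟩ : ∃ q : Fin (k + 1) → ℕ × ℕ, q = Fin.cons (r.den, r.num.natAbs) fun _ => (1, 1) := ⟨_, rfl⟩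
  have hnum : 0 < r.num := Rat.num_pos.2 hr
  have hnum' : 1 ≤ r.num.natAbs := Int.natAbs_pos.2 hnum.ne'
  have hden : 1 ≤ r.den := r.den_pos
  have hq0 : q 0 = (r.den, r.num.natAbs) := by rw [hq, Fin.cons_zero]
  have hqs : ∀ i : Fin k, q i.succ = (1, 1) := by intro i; rw [hq, Fin.cons_succ]
  have hr0 : (0 : ℝ) < r := by exact_mod_cast hr
  have hLam : Lam q = Real.log r := by
    unfold Lam
    rw [Fin.sum_univ_succ, hq0]
    simp_rw [hqs]
    have e1 : lam (1, 1) = 0 := by unfold lam; simp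
    rw [e1, Finset.sum_const_zero, add_zero]
    unfold lam
    simp only
    have e2 : (r : ℝ) = (r.num.natAbs : ℝ) / r.den := by
      have h3 : ((r.num.natAbs : ℤ) : ℝ) = (r.num : ℝ) := by
        rw [Int.natAbs_of_nonneg hnum.le]
      have h4 : (r.num.natAbs : ℝ) = (r.num : ℝ) := by
        rw [← h3, Int.cast_natCast]
      rw [h4]
      exact_mod_cast (Rat.num_div_den r).symm
    rw [e2, Real.log_div (by positivity) (by positivity)]
  have hR : 1 ≤ r.den * r.num.natAbs := Nat.mul_pos hden hnum'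
  have hq1 : ∀ j, q j ∈ FR (r.den * r.num.natAbs) := by
    intro j
    rw [mem_FR']
    refine Fin.cases ?_ (fun i => ?_) j
    · rw [hq0]
      exact ⟨hden, hnum', le_rfl, (Nat.coprime_comm.1 r.reduced)⟩
    · rw [hqs]
      exact ⟨le_rfl, le_rfl, by simpa using hR, by norm_num⟩
  have hcq : 0 < cq q := by
    unfold cq
    apply Finset.prod_pos
    intro j _
    have h3 := mem_FR'.1 (hq1 j)
    have := ht_pos h3.1 h3.2.1
    positivity
  -- the maximal height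
  obtain ⟨M, hM⟩ : ∃ M : ℝ, M = ∑ j, Real.log (ht (q j)) := ⟨_, rfl⟩
  have hM1 : ∀ j, Real.log (ht (q j)) ≤ M := by
    intro j
    rw [hM]
    apply Finset.single_le_sum (f := fun j => Real.log (ht (q j))) (fun i _ => ?_) (Finset.mem_univ j)
    have h3 := mem_FR'.1 (hq1 i)
    exact Real.log_nonneg (ht_ge h3.1 h3.2.1)
  have hη : Tendsto (fun n => 3 * rho (T n) + M / Real.log (T n)) atTop (𝓝 0) := by
    have a1 : Tendsto (fun n => 3 * rho (T n)) atTop (𝓝 (3 * 0)) := (rho_tendsto.comp hT).const_mul 3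
    have a2 : Tendsto (fun n => M / Real.log (T n)) atTop (𝓝 0) :=
      Filter.Tendsto.const_div_atTop (Real.tendsto_log_atTop.comp hT) M
    have := a1.add a2
    rwa [mul_zero, add_zero] at this
  have hd : Tendsto (fun n => fc (ν n) (Real.log r) - fc (un (T n)) (Real.log r)) atTop (𝓝 0) := by
    rw [tendsto_zero_iff_norm_tendsto_zero]
    have hb : Tendsto (fun n => (cq q)⁻¹ * ((∫ α, ‖Dm (k + 1) (ZT k (T n)) (ν n) α - Dm (k + 1) (ZT k (T n)) (un (T n)) α‖ ∂(pb (k + 1) (T n))) /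
      (T n * Real.log (T n)) ^ (k + 1) + 2 * ((k + 1 : ℕ) * 2 ^ (k + 1) * (3 * rho (T n) + M / Real.log (T n)))))
      atTop (𝓝 ((cq q)⁻¹ * (0 + 2 * ((k + 1 : ℕ) * 2 ^ (k + 1) * 0)))) :=
      Filter.Tendsto.const_mul _ (hmean.add (Filter.Tendsto.const_mul _ (Filter.Tendsto.const_mul _ hη)))
    rw [mul_zero, mul_zero, add_zero, mul_zero] at hb
    apply squeeze_zero' (Eventually.of_forall fun n => norm_nonneg _) _ hb
    filter_upwards [h1, hu, hT.eventually (ad_ev k hR), hη.eventually_le_const (show (0 : ℝ) < 1 by norm_num)] with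
      n m1 m2 b6 b7
    have hbig := b6.1.big
    have hZ := b6.1.f.2.2.1
    have hl : 0 < Real.log (T n) := by linarith [hbig.1]
    have hT0 := hbig.2.2
    obtain ⟨r1, r2, r3⟩ := hbig.r
    have := m1.pr
    have := m2.pr
    have hqZ : q ∈ TS (k + 1) (ZT k (T n)) := by
      rw [mem_TS]
      intro j
      exact FR_sub b6.1.hRZ (hq1 j)
    have hηj : ∀ j, 3 * rho (T n) + Real.log (ht (q j)) / Real.log (T n) ≤ 3 * rho (T n) + M / Real.log (T n) := by
      intro j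
      have := hM1 j
      gcongr
    have hη0 : 0 ≤ 3 * rho (T n) + M / Real.log (T n) := by
      have h3 := mem_FR'.1 (hq1 0)
      have h4 : 0 ≤ M := le_trans (Real.log_nonneg (ht_ge h3.1 h3.2.1)) (hM1 0)
      positivity
    have v1 := four2 hbig hZ b6.2 m1 hqZ hηj b7 hη0
    have v2 := four2 hbig hZ b6.2 m2 hqZ hηj b7 hη0
    rw [hLam] at v1 v2
    have i1 : Integrable (fun α => Dm (k + 1) (ZT k (T n)) (ν n) α * gt q α) (pb (k + 1) (T n)) := by
      apply Integrable.of_bound (C := BB (T n) (ZT k (T n)) ^ (k + 1))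
      · exact ((Dm_meas _ _ _).mul (gt_meas q)).aestronglyMeasurable
      · filter_upwards [ae_pb (k + 1) (T n)] with α hα
        rw [norm_mul, gt_norm, mul_one]
        exact Dm_bd hbig hZ m1 hα
    have i2 : Integrable (fun α => Dm (k + 1) (ZT k (T n)) (un (T n)) α * gt q α) (pb (k + 1) (T n)) := by
      apply Integrable.of_bound (C := BB (T n) (ZT k (T n)) ^ (k + 1))
      · exact ((Dm_meas _ _ _).mul (gt_meas q)).aestronglyMeasurable
      · filter_upwards [ae_pb (k + 1) (T n)] with α hα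
        rw [norm_mul, gt_norm, mul_one]
        exact Dm_bd hbig hZ m2 hα
    have v3 : ‖(∫ α, Dm (k + 1) (ZT k (T n)) (ν n) α * gt q α ∂(pb (k + 1) (T n))) -
        ∫ α, Dm (k + 1) (ZT k (T n)) (un (T n)) α * gt q α ∂(pb (k + 1) (T n))‖ ≤
        ∫ α, ‖Dm (k + 1) (ZT k (T n)) (ν n) α - Dm (k + 1) (ZT k (T n)) (un (T n)) α‖ ∂(pb (k + 1) (T n)) := by
      rw [← integral_sub i1 i2]
      refine (norm_integral_le_integral_norm _).trans (le_of_eq ?_)
      congr 1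
      funext α
      rw [← sub_mul, norm_mul, gt_norm, mul_one]
    generalize (∫ α, Dm (k + 1) (ZT k (T n)) (ν n) α * gt q α ∂(pb (k + 1) (T n))) = A1 at *
    generalize (∫ α, Dm (k + 1) (ZT k (T n)) (un (T n)) α * gt q α ∂(pb (k + 1) (T n))) = A2 at *
    generalize (∫ α, ‖Dm (k + 1) (ZT k (T n)) (ν n) α - Dm (k + 1) (ZT k (T n)) (un (T n)) α‖ ∂(pb (k + 1) (T n))) = A3 at *
    obtain ⟨N, hN⟩ : ∃ N : ℝ, N = (T n * Real.log (T n)) ^ (k + 1) := ⟨_, rfl⟩
    have hN0 : 0 < N := by rw [hN]; positivity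
    have eN : (T n * Real.log (T n) : ℂ) ^ (k + 1) = (N : ℂ) := by rw [hN]; push_cast; rfl
    rw [eN] at v1 v2
    rw [← hN]
    have v4 : ‖(A1 - A2) / (N : ℂ)‖ ≤ A3 / N := by
      rw [norm_div, Complex.norm_real, Real.norm_of_nonneg hN0.le]
      gcongr
    have e9 : (cq q : ℂ) * (fc (ν n) (Real.log r) - fc (un (T n)) (Real.log r)) = (A1 - A2) / (N : ℂ) -
        (A1 / N - (cq q : ℂ) * fc (ν n) (Real.log r)) + (A2 / N - (cq q : ℂ) * fc (un (T n)) (Real.log r)) := by ring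
    have v5 : cq q * ‖fc (ν n) (Real.log r) - fc (un (T n)) (Real.log r)‖ ≤ A3 / N +
        2 * ((k + 1 : ℕ) * 2 ^ (k + 1) * (3 * rho (T n) + M / Real.log (T n))) := by
      have e10 : cq q * ‖fc (ν n) (Real.log r) - fc (un (T n)) (Real.log r)‖ =
          ‖(cq q : ℂ) * (fc (ν n) (Real.log r) - fc (un (T n)) (Real.log r))‖ := by
        rw [norm_mul, Complex.norm_real, Real.norm_of_nonneg hcq.le]
      rw [e10, e9]
      refine (norm_add_le _ _).trans ?_
      have := norm_sub_le ((A1 - A2) / (N : ℂ)) (A1 / N - (cq q : ℂ) * fc (ν n) (Real.log r))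
      linarith
    rw [inv_mul_eq_div, le_div_iff₀ hcq, mul_comm]
    exact v5
  have hfu := un_fc hT r hr hr1
  have := hd.add hfu
  simpa using this

end Pool.Agent.H471.EP
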