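import Pool.Agent.H471.EP.Kr2

set_option autoImplicit false

/-!
The approximation of the kernel by a short polynomial, in the mean over two measures.
-/

namespace Pool.Agent.H471.EP

open Complex MeasureTheory Set ENNReal
open Pool.Agent.H471.QP (ex ex_add norm_ex ex_cont conj_ex ex_deriv)
open Pool.Agent.Y969.GP (ht lam FR PS)
open Pool.Agent.H471.GS (mem_FR' ht_pos sh ee sh_meas sh_cont)

lemma ex_sum {ι : Type} (s : Finset ι) (f : ι → ℝ) : ex (∑ i ∈ s, f i) = ∏ i ∈ s, ex (f i) := by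
  unfold ex
  rw [← Complex.exp_sum]
  congr 1
  push_cast
  rw [Finset.mul_sum]

lemma trp_pow (b : ℕ × ℕ → ℂ) (Z m : ℕ) (u : ℝ) : trp b Z u ^ m = tp (TS m Z) (fun p => ∏ j, b (p j)) Lam u := by
  have e1 : trp b Z u ^ m = ∏ _j : Fin m, ∑ p ∈ FR Z, b p * ex (u * lam p) := by
    rw [Finset.prod_const, Finset.card_univ, Fintype.card_fin]
    rfl
  rw [e1, Finset.prod_univ_sum]
  unfold tp TS Lam
  refine Finset.sum_congr rfl fun p _ => ?_
  rw [Finset.prod_mul_distrib, Finset.mul_sum, ex_sum]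

lemma trp_cont (b : ℕ × ℕ → ℂ) (Z : ℕ) : Continuous (trp b Z) := by
  unfold trp
  apply continuous_finsetSum
  intro q _
  exact continuous_const.mul (ex_cont.comp (by fun_prop))

lemma trp_meas (b : ℕ × ℕ → ℂ) (Z : ℕ) : Measurable (fun z : ℝ × ℝ => trp b Z (z.1 - z.2)) :=
  ((trp_cont b Z).comp (continuous_fst.sub continuous_snd)).measurable

/-- the measures -/
structure Mz (T C0 : ℝ) (μ : Measure ℝ) : Prop where
  pr : IsProbabilityMeasure μ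
  sup : ∀ᵐ t ∂μ, t ∈ Icc 0 T
  un : ∀ x, μ (Icc x (x + 1)) ≤ ENNReal.ofReal (C0 / T)

lemma K1t (m : ℕ) {C0 : ℝ} (hC0 : 0 < C0) : ∃ C : ℝ, 0 < C ∧ ∀ (Z : ℕ) (T B : ℝ), 1 ≤ Z → 1 ≤ T → (Z : ℝ) ^ (4 * m) ≤ T →
    0 ≤ B → ∀ (μ₁ μ₂ : Measure ℝ), Mz T C0 μ₁ → Mz T C0 μ₂ →
    ∀ b : ℕ × ℕ → ℂ, (∀ p ∈ FR Z, ‖b p‖ ≤ B * ht p ^ (-(7 / 8 : ℝ))) →
    (∫⁻ z, ‖trp b Z (z.1 - z.2) ^ m‖ₑ ^ 2 ∂(μ₁.prod μ₂)) ≤ ENNReal.ofReal (C * (B ^ m) ^ 2) := by
  obtain ⟨C, hC, hK⟩ := K1 m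
  refine ⟨C * (C0 * 2) ^ 2, by positivity, fun Z T B hZ hT hZT hB μ₁ μ₂ h1 h2 b hb => ?_⟩
  have := h1.pr
  have := h2.pr
  have hT0 : 0 < T := by linarith
  have hm : Measurable (fun z : ℝ × ℝ => ‖trp b Z (z.1 - z.2) ^ m‖ₑ ^ 2) :=
    (((trp_meas b Z).pow_const m).enorm).pow_const 2
  rw [lintegral_prod _ hm.aemeasurable]
  simp_rw [trp_pow]
  refine (hK Z T (C0 / T) (B ^ m) hZ hT0.le (by linarith) (by positivity) μ₁ μ₂ h1.sup h2.sup h1.un h2.un _ ?_).trans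
    (ENNReal.ofReal_le_ofReal ?_)
  · intro p hp
    rw [norm_prod]
    have hH : Ht p ^ (-(7 / 8 : ℝ)) = ∏ j, ht (p j) ^ (-(7 / 8 : ℝ)) := by
      unfold Ht
      rw [Real.finsetProd_rpow]
      intro j _
      have := mem_FR'.1 (mem_TS.1 hp j)
      exact (ht_pos this.1 this.2.1).le
    have hBm : B ^ m = ∏ _j : Fin m, B := by rw [Finset.prod_const, Finset.card_univ, Fintype.card_fin]
    rw [hH, hBm, ← Finset.prod_mul_distrib]
    exact Finset.prod_le_prod (fun j _ => norm_nonneg _) fun j _ => hb _ (mem_TS.1 hp j)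
  · have e : C0 / T * (T + 1) ≤ C0 * 2 := by
      rw [div_mul_eq_mul_div, div_le_iff₀ hT0]
      nlinarith
    gcongr

/-- sums of squares -/
lemma lint_sum {α : Type} [MeasurableSpace α] {π : Measure α} {n : ℕ} (c A : Fin n → ℝ) (hc : ∀ i, 0 ≤ c i)
    (hA : ∀ i, 0 ≤ A i) (f : Fin n → α → ℂ) (hf : ∀ i, Measurable (f i))
    (h : ∀ i, (∫⁻ z, ‖f i z‖ₑ ^ 2 ∂π) ≤ ENNReal.ofReal (A i)) {g : α → ℝ} (hg : ∀ᵐ z ∂π, g z ≤ ∑ i, c i * ‖f i z‖ ^ 2) :
    (∫⁻ z, ENNReal.ofReal (g z) ∂π) ≤ ENNReal.ofReal (∑ i, c i * A i) := by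
  calc (∫⁻ z, ENNReal.ofReal (g z) ∂π) ≤ ∫⁻ z, ∑ i, ENNReal.ofReal (c i) * ‖f i z‖ₑ ^ 2 ∂π := by
        apply lintegral_mono_ae
        filter_upwards [hg] with z hz
        refine (ENNReal.ofReal_le_ofReal hz).trans (le_of_eq ?_)
        rw [ENNReal.ofReal_sum_of_nonneg fun i _ => mul_nonneg (hc i) (by positivity)]
        refine Finset.sum_congr rfl fun i _ => ?_
        rw [ENNReal.ofReal_mul (hc i), ENNReal.ofReal_pow (norm_nonneg _), ofReal_norm]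
    _ = ∑ i, ENNReal.ofReal (c i) * ∫⁻ z, ‖f i z‖ₑ ^ 2 ∂π := by
        rw [lintegral_finsetSum]
        · refine Finset.sum_congr rfl fun i _ => ?_
          rw [lintegral_const_mul]
          exact ((hf i).enorm).pow_const 2
        · intro i _
          exact (((hf i).enorm).pow_const 2).const_mul _
    _ ≤ ∑ i, ENNReal.ofReal (c i) * ENNReal.ofReal (A i) := by
        refine Finset.sum_le_sum fun i _ => ?_
        have := h i
        gcongr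
    _ = _ := by
        rw [ENNReal.ofReal_sum_of_nonneg fun i _ => mul_nonneg (hc i) (hA i)]
        refine Finset.sum_congr rfl fun i _ => ?_
        rw [ENNReal.ofReal_mul (hc i)]

lemma max_pow {a b : ℝ} (ha : 0 ≤ a) (hb : 0 ≤ b) (n : ℕ) : (max a b) ^ n ≤ a ^ n + b ^ n := by
  have h1 : 0 ≤ a ^ n := by positivity
  have h2 : 0 ≤ b ^ n := by positivity
  rcases max_choice a b with h | h <;> rw [h] <;> linarith

lemma five {a b c d e : ℝ} (ha : 0 ≤ a) (hb : 0 ≤ b) (hc : 0 ≤ c) (hd : 0 ≤ d) (he : 0 ≤ e) (n : ℕ) :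
    (a + b + c + d + e) ^ n ≤ 5 ^ n * (a ^ n + b ^ n + c ^ n + d ^ n + e ^ n) := by
  obtain ⟨M, hM⟩ : ∃ M : ℝ, M = max (max (max (max a b) c) d) e := ⟨_, rfl⟩
  have h1 : M ^ n ≤ a ^ n + b ^ n + c ^ n + d ^ n + e ^ n := by
    rw [hM]
    have h2 := max_pow (le_max_of_le_left (le_max_of_le_left (le_max_of_le_left ha)) : 0 ≤ max (max (max a b) c) d) he n
    have h3 := max_pow (le_max_of_le_left (le_max_of_le_left ha) : 0 ≤ max (max a b) c) hd n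
    have h4 := max_pow (le_max_of_le_left ha : 0 ≤ max a b) hc n
    have h5 := max_pow ha hb n
    linarith
  have h2 : a + b + c + d + e ≤ 5 * M := by
    have q5 : e ≤ M := by rw [hM]; exact le_max_right _ _
    have q4 : d ≤ M := by rw [hM]; exact (le_max_right _ _).trans (le_max_left _ _)
    have q3 : c ≤ M := by rw [hM]; exact (le_max_right _ _).trans ((le_max_left _ _).trans (le_max_left _ _))
    have q2 : b ≤ M := by
      rw [hM]; exact (le_max_right _ _).trans ((le_max_left _ _).trans ((le_max_left _ _).trans (le_max_left _ _)))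
    have q1 : a ≤ M := by
      rw [hM]; exact (le_max_left _ _).trans ((le_max_left _ _).trans ((le_max_left _ _).trans (le_max_left _ _)))
    linarith
  calc _ ≤ (5 * M) ^ n := pow_le_pow_left₀ (by positivity) h2 n
    _ = 5 ^ n * M ^ n := mul_pow _ _ _
    _ ≤ _ := by gcongr

/-- the coefficients -/
lemma bP_bd {Z : ℕ} {T : ℝ} (h : Big T) (hZ : (Z : ℝ) ≤ T) {p : ℕ × ℕ} (hp : p ∈ FR Z) :
    ‖bP T 0 p‖ ≤ 1 * ht p ^ (-(7 / 8 : ℝ)) ∧ ‖bP T 1 p‖ ≤ 8 * rho T * ht p ^ (-(7 / 8 : ℝ)) ∧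
      ‖bP T 2 p‖ ≤ 8 * rho T * ht p ^ (-(7 / 8 : ℝ)) := by
  obtain ⟨l1, l2, l3, l4, l5⟩ := log_ht h hZ hp
  obtain ⟨r1, r2, r3⟩ := h.r
  obtain ⟨g1, g2, g3⟩ := h
  have hl : 0 < Real.log T := by linarith
  have h0 : 0 < ht p := by linarith
  have hx : Real.log (ht p) ≤ 8 * ht p ^ (1 / 8 : ℝ) := by
    have := Real.log_le_rpow_div (x := ht p) (ε := 1 / 8) h0.le (by norm_num)
    linarith
  have e0 : (ht p)⁻¹ ≤ ht p ^ (-(7 / 8 : ℝ)) := by
    rw [← Real.rpow_neg_one]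
    exact Real.rpow_le_rpow_of_exponent_le l5 (by norm_num)
  have e1 : (ht p)⁻¹ * (Real.log (ht p) / Real.log T) ≤ 8 * rho T * ht p ^ (-(7 / 8 : ℝ)) := by
    have e2 : ht p ^ (-(7 / 8 : ℝ)) = (ht p)⁻¹ * ht p ^ (1 / 8 : ℝ) := by
      rw [← Real.rpow_neg_one, ← Real.rpow_add h0]
      norm_num
    rw [e2]
    calc (ht p)⁻¹ * (Real.log (ht p) / Real.log T) ≤ (ht p)⁻¹ * (8 * ht p ^ (1 / 8 : ℝ) / Real.log T) := by gcongr
      _ = 8 * (1 / Real.log T) * ((ht p)⁻¹ * ht p ^ (1 / 8 : ℝ)) := by ring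
      _ ≤ _ := by gcongr
  have q0 : 0 ≤ Real.log (ht p) / Real.log T := by positivity
  have q1 : Real.log (ht p) / Real.log T ≤ 1 := by rw [div_le_one hl]; exact l2
  unfold bP
  rw [Complex.norm_real, Complex.norm_real, Complex.norm_real, Real.norm_of_nonneg (by positivity),
    Real.norm_of_nonneg (by positivity), Real.norm_of_nonneg (by positivity), pow_zero, pow_one, mul_one, one_mul]
  refine ⟨e0, e1, le_trans ?_ e1⟩
  have : (Real.log (ht p) / Real.log T) ^ 2 ≤ Real.log (ht p) / Real.log T := by nlinarith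
  gcongr

/-- the tail coefficients -/
noncomputable def bQ (R : ℕ) (p : ℕ × ℕ) : ℂ := if p ∈ FR R then 0 else (((ht p)⁻¹ : ℝ) : ℂ)

lemma FR_sub {R Z : ℕ} (h : R ≤ Z) : FR R ⊆ FR Z := by
  intro p hp
  rw [mem_FR'] at hp ⊢
  exact ⟨hp.1, hp.2.1, hp.2.2.1.trans h, hp.2.2.2⟩

lemma bQ_bd {R Z : ℕ} (hR : 1 ≤ R) {p : ℕ × ℕ} (hp : p ∈ FR Z) :
    ‖bQ R p‖ ≤ (R : ℝ) ^ (-(1 / 8 : ℝ)) * ht p ^ (-(7 / 8 : ℝ)) := by
  have hR0 : (0 : ℝ) < R := by exact_mod_cast hR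
  have hp' := mem_FR'.1 hp
  have h0 := ht_pos hp'.1 hp'.2.1
  unfold bQ
  split_ifs with h
  · rw [norm_zero]; positivity
  · have h1 : (R : ℝ) ≤ ht p := by
      have : ¬ (p.1 * p.2 ≤ R) := by
        intro h2
        apply h
        rw [mem_FR']
        exact ⟨hp'.1, hp'.2.1, h2, hp'.2.2.2⟩
      unfold ht
      push Not at this
      exact_mod_cast this.le
    rw [Complex.norm_real, Real.norm_of_nonneg (by positivity)]
    have e : (ht p)⁻¹ = ht p ^ (-(1 / 8 : ℝ)) * ht p ^ (-(7 / 8 : ℝ)) := by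
      rw [← Real.rpow_add h0, ← Real.rpow_neg_one]
      norm_num
    rw [e]
    refine mul_le_mul_of_nonneg_right ?_ (by positivity)
    exact Real.rpow_le_rpow_of_nonpos hR0 h1 (by norm_num)

lemma trp_Q {R Z : ℕ} (h : R ≤ Z) (T u : ℝ) : trp (bP T 0) Z u - trp (bP T 0) R u = trp (bQ R) Z u := by
  have e1 : trp (bP T 0) R u = ∑ p ∈ FR Z, if p ∈ FR R then bP T 0 p * ex (u * lam p) else 0 := by
    rw [← Finset.sum_filter]
    unfold trp
    apply Finset.sum_congr _ fun _ _ => rfl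
    ext p
    rw [Finset.mem_filter]
    exact ⟨fun hp => ⟨FR_sub h hp, hp⟩, fun hp => hp.2⟩
  rw [e1]
  unfold trp
  rw [← Finset.sum_sub_distrib]
  refine Finset.sum_congr rfl fun p _ => ?_
  unfold bQ bP
  split_ifs with h1
  · simp
  · simp

lemma pow_sub_le (x y : ℂ) (k : ℕ) : ‖x ^ (k + 1) - y ^ (k + 1)‖ ≤ (k + 1) * ‖x - y‖ * (‖x‖ + ‖y‖) ^ k := by
  induction k with
  | zero => simp
  | succ k ih =>
    have e : x ^ (k + 1 + 1) - y ^ (k + 1 + 1) = x * (x ^ (k + 1) - y ^ (k + 1)) + (x - y) * y ^ (k + 1) := by ring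
    rw [e]
    have hx := norm_nonneg x
    have hy := norm_nonneg y
    have h1 : ‖y‖ ^ (k + 1) ≤ (‖x‖ + ‖y‖) ^ (k + 1) := pow_le_pow_left₀ hy (by linarith) _
    calc _ ≤ ‖x‖ * ‖x ^ (k + 1) - y ^ (k + 1)‖ + ‖x - y‖ * ‖y‖ ^ (k + 1) := by
          refine (norm_add_le _ _).trans ?_
          rw [norm_mul, norm_mul, norm_pow]
      _ ≤ (‖x‖ + ‖y‖) * ((k + 1) * ‖x - y‖ * (‖x‖ + ‖y‖) ^ k) + ‖x - y‖ * (‖x‖ + ‖y‖) ^ (k + 1) := by
          gcongr
          linarith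
      _ = _ := by push_cast; ring

end Pool.Agent.H471.EP
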