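import Pool.Agent.H471.EP.Ap

set_option autoImplicit false

/-!
The approximation of the powers of the kernel in the mean over two measures.
-/

namespace Pool.Agent.H471.EP

open Complex MeasureTheory Set ENNReal
open Pool.Agent.H471.QP (ex ex_add norm_ex ex_cont conj_ex ex_deriv)
open Pool.Agent.Y969.GP (ht lam FR PS)
open Pool.Agent.H471.GS (mem_FR' ht_pos sh ee sh_meas sh_cont)

lemma Xk_meas (T : ℝ) (Z : ℕ) : Measurable (fun z : ℝ × ℝ => Xk T Z z.1 z.2) := by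
  have hF : StronglyMeasurable (Function.uncurry fun (z : ℝ × ℝ) (α : ℝ) =>
      sh Z (z.1 + α) * (starRingEnd ℂ) (sh Z (z.2 + α))) := by
    apply Measurable.stronglyMeasurable
    apply Measurable.mul
    · exact (sh_meas Z).comp ((measurable_fst.comp measurable_fst).add measurable_snd)
    · exact Complex.continuous_conj.measurable.comp
        ((sh_meas Z).comp ((measurable_snd.comp measurable_fst).add measurable_snd))
  have h : ∀ s : Set ℝ, Measurable (fun z : ℝ × ℝ => ∫ α in s, sh Z (z.1 + α) * (starRingEnd ℂ) (sh Z (z.2 + α))) := by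
    intro s
    exact (StronglyMeasurable.integral_prod_right (ν := volume.restrict s) hF).measurable
  unfold Xk intervalIntegral
  exact ((h _).sub (h _)).div_const _

/-- the admissible parameters -/
structure Ad (n : ℕ) (T : ℝ) (Z R : ℕ) : Prop where
  big : Big T
  hR : 1 ≤ R
  hRZ : R ≤ Z
  hZ4 : (Z : ℝ) ^ 4 ≤ T
  hZn : (Z : ℝ) ^ (4 * n) ≤ T
  hZ5 : 48 * (Z : ℝ) ^ 5 ≤ rho T * T

lemma Ad.f {n : ℕ} {T : ℝ} {Z R : ℕ} (h : Ad n T Z R) : 1 ≤ T ∧ (1 : ℝ) ≤ Z ∧ (Z : ℝ) ≤ T ∧ 1 ≤ Z := by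
  have h1 : 1 ≤ Z := h.hR.trans h.hRZ
  have h2 : (1 : ℝ) ≤ Z := by exact_mod_cast h1
  have h3 : (Z : ℝ) ≤ (Z : ℝ) ^ 4 := le_self_pow₀ h2 (by norm_num)
  exact ⟨by linarith [h.hZ4], h2, h3.trans h.hZ4, h1⟩

lemma one_int {T C0 : ℝ} {μ₁ μ₂ : Measure ℝ} (h1 : Mz T C0 μ₁) (h2 : Mz T C0 μ₂) :
    (∫⁻ _z : ℝ × ℝ, ‖(1 : ℂ)‖ₑ ^ 2 ∂(μ₁.prod μ₂)) ≤ ENNReal.ofReal 1 := by
  have := h1.pr
  have := h2.pr
  simp

lemma ae_box {T C0 : ℝ} {μ₁ μ₂ : Measure ℝ} (h1 : Mz T C0 μ₁) (h2 : Mz T C0 μ₂) :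
    ∀ᵐ z ∂(μ₁.prod μ₂), z.1 ∈ Icc 0 T ∧ z.2 ∈ Icc 0 T := by
  have := h1.pr
  have := h2.pr
  have a1 : ∀ᵐ z ∂(μ₁.prod μ₂), z.1 ∈ Icc 0 T := Measure.quasiMeasurePreserving_fst.ae h1.sup
  have a2 : ∀ᵐ z ∂(μ₁.prod μ₂), z.2 ∈ Icc 0 T := Measure.quasiMeasurePreserving_snd.ae h2.sup
  filter_upwards [a1, a2] with z u v using ⟨u, v⟩

/-- the mean square of the difference -/
lemma A1 (n : ℕ) {C0 : ℝ} (hC0 : 0 < C0) : ∃ C : ℝ, 0 < C ∧ ∀ (T : ℝ) (Z R : ℕ), Ad n T Z R →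
    ∀ (μ₁ μ₂ : Measure ℝ), Mz T C0 μ₁ → Mz T C0 μ₂ →
    (∫⁻ z, ENNReal.ofReal (‖Xk T Z z.1 z.2 - trp (bP T 0) R (z.1 - z.2)‖ ^ 2) ∂(μ₁.prod μ₂)) ≤
      ENNReal.ofReal (C * (rho T + (R : ℝ) ^ (-(1 / 8 : ℝ))) ^ 2) := by
  obtain ⟨C, hC, hK⟩ := K1t 1 hC0
  refine ⟨40000 * (C + 1), by positivity, fun T Z R hA μ₁ μ₂ h1 h2 => ?_⟩
  obtain ⟨t1, t2, t3, t4⟩ := hA.f
  obtain ⟨r1, r2, r3⟩ := hA.big.r
  have hR0 : (0 : ℝ) < R := by exact_mod_cast hA.hR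
  obtain ⟨ε, hε⟩ : ∃ ε : ℝ, ε = (R : ℝ) ^ (-(1 / 8 : ℝ)) := ⟨_, rfl⟩
  have hε0 : 0 < ε := by rw [hε]; positivity
  have hZ4 : (Z : ℝ) ^ (4 * 1) ≤ T := by rw [mul_one]; exact hA.hZ4
  have k0 := hK Z T 1 t4 t1 hZ4 (by norm_num) μ₁ μ₂ h1 h2 (bP T 0) (fun p hp => (bP_bd hA.big t3 hp).1)
  have k1 := hK Z T (8 * rho T) t4 t1 hZ4 (by positivity) μ₁ μ₂ h1 h2 (bP T 1) (fun p hp => (bP_bd hA.big t3 hp).2.1)
  have k2 := hK Z T (8 * rho T) t4 t1 hZ4 (by positivity) μ₁ μ₂ h1 h2 (bP T 2) (fun p hp => (bP_bd hA.big t3 hp).2.2)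
  have k3 := hK Z T ε t4 t1 hZ4 hε0.le μ₁ μ₂ h1 h2 (bQ R) (fun p hp => by rw [hε]; exact bQ_bd hA.hR hp)
  simp only [pow_one] at k0 k1 k2 k3
  rw [← hε]
  have hL := lint_sum (π := μ₁.prod μ₂) (n := 5)
    ![25 * (4 * rho T) ^ 2, 25 * 4 ^ 2, 25, 25 * rho T ^ 2, 25]
    ![C * 1 ^ 2, C * (8 * rho T) ^ 2, C * (8 * rho T) ^ 2, 1, C * ε ^ 2]
    (by intro i; fin_cases i <;> simp <;> positivity)
    (by intro i; fin_cases i <;> simp <;> positivity)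
    ![fun z => trp (bP T 0) Z (z.1 - z.2), fun z => trp (bP T 1) Z (z.1 - z.2), fun z => trp (bP T 2) Z (z.1 - z.2),
      fun _ => (1 : ℂ), fun z => trp (bQ R) Z (z.1 - z.2)]
    (by
      intro i
      fin_cases i
      · exact trp_meas _ _
      · exact trp_meas _ _
      · exact trp_meas _ _
      · exact measurable_const
      · exact trp_meas _ _)
    (by
      intro i
      fin_cases i
      · exact k0
      · exact k1
      · exact k2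
      · exact one_int h1 h2
      · exact k3)
    (g := fun z => ‖Xk T Z z.1 z.2 - trp (bP T 0) R (z.1 - z.2)‖ ^ 2) (by
      filter_upwards [ae_box h1 h2] with z hz
      have h3 := K0 hA.big t3 hA.hZ5 hz.1 hz.2
      have h4 := trp_Q hA.hRZ T (z.1 - z.2)
      rw [Fin.sum_univ_five]
      simp only [Matrix.cons_val_zero, Matrix.cons_val_one, Matrix.cons_val]
      obtain ⟨x, hx⟩ : ∃ x : ℂ, x = Xk T Z z.1 z.2 := ⟨_, rfl⟩
      rw [← hx] at h3 ⊢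
      generalize trp (bP T 0) Z (z.1 - z.2) = P0 at *
      generalize trp (bP T 1) Z (z.1 - z.2) = P1 at *
      generalize trp (bP T 2) Z (z.1 - z.2) = P2 at *
      generalize trp (bQ R) Z (z.1 - z.2) = Q at *
      generalize trp (bP T 0) R (z.1 - z.2) = y at *
      have h5 : ‖x - y‖ ≤ 4 * rho T * ‖P0‖ + 4 * ‖P1‖ + ‖P2‖ + rho T + ‖Q‖ := by
        have e : x - y = (x - P0) + Q := by rw [← h4]; ring
        rw [e]
        exact (norm_add_le _ _).trans (add_le_add h3 le_rfl)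
      have h6 := five (by positivity : 0 ≤ 4 * rho T * ‖P0‖) (by positivity : 0 ≤ 4 * ‖P1‖) (norm_nonneg P2) r2.le
        (norm_nonneg Q) 2
      have h7 := (pow_le_pow_left₀ (norm_nonneg _) h5 2).trans h6
      refine h7.trans (le_of_eq ?_)
      rw [norm_one]
      ring)
  refine hL.trans (ENNReal.ofReal_le_ofReal ?_)
  rw [Fin.sum_univ_five]
  simp only [Matrix.cons_val_zero, Matrix.cons_val_one, Matrix.cons_val]
  have q1 : rho T ^ 2 ≤ (rho T + ε) ^ 2 := pow_le_pow_left₀ r2.le (by linarith) 2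
  have q2 : ε ^ 2 ≤ (rho T + ε) ^ 2 := pow_le_pow_left₀ hε0.le (by linarith) 2
  have q3 : C * rho T ^ 2 ≤ C * (rho T + ε) ^ 2 := by gcongr
  have q4 : C * ε ^ 2 ≤ C * (rho T + ε) ^ 2 := by gcongr
  have q5 : 0 ≤ (rho T + ε) ^ 2 := by positivity
  have q6 : 0 ≤ C * (rho T + ε) ^ 2 := by positivity
  linarith

/-- the high moments -/
lemma A2 (n : ℕ) {C0 : ℝ} (hC0 : 0 < C0) : ∃ C : ℝ, 0 < C ∧ ∀ (T : ℝ) (Z R : ℕ), Ad n T Z R →
    ∀ (μ₁ μ₂ : Measure ℝ), Mz T C0 μ₁ → Mz T C0 μ₂ →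
    (∫⁻ z, ENNReal.ofReal (((‖Xk T Z z.1 z.2‖ + ‖trp (bP T 0) R (z.1 - z.2)‖) ^ n) ^ 2) ∂(μ₁.prod μ₂)) ≤
      ENNReal.ofReal C := by
  obtain ⟨C, hC, hK⟩ := K1t n hC0
  refine ⟨(5 ^ n) ^ 2 * 25 * ((2 ^ n) ^ 2 * (C * (1 ^ n) ^ 2) + (4 ^ n) ^ 2 * (C * (2 ^ n) ^ 2) + C * (2 ^ n) ^ 2 + 1 +
    C * (1 ^ n) ^ 2), by positivity, fun T Z R hA μ₁ μ₂ h1 h2 => ?_⟩
  obtain ⟨t1, t2, t3, t4⟩ := hA.f
  obtain ⟨r1, r2, r3⟩ := hA.big.r
  have hr4 := hA.big.2.1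
  have hR0 : (0 : ℝ) < R := by exact_mod_cast hA.hR
  have hRT : (R : ℝ) ≤ T := by
    have : (R : ℝ) ≤ Z := by exact_mod_cast hA.hRZ
    linarith
  have hRn : (R : ℝ) ^ (4 * n) ≤ T := by
    refine le_trans (pow_le_pow_left₀ hR0.le ?_ _) hA.hZn
    exact_mod_cast hA.hRZ
  have k0 := hK Z T 1 t4 t1 hA.hZn (by norm_num) μ₁ μ₂ h1 h2 (bP T 0) (fun p hp => (bP_bd hA.big t3 hp).1)
  have k1 := hK Z T 2 t4 t1 hA.hZn (by norm_num) μ₁ μ₂ h1 h2 (bP T 1) (fun p hp => by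
    refine (bP_bd hA.big t3 hp).2.1.trans ?_
    have : 0 ≤ ht p ^ (-(7 / 8 : ℝ)) := by
      have hp' := mem_FR'.1 hp
      have := ht_pos hp'.1 hp'.2.1
      positivity
    gcongr
    linarith)
  have k2 := hK Z T 2 t4 t1 hA.hZn (by norm_num) μ₁ μ₂ h1 h2 (bP T 2) (fun p hp => by
    refine (bP_bd hA.big t3 hp).2.2.trans ?_
    have : 0 ≤ ht p ^ (-(7 / 8 : ℝ)) := by
      have hp' := mem_FR'.1 hp
      have := ht_pos hp'.1 hp'.2.1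
      positivity
    gcongr
    linarith)
  have k3 := hK R T 1 hA.hR t1 hRn (by norm_num) μ₁ μ₂ h1 h2 (bP T 0) (fun p hp => (bP_bd hA.big hRT hp).1)
  have hL := lint_sum (π := μ₁.prod μ₂) (n := 5)
    ![(5 ^ n) ^ 2 * 25 * (2 ^ n) ^ 2, (5 ^ n) ^ 2 * 25 * (4 ^ n) ^ 2, (5 ^ n) ^ 2 * 25, (5 ^ n) ^ 2 * 25, (5 ^ n) ^ 2 * 25]
    ![C * (1 ^ n) ^ 2, C * (2 ^ n) ^ 2, C * (2 ^ n) ^ 2, 1, C * (1 ^ n) ^ 2]
    (by intro i; fin_cases i <;> simp <;> positivity)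
    (by intro i; fin_cases i <;> simp <;> positivity)
    ![fun z => trp (bP T 0) Z (z.1 - z.2) ^ n, fun z => trp (bP T 1) Z (z.1 - z.2) ^ n,
      fun z => trp (bP T 2) Z (z.1 - z.2) ^ n, fun _ => (1 : ℂ), fun z => trp (bP T 0) R (z.1 - z.2) ^ n]
    (by
      intro i
      fin_cases i
      · exact (trp_meas _ _).pow_const n
      · exact (trp_meas _ _).pow_const n
      · exact (trp_meas _ _).pow_const n
      · exact measurable_const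
      · exact (trp_meas _ _).pow_const n)
    (by
      intro i
      fin_cases i
      · exact k0
      · exact k1
      · exact k2
      · exact one_int h1 h2
      · exact k3)
    (g := fun z => ((‖Xk T Z z.1 z.2‖ + ‖trp (bP T 0) R (z.1 - z.2)‖) ^ n) ^ 2) (by
      filter_upwards [ae_box h1 h2] with z hz
      have h3 := K0 hA.big t3 hA.hZ5 hz.1 hz.2
      rw [Fin.sum_univ_five]
      simp only [Matrix.cons_val_zero, Matrix.cons_val_one, Matrix.cons_val]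
      obtain ⟨x, hx⟩ : ∃ x : ℂ, x = Xk T Z z.1 z.2 := ⟨_, rfl⟩
      rw [← hx] at h3 ⊢
      generalize trp (bP T 0) Z (z.1 - z.2) = P0 at *
      generalize trp (bP T 1) Z (z.1 - z.2) = P1 at *
      generalize trp (bP T 2) Z (z.1 - z.2) = P2 at *
      generalize trp (bP T 0) R (z.1 - z.2) = y at *
      have h5 : ‖x‖ + ‖y‖ ≤ 2 * ‖P0‖ + 4 * ‖P1‖ + ‖P2‖ + 1 + ‖y‖ := by
        have e : x = (x - P0) + P0 := by ring
        have h6 : ‖x‖ ≤ ‖x - P0‖ + ‖P0‖ := by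
          conv_lhs => rw [e]
          exact norm_add_le _ _
        have h7 : 4 * rho T * ‖P0‖ ≤ 1 * ‖P0‖ := by
          have := norm_nonneg P0
          gcongr
          linarith
        linarith
      have h6 := five (by positivity : 0 ≤ 2 * ‖P0‖) (by positivity : 0 ≤ 4 * ‖P1‖) (norm_nonneg P2) zero_le_one
        (norm_nonneg y) n
      have h7 := (pow_le_pow_left₀ (by positivity) h5 n).trans h6
      have h8 := five (by positivity : 0 ≤ (2 * ‖P0‖) ^ n) (by positivity : 0 ≤ (4 * ‖P1‖) ^ n)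
        (by positivity : 0 ≤ ‖P2‖ ^ n) (by positivity : (0 : ℝ) ≤ 1 ^ n) (by positivity : 0 ≤ ‖y‖ ^ n) 2
      have h9 := pow_le_pow_left₀ (by positivity) h7 2
      refine h9.trans ?_
      rw [mul_pow]
      calc (5 ^ n) ^ 2 * ((2 * ‖P0‖) ^ n + (4 * ‖P1‖) ^ n + ‖P2‖ ^ n + 1 ^ n + ‖y‖ ^ n) ^ 2 ≤
            (5 ^ n) ^ 2 * (5 ^ 2 * (((2 * ‖P0‖) ^ n) ^ 2 + ((4 * ‖P1‖) ^ n) ^ 2 + (‖P2‖ ^ n) ^ 2 + (1 ^ n) ^ 2 + (‖y‖ ^ n) ^ 2)) := by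
            gcongr
        _ = _ := by
            rw [norm_one, norm_pow, norm_pow, norm_pow, norm_pow, mul_pow 2 ‖P0‖, mul_pow 4 ‖P1‖, one_pow]
            ring)
  refine hL.trans (ENNReal.ofReal_le_ofReal (le_of_eq ?_))
  rw [Fin.sum_univ_five]
  simp only [Matrix.cons_val_zero, Matrix.cons_val_one, Matrix.cons_val]
  ring

/-- **the approximation of the powers** -/
lemma apx (k : ℕ) {C0 : ℝ} (hC0 : 0 < C0) : ∃ C : ℝ, 0 < C ∧ ∀ (T : ℝ) (Z R : ℕ), Ad k T Z R →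
    ∀ (μ₁ μ₂ : Measure ℝ), Mz T C0 μ₁ → Mz T C0 μ₂ →
    (∫⁻ z, ‖Xk T Z z.1 z.2 ^ (k + 1) - trp (bP T 0) R (z.1 - z.2) ^ (k + 1)‖ₑ ∂(μ₁.prod μ₂)) ≤
      ENNReal.ofReal (C * (rho T + (R : ℝ) ^ (-(1 / 8 : ℝ)))) := by
  obtain ⟨C1, hC1, h1⟩ := A1 k hC0
  obtain ⟨C2, hC2, h2⟩ := A2 k hC0
  refine ⟨(k + 1) * (C1 + C2), by positivity, fun T Z R hA μ₁ μ₂ m1 m2 => ?_⟩
  obtain ⟨r1, r2, r3⟩ := hA.big.r
  have hR0 : (0 : ℝ) < R := by exact_mod_cast hA.hR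
  obtain ⟨η, hη⟩ : ∃ η : ℝ, η = rho T + (R : ℝ) ^ (-(1 / 8 : ℝ)) := ⟨_, rfl⟩
  have hη0 : 0 < η := by rw [hη]; positivity
  have a1 := h1 T Z R hA μ₁ μ₂ m1 m2
  have a2 := h2 T Z R hA μ₁ μ₂ m1 m2
  rw [← hη] at a1 ⊢
  have hm : Measurable (fun z : ℝ × ℝ => ENNReal.ofReal (‖Xk T Z z.1 z.2 - trp (bP T 0) R (z.1 - z.2)‖ ^ 2)) :=
    ENNReal.measurable_ofReal.comp ((((Xk_meas T Z).sub (trp_meas _ _)).norm).pow_const 2)
  have hm2 : Measurable (fun z : ℝ × ℝ => ENNReal.ofReal (((‖Xk T Z z.1 z.2‖ + ‖trp (bP T 0) R (z.1 - z.2)‖) ^ k) ^ 2)) :=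
    ENNReal.measurable_ofReal.comp ((((Xk_meas T Z).norm.add (trp_meas _ _).norm).pow_const k).pow_const 2)
  calc (∫⁻ z, ‖Xk T Z z.1 z.2 ^ (k + 1) - trp (bP T 0) R (z.1 - z.2) ^ (k + 1)‖ₑ ∂(μ₁.prod μ₂)) ≤
        ∫⁻ z, (ENNReal.ofReal ((k + 1) * η⁻¹) * ENNReal.ofReal (‖Xk T Z z.1 z.2 - trp (bP T 0) R (z.1 - z.2)‖ ^ 2) +
          ENNReal.ofReal ((k + 1) * η) * ENNReal.ofReal (((‖Xk T Z z.1 z.2‖ + ‖trp (bP T 0) R (z.1 - z.2)‖) ^ k) ^ 2))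
          ∂(μ₁.prod μ₂) := by
        apply lintegral_mono
        intro z
        simp only
        generalize Xk T Z z.1 z.2 = x
        generalize trp (bP T 0) R (z.1 - z.2) = y
        rw [← ofReal_norm, ← ENNReal.ofReal_mul (by positivity), ← ENNReal.ofReal_mul (by positivity),
          ← ENNReal.ofReal_add (by positivity) (by positivity)]
        apply ENNReal.ofReal_le_ofReal
        refine (pow_sub_le x y k).trans ?_
        have h5 : ‖x - y‖ * (‖x‖ + ‖y‖) ^ k ≤ η⁻¹ * ‖x - y‖ ^ 2 + η * ((‖x‖ + ‖y‖) ^ k) ^ 2 := by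
          have g0 : 0 ≤ ‖x - y‖ := norm_nonneg _
          have g1 : 0 ≤ (‖x‖ + ‖y‖) ^ k := by positivity
          generalize ‖x - y‖ = a at *
          generalize (‖x‖ + ‖y‖) ^ k = b at *
          have e : η⁻¹ * a ^ 2 + η * b ^ 2 - a * b = η⁻¹ * ((a - η * b / 2) ^ 2 + 3 / 4 * (η * b) ^ 2) := by
            field_simp
            ring
          have : 0 ≤ η⁻¹ * ((a - η * b / 2) ^ 2 + 3 / 4 * (η * b) ^ 2) := by positivity
          linarith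
        calc _ = (k + 1) * (‖x - y‖ * (‖x‖ + ‖y‖) ^ k) := by ring
          _ ≤ (k + 1) * (η⁻¹ * ‖x - y‖ ^ 2 + η * ((‖x‖ + ‖y‖) ^ k) ^ 2) := by gcongr
          _ = _ := by ring
    _ = ENNReal.ofReal ((k + 1) * η⁻¹) * (∫⁻ z, ENNReal.ofReal (‖Xk T Z z.1 z.2 - trp (bP T 0) R (z.1 - z.2)‖ ^ 2) ∂(μ₁.prod μ₂)) +
          ENNReal.ofReal ((k + 1) * η) * (∫⁻ z, ENNReal.ofReal (((‖Xk T Z z.1 z.2‖ + ‖trp (bP T 0) R (z.1 - z.2)‖) ^ k) ^ 2)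
          ∂(μ₁.prod μ₂)) := by
        rw [lintegral_add_left (hm.const_mul _), lintegral_const_mul _ hm, lintegral_const_mul _ hm2]
    _ ≤ ENNReal.ofReal ((k + 1) * η⁻¹) * ENNReal.ofReal (C1 * η ^ 2) +
          ENNReal.ofReal ((k + 1) * η) * ENNReal.ofReal C2 := by gcongr
    _ = _ := by
        rw [← ENNReal.ofReal_mul (by positivity), ← ENNReal.ofReal_mul (by positivity),
          ← ENNReal.ofReal_add (by positivity) (by positivity)]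
        congr 1
        field_simp

end Pool.Agent.H471.EP
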