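import Pool.Agent.H471.EP.Lim
import Pool.Agent.H471.GS.Main

set_option autoImplicit false

/-!
From the Fourier coefficients to the moments.
-/

namespace Pool.Agent.H471.EP

open Complex MeasureTheory Set ENNReal Filter Topology
open Pool.Agent.H471.QP (ex ex_add norm_ex ex_cont conj_ex ex_deriv)
open Pool.Agent.Y969.GP (ht lam FR PS ff)
open Pool.Agent.H471.GS (mem_FR' ht_pos sh ee sh_meas sh_cont)

/-- the moment -/
noncomputable def Mm (K : ℕ) (μ : Measure ℝ) (α : Fin K → ℝ) : ℂ := ∫ t, ∏ j, (ff (t + α j) : ℂ) ∂μ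

/-- the exceptional set of the short polynomials -/
lemma bad (k : ℕ) (C0 : ℝ) : ∃ δ : ℝ, 0 < δ ∧ ∀ᶠ T in atTop, ∀ μ : Measure ℝ, Mz T C0 μ →
    volume {α : Fin (k + 1) → ℝ | (∀ j, 0 ≤ α j ∧ α j ≤ T) ∧ T ^ (-δ) < ‖Mm (k + 1) μ α - Dm (k + 1) (ZT k T) μ α‖} ≤
      ENNReal.ofReal (T ^ (k + 1) * T ^ (-δ)) := by
  obtain ⟨t1, t2⟩ := th_pos k
  obtain ⟨δ, T₀, hδ, hT₀, h⟩ := Pool.Agent.H471.GS.main (k + 1) (th k) (1 / 2) 1 t1 (by linarith) (by norm_num) le_rfl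
  refine ⟨δ, hδ, ?_⟩
  filter_upwards [eventually_ge_atTop T₀, (tendsto_rpow_atTop (show (0 : ℝ) < 1 / 2 by norm_num)).eventually_ge_atTop C0]
    with T h1 h2 μ hμ
  have hT1 : 1 ≤ T := hT₀.trans h1
  have hT0 : 0 < T := by linarith
  have := hμ.pr
  have hc : ∀ x : ℝ, μ (Icc x (x + 1)) ≤ ENNReal.ofReal (T ^ (-(1 / 2 : ℝ))) := by
    intro x
    refine (hμ.un x).trans (ENNReal.ofReal_le_ofReal ?_)
    rw [div_le_iff₀ hT0]
    have e : T ^ (-(1 / 2 : ℝ)) * T = T ^ (1 / 2 : ℝ) := by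
      conv_lhs => rw [← Real.rpow_one T, ← Real.rpow_mul hT0.le]
      rw [← Real.rpow_add hT0]
      norm_num
    rw [e]
    exact h2
  have h3 := h T T h1 le_rfl (by rw [Real.rpow_one]) μ hμ.sup hc (fun _ => 1) measurable_const (fun _ => by simp)
  simp only [mul_one] at h3
  have e : ∀ α : Fin (k + 1) → ℝ, Mm (k + 1) μ α - Dm (k + 1) (ZT k T) μ α =
      (∫ t, ∏ j, (ff (t + α j) : ℂ) ∂μ) - ∫ t, ∏ j, sh ⌊T ^ th k⌋₊ (t + α j) ∂μ := by
    intro α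
    unfold Mm Dm Fs ZT
    rfl
  simp_rw [e]
  exact h3

/-- the box -/
lemma small_box (K : ℕ) {η : ℝ} (hη : 0 < η) : ∀ᶠ T in atTop,
    volume ({α : Fin K → ℝ | ∀ j, 0 ≤ α j ∧ α j ≤ T} \ (Set.univ.pi fun _ => Ioc (T / Real.log T) T)) ≤
      ENNReal.ofReal (η * T ^ K) := by
  filter_upwards [big_ev, Real.tendsto_log_atTop.eventually_ge_atTop (K / η)] with T h h1
  obtain ⟨a1, a2, a3⟩ := h.a
  have hl : 0 < Real.log T := by linarith [h.1]
  have hT0 := h.2.2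
  have e1 : {α : Fin K → ℝ | ∀ j, 0 ≤ α j ∧ α j ≤ T} = Set.univ.pi fun _ => Icc 0 T := by
    ext α
    simp only [Set.mem_ofPred_eq, Set.mem_univ_pi, Set.mem_Icc]
  rw [e1, measure_sdiff]
  · rw [volume_pi_pi, volume_pi_pi]
    simp only [Real.volume_Icc, Real.volume_Ioc, sub_zero, Finset.prod_const, Finset.card_univ, Fintype.card_fin]
    rw [← ENNReal.ofReal_pow hT0.le, ← ENNReal.ofReal_pow (by linarith), ← ENNReal.ofReal_sub _ (by
      have : 0 ≤ T - T / Real.log T := by linarith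
      positivity)]
    apply ENNReal.ofReal_le_ofReal
    have e2 : T - T / Real.log T = T * (1 + -(1 / Real.log T)) := by ring
    have h2 : 1 / Real.log T ≤ 1 := by
      rw [div_le_one hl]
      linarith [h.1]
    have h3 := one_add_mul_le_pow (show (-2 : ℝ) ≤ -(1 / Real.log T) by linarith) K
    rw [e2, mul_pow]
    have h4 : (K : ℝ) * (1 / Real.log T) ≤ η := by
      rw [mul_one_div, div_le_iff₀ hl]
      rw [div_le_iff₀ hη] at h1
      linarith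
    have h5 : 0 ≤ T ^ K := by positivity
    nlinarith
  · apply Set.pi_mono
    intro j _
    exact Ioc_subset_Icc_self.trans (Icc_subset_Icc a1.le le_rfl)
  · exact (MeasurableSet.univ_pi fun _ => measurableSet_Ioc).nullMeasurableSet
  · rw [volume_pi_pi]
    simp

lemma E_meas (K Z : ℕ) (μ₁ μ₂ : Measure ℝ) [SFinite μ₁] [SFinite μ₂] :
    Measurable (fun α => ‖Dm K Z μ₁ α - Dm K Z μ₂ α‖) := ((Dm_meas K Z μ₁).sub (Dm_meas K Z μ₂)).norm

lemma E_bd {K Z : ℕ} {T C0 : ℝ} (h : Big T) (hZ : (Z : ℝ) ≤ T) {μ₁ μ₂ : Measure ℝ} (h1 : Mz T C0 μ₁) (h2 : Mz T C0 μ₂) :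
    ∀ᵐ α ∂(pb K T), ‖Dm K Z μ₁ α - Dm K Z μ₂ α‖ ≤ 2 * BB T Z ^ K := by
  filter_upwards [ae_pb K T] with α hα
  have a1 := Dm_bd h hZ h1 hα
  have a2 := Dm_bd h hZ h2 hα
  refine (norm_sub_le _ _).trans ?_
  linarith

lemma E_int {K Z : ℕ} {T C0 : ℝ} (h : Big T) (hZ : (Z : ℝ) ≤ T) {μ₁ μ₂ : Measure ℝ} (h1 : Mz T C0 μ₁) (h2 : Mz T C0 μ₂) :
    Integrable (fun α => ‖Dm K Z μ₁ α - Dm K Z μ₂ α‖) (pb K T) := by
  have := h1.pr
  have := h2.pr
  apply Integrable.of_bound (C := 2 * BB T Z ^ K) (E_meas K Z μ₁ μ₂).aestronglyMeasurable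
  filter_upwards [E_bd (K := K) h hZ h1 h2] with α hα
  rwa [norm_norm]

lemma E2_int {K Z : ℕ} {T C0 : ℝ} (h : Big T) (hZ : (Z : ℝ) ≤ T) {μ₁ μ₂ : Measure ℝ} (h1 : Mz T C0 μ₁) (h2 : Mz T C0 μ₂) :
    Integrable (fun α => ‖Dm K Z μ₁ α - Dm K Z μ₂ α‖ ^ 2) (pb K T) := by
  have := h1.pr
  have := h2.pr
  apply Integrable.of_bound (C := (2 * BB T Z ^ K) ^ 2) ((E_meas K Z μ₁ μ₂).pow_const 2).aestronglyMeasurable
  filter_upwards [E_bd (K := K) h hZ h1 h2] with α hα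
  rw [norm_pow, norm_norm]
  exact pow_le_pow_left₀ (norm_nonneg _) hα 2

/-- the integral in terms of `En` -/
lemma En_mul {k : ℕ} {T : ℝ} (h : Big T) (μ₁ μ₂ : Measure ℝ) :
    ∫ α, ‖Dm (k + 1) (ZT k T) μ₁ α - Dm (k + 1) (ZT k T) μ₂ α‖ ^ 2 ∂(pb (k + 1) T) =
      (T * Real.log T ^ 2) ^ (k + 1) * En k T μ₁ μ₂ := by
  have hl : 0 < Real.log T := by linarith [h.1]
  have hT0 := h.2.2
  unfold En
  rw [mul_div_cancel₀]
  positivity

/-- Chebyshev's inequality -/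
lemma mark {k : ℕ} {T C0 : ℝ} (h : Big T) (hZ : (ZT k T : ℝ) ≤ T) {μ₁ μ₂ : Measure ℝ} (h1 : Mz T C0 μ₁)
    (h2 : Mz T C0 μ₂) {x : ℝ} (hx : 0 < x) :
    (pb (k + 1) T) {α | x * Real.log T ^ (k + 1) ≤ ‖Dm (k + 1) (ZT k T) μ₁ α - Dm (k + 1) (ZT k T) μ₂ α‖} ≤
      ENNReal.ofReal (T ^ (k + 1) * (En k T μ₁ μ₂ / x ^ 2)) := by
  have hl : 0 < Real.log T := by linarith [h.1]
  have hT0 := h.2.2
  have hy : 0 < (x * Real.log T ^ (k + 1)) ^ 2 := by positivity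
  have h3 := mul_meas_ge_le_integral_of_nonneg (μ := pb (k + 1) T)
    (f := fun α => ‖Dm (k + 1) (ZT k T) μ₁ α - Dm (k + 1) (ZT k T) μ₂ α‖ ^ 2)
    (Eventually.of_forall fun α => by positivity) (E2_int (K := k + 1) h hZ h1 h2) ((x * Real.log T ^ (k + 1)) ^ 2)
  rw [En_mul h] at h3
  have hsub : {α : Fin (k + 1) → ℝ | x * Real.log T ^ (k + 1) ≤ ‖Dm (k + 1) (ZT k T) μ₁ α - Dm (k + 1) (ZT k T) μ₂ α‖} ⊆
      {α | (x * Real.log T ^ (k + 1)) ^ 2 ≤ ‖Dm (k + 1) (ZT k T) μ₁ α - Dm (k + 1) (ZT k T) μ₂ α‖ ^ 2} := by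
    intro α hα
    have hα' : x * Real.log T ^ (k + 1) ≤ ‖Dm (k + 1) (ZT k T) μ₁ α - Dm (k + 1) (ZT k T) μ₂ α‖ := hα
    have h0 : 0 ≤ x * Real.log T ^ (k + 1) := by positivity
    exact pow_le_pow_left₀ h0 hα' 2
  refine (measure_mono hsub).trans ?_
  have h4 : (pb (k + 1) T).real {α | (x * Real.log T ^ (k + 1)) ^ 2 ≤ ‖Dm (k + 1) (ZT k T) μ₁ α - Dm (k + 1) (ZT k T) μ₂ α‖ ^ 2} ≤
      T ^ (k + 1) * (En k T μ₁ μ₂ / x ^ 2) := by
    have e : T ^ (k + 1) * (En k T μ₁ μ₂ / x ^ 2) = (T * Real.log T ^ 2) ^ (k + 1) * En k T μ₁ μ₂ /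
        (x * Real.log T ^ (k + 1)) ^ 2 := by
      rw [mul_pow, mul_pow, ← pow_mul, ← pow_mul, mul_comm 2 (k + 1)]
      field_simp
    rw [e, le_div_iff₀ hy, mul_comm]
    exact h3
  rw [← ENNReal.ofReal_toReal (measure_ne_top (pb (k + 1) T) _)]
  exact ENNReal.ofReal_le_ofReal h4

/-- **from the Fourier coefficients to the moments** -/
theorem ba (k : ℕ) {C0 : ℝ} (hC0 : 1 ≤ C0) {T : ℕ → ℝ} (hT : Tendsto T atTop atTop) {ν : ℕ → Measure ℝ}
    (p1 : ∀ n, IsProbabilityMeasure (ν n)) (h1 : ∀ᶠ n in atTop, Mz (T n) C0 (ν n)) (f1 : FCo ν) {ε η : ℝ}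
    (hε : 0 < ε) (hη : 0 < η) : ∀ᶠ n in atTop,
    volume {α : Fin (k + 1) → ℝ | (∀ j, 0 ≤ α j ∧ α j ≤ T n) ∧
      ε * Real.log (T n) ^ (k + 1) < ‖Mm (k + 1) (ν n) α - Mm (k + 1) (un (T n)) α‖} ≤
      ENNReal.ofReal (η * T n ^ (k + 1)) := by
  obtain ⟨δ, hδ, hbad⟩ := bad k C0
  have hu : ∀ᶠ n in atTop, Mz (T n) C0 (un (T n)) := by
    filter_upwards [hT.eventually_ge_atTop 1] with n hn
    exact un_mz hn hC0
  -- a sequence of probability measures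
  obtain ⟨u, hudef⟩ : ∃ u : ℕ → Measure ℝ, u = fun n => un (max (T n) 1) := ⟨_, rfl⟩
  have pu : ∀ n, IsProbabilityMeasure (u n) := by
    intro n
    rw [hudef]
    exact (un_mz (le_max_right _ _) le_rfl).pr
  have hT' : Tendsto (fun n => max (T n) 1) atTop atTop := tendsto_atTop_mono (fun n => le_max_left _ _) hT
  have fu : FCo u := by
    rw [hudef]
    exact un_fc hT'
  have hue : ∀ᶠ n in atTop, u n = un (T n) := by
    filter_upwards [hT.eventually_ge_atTop 1] with n hn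
    rw [hudef]
    simp only
    rw [max_eq_left hn]
  have hu2 : ∀ᶠ n in atTop, Mz (T n) C0 (u n) := by
    filter_upwards [hu, hue] with n a b
    rw [b]
    exact a
  have hE := En_lim k (by linarith : 0 < C0) hT p1 pu h1 hu2 f1 fu
  have hE2 : Tendsto (fun n => En k (T n) (ν n) (u n) / (ε / 2) ^ 2) atTop (𝓝 0) := by
    have := hE.div_const ((ε / 2) ^ 2)
    rwa [zero_div] at this
  have hTd : Tendsto (fun n => (T n) ^ (-δ)) atTop (𝓝 0) := (tendsto_rpow_neg_atTop hδ).comp hT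
  filter_upwards [h1, hue, hu2, hT.eventually hbad, hT.eventually (small_box (k + 1) (show 0 < η / 4 by positivity)),
    hE2.eventually_le_const (show 0 < η / 4 by positivity), hTd.eventually_le_const (show 0 < η / 4 by positivity),
    hTd.eventually_le_const (show 0 < ε / 4 by positivity), hT.eventually (ad_ev k le_rfl)] with
    n m1 e2 m2 b1 b2 b3 b4 b5 b6
  have hbig := b6.1.big
  have hZ := b6.1.f.2.2.1
  have hl : 0 < Real.log (T n) := by linarith [hbig.1]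
  have hl1 : 1 ≤ Real.log (T n) := by linarith [hbig.1]
  have hT0 := hbig.2.2
  rw [← e2]
  have hL : 1 ≤ Real.log (T n) ^ (k + 1) := one_le_pow₀ hl1
  set bx : Set (Fin (k + 1) → ℝ) := Set.univ.pi fun _ => Ioc (T n / Real.log (T n)) (T n) with hbx
  have hsub : {α : Fin (k + 1) → ℝ | (∀ j, 0 ≤ α j ∧ α j ≤ T n) ∧
      ε * Real.log (T n) ^ (k + 1) < ‖Mm (k + 1) (ν n) α - Mm (k + 1) (u n) α‖} ⊆
      (({α : Fin (k + 1) → ℝ | ∀ j, 0 ≤ α j ∧ α j ≤ T n} \ bx) ∪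
      {α : Fin (k + 1) → ℝ | (∀ j, 0 ≤ α j ∧ α j ≤ T n) ∧ T n ^ (-δ) < ‖Mm (k + 1) (ν n) α - Dm (k + 1) (ZT k (T n)) (ν n) α‖}) ∪
      ({α : Fin (k + 1) → ℝ | (∀ j, 0 ≤ α j ∧ α j ≤ T n) ∧ T n ^ (-δ) < ‖Mm (k + 1) (u n) α - Dm (k + 1) (ZT k (T n)) (u n) α‖} ∪
      ({α | ε / 2 * Real.log (T n) ^ (k + 1) ≤ ‖Dm (k + 1) (ZT k (T n)) (ν n) α - Dm (k + 1) (ZT k (T n)) (u n) α‖} ∩ bx)) := by
    intro α hα
    by_cases c1 : α ∈ bx
    · by_cases c2 : T n ^ (-δ) < ‖Mm (k + 1) (ν n) α - Dm (k + 1) (ZT k (T n)) (ν n) α‖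
      · exact Or.inl (Or.inr ⟨hα.1, c2⟩)
      · by_cases c3 : T n ^ (-δ) < ‖Mm (k + 1) (u n) α - Dm (k + 1) (ZT k (T n)) (u n) α‖
        · exact Or.inr (Or.inl ⟨hα.1, c3⟩)
        · refine Or.inr (Or.inr ⟨?_, c1⟩)
          push Not at c2 c3
          have h5 := hα.2
          have e : Mm (k + 1) (ν n) α - Mm (k + 1) (u n) α = (Mm (k + 1) (ν n) α - Dm (k + 1) (ZT k (T n)) (ν n) α) -
              (Mm (k + 1) (u n) α - Dm (k + 1) (ZT k (T n)) (u n) α) +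
              (Dm (k + 1) (ZT k (T n)) (ν n) α - Dm (k + 1) (ZT k (T n)) (u n) α) := by ring
          rw [e] at h5
          have h6 := norm_add_le ((Mm (k + 1) (ν n) α - Dm (k + 1) (ZT k (T n)) (ν n) α) -
              (Mm (k + 1) (u n) α - Dm (k + 1) (ZT k (T n)) (u n) α))
              (Dm (k + 1) (ZT k (T n)) (ν n) α - Dm (k + 1) (ZT k (T n)) (u n) α)
          have h7 := norm_sub_le (Mm (k + 1) (ν n) α - Dm (k + 1) (ZT k (T n)) (ν n) α)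
              (Mm (k + 1) (u n) α - Dm (k + 1) (ZT k (T n)) (u n) α)
          have h8 : ε * 1 ≤ ε * Real.log (T n) ^ (k + 1) := by gcongr
          show ε / 2 * Real.log (T n) ^ (k + 1) ≤ _
          nlinarith
    · exact Or.inl (Or.inl ⟨hα.1, c1⟩)
  refine (measure_mono hsub).trans ?_
  have q1 := b1 (ν n) m1
  have q2 := b1 (u n) m2
  have q3 : volume ({α | ε / 2 * Real.log (T n) ^ (k + 1) ≤ ‖Dm (k + 1) (ZT k (T n)) (ν n) α - Dm (k + 1) (ZT k (T n)) (u n) α‖} ∩ bx) ≤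
      ENNReal.ofReal (T n ^ (k + 1) * (η / 4)) := by
    have h5 := mark hbig hZ m1 m2 (show 0 < ε / 2 by positivity)
    rw [pb_eq] at h5
    refine (Measure.le_restrict_apply _ _).trans (h5.trans (ENNReal.ofReal_le_ofReal ?_))
    gcongr
  have q4 : ENNReal.ofReal (T n ^ (k + 1) * T n ^ (-δ)) ≤ ENNReal.ofReal (η / 4 * T n ^ (k + 1)) := by
    apply ENNReal.ofReal_le_ofReal
    rw [mul_comm]
    gcongr
  have hη4 : 0 ≤ η / 4 * T n ^ (k + 1) := by positivity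
  calc _ ≤ (ENNReal.ofReal (η / 4 * T n ^ (k + 1)) + ENNReal.ofReal (η / 4 * T n ^ (k + 1))) +
        (ENNReal.ofReal (η / 4 * T n ^ (k + 1)) + ENNReal.ofReal (η / 4 * T n ^ (k + 1))) := by
        refine (measure_union_le _ _).trans (add_le_add ((measure_union_le _ _).trans (add_le_add b2 (q1.trans q4)))
          ((measure_union_le _ _).trans (add_le_add (q2.trans q4) (q3.trans (le_of_eq ?_)))))
        rw [mul_comm]
    _ = _ := by
        rw [← ENNReal.ofReal_add hη4 hη4, ← ENNReal.ofReal_add (by positivity) (by positivity)]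
        congr 1
        ring

end Pool.Agent.H471.EP
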