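import Pool.Agent.H471.EP.Ap2

set_option autoImplicit false

/-!
The second moment over the shifts.
-/

namespace Pool.Agent.H471.EP

open Complex MeasureTheory Set ENNReal
open Pool.Agent.H471.QP (ex ex_add norm_ex ex_cont conj_ex ex_deriv)
open Pool.Agent.Y969.GP (ht lam FR PS)
open Pool.Agent.H471.GS (mem_FR' ht_pos sh ee sh_meas sh_cont)

/-- one coordinate -/
noncomputable def bm (T : ℝ) : Measure ℝ := volume.restrict (Ioc (T / Real.log T) T)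

instance (T : ℝ) : IsFiniteMeasure (bm T) := by unfold bm; infer_instance

/-- the box -/
noncomputable def pb (K : ℕ) (T : ℝ) : Measure (Fin K → ℝ) := Measure.pi fun _ => bm T

instance (K : ℕ) (T : ℝ) : IsFiniteMeasure (pb K T) := by unfold pb; infer_instance

lemma pb_eq (K : ℕ) (T : ℝ) : pb K T = volume.restrict (Set.univ.pi fun _ : Fin K => Ioc (T / Real.log T) T) := by
  unfold pb bm
  rw [← Measure.restrict_pi_pi]
  rfl

lemma ae_pb (K : ℕ) (T : ℝ) : ∀ᵐ α ∂(pb K T), ∀ j, α j ∈ Icc (T / Real.log T) T := by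
  rw [pb_eq]
  filter_upwards [ae_restrict_mem (MeasurableSet.univ_pi fun _ => measurableSet_Ioc)] with α hα j
  exact Ioc_subset_Icc_self (hα j (mem_univ j))

/-- the bound -/
noncomputable def BB (T : ℝ) (Z : ℕ) : ℝ := (Z : ℝ) ^ 2 * (3 * Real.log T)

lemma sh_bd {Z : ℕ} {T : ℝ} (h : Big T) (hZ : (Z : ℝ) ≤ T) {t α : ℝ} (ht0 : t ∈ Icc 0 T)
    (hα : α ∈ Icc (T / Real.log T) T) : ‖sh Z (t + α)‖ ≤ BB T Z := by
  obtain ⟨a1, a2, a3⟩ := h.a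
  have hl : 0 < Real.log T := by linarith [h.1]
  rw [sh_eq Z (by linarith [ht0.1, hα.1] : 0 < t + α)]
  unfold BB
  calc _ ≤ ∑ p ∈ FR Z, 3 * Real.log T := by
        refine (norm_sum_le _ _).trans (Finset.sum_le_sum fun p hp => ?_)
        rw [norm_mul, norm_ex, mul_one, Complex.norm_real]
        exact ((cc_C1 h hZ hp ht0) α hα).2.2.1
    _ = ((FR Z).card : ℝ) * (3 * Real.log T) := by rw [Finset.sum_const, nsmul_eq_mul]
    _ ≤ _ := mul_le_mul_of_nonneg_right card_FR2 (by positivity)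

/-- the product of the polynomials -/
noncomputable def Fs (K Z : ℕ) (α : Fin K → ℝ) (t : ℝ) : ℂ := ∏ j, sh Z (t + α j)

lemma Fs_meas (K Z : ℕ) : Measurable (Function.uncurry (Fs K Z)) := by
  unfold Fs Function.uncurry
  refine Finset.measurable_fun_prod _ fun j _ => ?_
  exact (sh_meas Z).comp (measurable_snd.add ((measurable_pi_apply j).comp measurable_fst))

lemma Fs_bd {K Z : ℕ} {T : ℝ} (h : Big T) (hZ : (Z : ℝ) ≤ T) {t : ℝ} {α : Fin K → ℝ} (ht0 : t ∈ Icc 0 T)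
    (hα : ∀ j, α j ∈ Icc (T / Real.log T) T) : ‖Fs K Z α t‖ ≤ BB T Z ^ K := by
  unfold Fs
  rw [norm_prod]
  calc _ ≤ ∏ _j : Fin K, BB T Z := Finset.prod_le_prod (fun j _ => norm_nonneg _) fun j _ => sh_bd h hZ ht0 (hα j)
    _ = _ := by rw [Finset.prod_const, Finset.card_univ, Fintype.card_fin]

lemma BB_nn {Z : ℕ} {T : ℝ} (h : Big T) : 0 ≤ BB T Z := by
  have hl : 0 < Real.log T := by linarith [h.1]
  unfold BB
  positivity

attribute [irreducible] Fs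

/-- the integral -/
noncomputable def Dm (K Z : ℕ) (μ : Measure ℝ) (α : Fin K → ℝ) : ℂ := ∫ t, Fs K Z α t ∂μ

lemma Dm_meas (K Z : ℕ) (μ : Measure ℝ) [SFinite μ] : Measurable (Dm K Z μ) := by
  unfold Dm
  exact (StronglyMeasurable.integral_prod_right (f := Fs K Z) (Fs_meas K Z).stronglyMeasurable).measurable

lemma Dm_bd {K Z : ℕ} {T C0 : ℝ} (h : Big T) (hZ : (Z : ℝ) ≤ T) {μ : Measure ℝ} (hμ : Mz T C0 μ) {α : Fin K → ℝ}
    (hα : ∀ j, α j ∈ Icc (T / Real.log T) T) : ‖Dm K Z μ α‖ ≤ BB T Z ^ K := by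
  have := hμ.pr
  have h1 : ∀ᵐ t ∂μ, ‖Fs K Z α t‖ ≤ BB T Z ^ K := by
    filter_upwards [hμ.sup] with t ht0
    exact Fs_bd h hZ ht0 hα
  have h2 := norm_integral_le_of_norm_le_const h1
  unfold Dm
  simpa using h2

lemma DD_int {K Z : ℕ} {T C0 : ℝ} (h : Big T) (hZ : (Z : ℝ) ≤ T) {μ₁ μ₂ : Measure ℝ} (h1 : Mz T C0 μ₁) (h2 : Mz T C0 μ₂) :
    Integrable (fun α => Dm K Z μ₁ α * (starRingEnd ℂ) (Dm K Z μ₂ α)) (pb K T) := by
  have := h1.pr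
  have := h2.pr
  apply Integrable.of_bound (C := BB T Z ^ K * BB T Z ^ K)
  · exact ((Dm_meas K Z μ₁).mul (Complex.continuous_conj.measurable.comp (Dm_meas K Z μ₂))).aestronglyMeasurable
  · filter_upwards [ae_pb K T] with α hα
    rw [norm_mul, RCLike.norm_conj]
    have a1 := Dm_bd h hZ h1 hα
    have a2 := Dm_bd h hZ h2 hα
    have := BB_nn (Z := Z) h
    gcongr

lemma FF_meas1 (K Z : ℕ) : Measurable (fun y : (Fin K → ℝ) × (ℝ × ℝ) => Fs K Z y.1 y.2.1) := by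
  have m1 : Measurable (fun y : (Fin K → ℝ) × (ℝ × ℝ) => (y.1, y.2.1)) :=
    measurable_fst.prodMk (measurable_fst.comp measurable_snd)
  exact (Fs_meas K Z).comp m1

lemma FF_meas2 (K Z : ℕ) : Measurable (fun y : (Fin K → ℝ) × (ℝ × ℝ) => Fs K Z y.1 y.2.2) := by
  have m1 : Measurable (fun y : (Fin K → ℝ) × (ℝ × ℝ) => (y.1, y.2.2)) :=
    measurable_fst.prodMk (measurable_snd.comp measurable_snd)
  exact (Fs_meas K Z).comp m1

lemma FF_meas3 (K Z : ℕ) : Measurable (fun y : (Fin K → ℝ) × (ℝ × ℝ) => (starRingEnd ℂ) (Fs K Z y.1 y.2.2)) := by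
  exact Complex.continuous_conj.measurable.comp (FF_meas2 K Z)

lemma FF_meas (K Z : ℕ) : Measurable (fun y : (Fin K → ℝ) × (ℝ × ℝ) =>
    Fs K Z y.1 y.2.1 * (starRingEnd ℂ) (Fs K Z y.1 y.2.2)) := by
  exact (FF_meas1 K Z).mul (FF_meas3 K Z)

lemma FF_int {K Z : ℕ} {T C0 : ℝ} (h : Big T) (hZ : (Z : ℝ) ≤ T) {μ₁ μ₂ : Measure ℝ} (h1 : Mz T C0 μ₁) (h2 : Mz T C0 μ₂) :
    Integrable (fun y : (Fin K → ℝ) × (ℝ × ℝ) => Fs K Z y.1 y.2.1 * (starRingEnd ℂ) (Fs K Z y.1 y.2.2))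
      ((pb K T).prod (μ₁.prod μ₂)) := by
  have := h1.pr
  have := h2.pr
  have hB := BB_nn (Z := Z) h
  have hb : ∀ᵐ y ∂((pb K T).prod (μ₁.prod μ₂)), ‖Fs K Z y.1 y.2.1 * (starRingEnd ℂ) (Fs K Z y.1 y.2.2)‖ ≤
      BB T Z ^ K * BB T Z ^ K := by
    have b1 : ∀ᵐ y ∂((pb K T).prod (μ₁.prod μ₂)), ∀ j, y.1 j ∈ Icc (T / Real.log T) T :=
      Measure.quasiMeasurePreserving_fst.ae (ae_pb K T)
    have b2 : ∀ᵐ y ∂((pb K T).prod (μ₁.prod μ₂)), y.2.1 ∈ Icc 0 T ∧ y.2.2 ∈ Icc 0 T :=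
      Measure.quasiMeasurePreserving_snd.ae (ae_box h1 h2)
    filter_upwards [b1, b2] with y u v
    rw [norm_mul, RCLike.norm_conj]
    have a1 := Fs_bd h hZ v.1 u
    have a2 := Fs_bd h hZ v.2 u
    gcongr
  exact Integrable.of_bound (FF_meas K Z).aestronglyMeasurable _ hb

/-- the identity -/
lemma Jid {K Z : ℕ} {T C0 : ℝ} (h : Big T) (hZ : (Z : ℝ) ≤ T) {μ₁ μ₂ : Measure ℝ} (h1 : Mz T C0 μ₁) (h2 : Mz T C0 μ₂) :
    ∫ α, Dm K Z μ₁ α * (starRingEnd ℂ) (Dm K Z μ₂ α) ∂(pb K T) =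
      (T * Real.log T ^ 2 : ℂ) ^ K * ∫ z, Xk T Z z.1 z.2 ^ K ∂(μ₁.prod μ₂) := by
  have := h1.pr
  have := h2.pr
  obtain ⟨a1, a2, a3⟩ := h.a
  have hB := BB_nn (Z := Z) h
  have hTl : (T : ℂ) * (Real.log T : ℂ) ^ 2 ≠ 0 := by
    have : (T * Real.log T ^ 2 : ℝ) ≠ 0 := by
      have := h.1
      have := h.2.2
      positivity
    exact_mod_cast this
  have s1 : ∀ α, Dm K Z μ₁ α * (starRingEnd ℂ) (Dm K Z μ₂ α) =
      ∫ z, Fs K Z α z.1 * (starRingEnd ℂ) (Fs K Z α z.2) ∂(μ₁.prod μ₂) := by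
    intro α
    unfold Dm
    rw [← integral_conj, ← integral_prod_mul]
  simp_rw [s1]
  have hint : Integrable (Function.uncurry fun (α : Fin K → ℝ) (z : ℝ × ℝ) =>
      Fs K Z α z.1 * (starRingEnd ℂ) (Fs K Z α z.2)) ((pb K T).prod (μ₁.prod μ₂)) := FF_int h hZ h1 h2
  rw [integral_integral_swap hint, ← integral_const_mul]
  congr 1
  funext z
  have s2 : ∀ α : Fin K → ℝ, Fs K Z α z.1 * (starRingEnd ℂ) (Fs K Z α z.2) =
      ∏ j, (sh Z (z.1 + α j) * (starRingEnd ℂ) (sh Z (z.2 + α j))) := by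
    intro α
    unfold Fs
    rw [map_prod, Finset.prod_mul_distrib]
  simp_rw [s2]
  unfold pb
  rw [integral_fintype_prod_eq_pow (fun x => sh Z (z.1 + x) * (starRingEnd ℂ) (sh Z (z.2 + x))), Fintype.card_fin]
  have s3 : ∫ x, sh Z (z.1 + x) * (starRingEnd ℂ) (sh Z (z.2 + x)) ∂(bm T) = (T * Real.log T ^ 2 : ℂ) * Xk T Z z.1 z.2 := by
    unfold Xk bm
    rw [intervalIntegral.integral_of_le a2, mul_div_cancel₀]
    exact hTl
  rw [s3, mul_pow]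

/-- the normalised double integral -/
noncomputable def Jn (K Z : ℕ) (T : ℝ) (μ₁ μ₂ : Measure ℝ) : ℂ := ∫ z, Xk T Z z.1 z.2 ^ K ∂(μ₁.prod μ₂)

/-- the second moment of the difference -/
lemma E2 {K Z : ℕ} {T C0 : ℝ} (h : Big T) (hZ : (Z : ℝ) ≤ T) {μ₁ μ₂ : Measure ℝ} (h1 : Mz T C0 μ₁) (h2 : Mz T C0 μ₂) :
    ((∫ α, ‖Dm K Z μ₁ α - Dm K Z μ₂ α‖ ^ 2 ∂(pb K T) : ℝ) : ℂ) = (T * Real.log T ^ 2 : ℂ) ^ K *
      (Jn K Z T μ₁ μ₁ - Jn K Z T μ₁ μ₂ - Jn K Z T μ₂ μ₁ + Jn K Z T μ₂ μ₂) := by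
  have e0 : ((∫ α, ‖Dm K Z μ₁ α - Dm K Z μ₂ α‖ ^ 2 ∂(pb K T) : ℝ) : ℂ) =
      ∫ α, ((‖Dm K Z μ₁ α - Dm K Z μ₂ α‖ ^ 2 : ℝ) : ℂ) ∂(pb K T) := (integral_ofReal (𝕜 := ℂ)).symm
  rw [e0]
  have e : ∀ α, ((‖Dm K Z μ₁ α - Dm K Z μ₂ α‖ ^ 2 : ℝ) : ℂ) = Dm K Z μ₁ α * (starRingEnd ℂ) (Dm K Z μ₁ α) -
      Dm K Z μ₁ α * (starRingEnd ℂ) (Dm K Z μ₂ α) - Dm K Z μ₂ α * (starRingEnd ℂ) (Dm K Z μ₁ α) +
      Dm K Z μ₂ α * (starRingEnd ℂ) (Dm K Z μ₂ α) := by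
    intro α
    have h3 := Complex.mul_conj (Dm K Z μ₁ α - Dm K Z μ₂ α)
    rw [Complex.normSq_eq_norm_sq] at h3
    rw [← h3, map_sub]
    ring
  simp_rw [e]
  have i11 := DD_int (K := K) h hZ h1 h1
  have i12 := DD_int (K := K) h hZ h1 h2
  have i21 := DD_int (K := K) h hZ h2 h1
  have i22 := DD_int (K := K) h hZ h2 h2
  have j1 : Integrable (fun α => Dm K Z μ₁ α * (starRingEnd ℂ) (Dm K Z μ₁ α) -
      Dm K Z μ₁ α * (starRingEnd ℂ) (Dm K Z μ₂ α)) (pb K T) := i11.sub i12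
  have j2 : Integrable (fun α => Dm K Z μ₁ α * (starRingEnd ℂ) (Dm K Z μ₁ α) -
      Dm K Z μ₁ α * (starRingEnd ℂ) (Dm K Z μ₂ α) - Dm K Z μ₂ α * (starRingEnd ℂ) (Dm K Z μ₁ α)) (pb K T) := j1.sub i21
  rw [integral_add j2 i22, integral_sub j1 i21, integral_sub i11 i12, Jid h hZ h1 h1,
    Jid h hZ h1 h2, Jid h hZ h2 h1, Jid h hZ h2 h2]
  unfold Jn
  ring

/-- the Fourier coefficients -/
noncomputable def fc (μ : Measure ℝ) (ξ : ℝ) : ℂ := ∫ t, ex (t * ξ) ∂μ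

/-- the main term -/
lemma JR_eq (K R : ℕ) (T : ℝ) (μ₁ μ₂ : Measure ℝ) [IsProbabilityMeasure μ₁] [IsProbabilityMeasure μ₂] :
    ∫ z, trp (bP T 0) R (z.1 - z.2) ^ K ∂(μ₁.prod μ₂) =
      ∑ p ∈ TS K R, (((Ht p)⁻¹ : ℝ) : ℂ) * (fc μ₁ (Lam p) * (starRingEnd ℂ) (fc μ₂ (Lam p))) := by
  simp_rw [trp_pow]
  unfold tp
  rw [integral_finsetSum]
  · refine Finset.sum_congr rfl fun p _ => ?_
    rw [integral_const_mul]
    congr 1
    · show ∏ j, bP T 0 (p j) = _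
      unfold bP Ht
      rw [← Complex.ofReal_prod, ← Finset.prod_inv_distrib]
      congr 1
      refine Finset.prod_congr rfl fun j _ => ?_
      rw [pow_zero, mul_one]
    · unfold fc
      rw [← integral_conj, ← integral_prod_mul]
      congr 1
      funext z
      rw [conj_ex, ← ex_add]
      congr 1
      ring
  · intro p _
    apply Integrable.const_mul
    apply Integrable.of_bound (C := 1)
    · have : Continuous (fun z : ℝ × ℝ => ex ((z.1 - z.2) * Lam p)) := ex_cont.comp (by fun_prop)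
      exact this.aestronglyMeasurable
    · exact Filter.Eventually.of_forall fun z => (norm_ex _).le

lemma fc_le (μ : Measure ℝ) [IsProbabilityMeasure μ] (ξ : ℝ) : ‖fc μ ξ‖ ≤ 1 := by
  unfold fc
  have := norm_integral_le_of_norm_le_const (μ := μ) (f := fun t => ex (t * ξ)) (C := 1)
    (Filter.Eventually.of_forall fun t => (norm_ex _).le)
  simpa using this

lemma fc_zero (μ : Measure ℝ) [IsProbabilityMeasure μ] : fc μ 0 = 1 := by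
  unfold fc ex
  simp

/-- the approximation -/
lemma Jn_apx (k : ℕ) {C0 : ℝ} (hC0 : 0 < C0) : ∃ C : ℝ, 0 < C ∧ ∀ (T : ℝ) (Z R : ℕ), Ad k T Z R →
    ∀ (μ₁ μ₂ : Measure ℝ), Mz T C0 μ₁ → Mz T C0 μ₂ →
    ‖Jn (k + 1) Z T μ₁ μ₂ - ∑ p ∈ TS (k + 1) R, (((Ht p)⁻¹ : ℝ) : ℂ) * (fc μ₁ (Lam p) * (starRingEnd ℂ) (fc μ₂ (Lam p)))‖ ≤
      C * (rho T + (R : ℝ) ^ (-(1 / 8 : ℝ))) := by
  obtain ⟨C, hC, hA⟩ := apx k hC0
  refine ⟨C, hC, fun T Z R ha μ₁ μ₂ h1 h2 => ?_⟩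
  have := h1.pr
  have := h2.pr
  have h3 := hA T Z R ha μ₁ μ₂ h1 h2
  obtain ⟨r1, r2, r3⟩ := ha.big.r
  have hη : 0 ≤ C * (rho T + (R : ℝ) ^ (-(1 / 8 : ℝ))) := by positivity
  rw [← JR_eq (k + 1) R T μ₁ μ₂]
  unfold Jn
  have i2 : Integrable (fun z : ℝ × ℝ => trp (bP T 0) R (z.1 - z.2) ^ (k + 1)) (μ₁.prod μ₂) := by
    apply Integrable.of_bound (C := (∑ p ∈ FR R, ‖bP T 0 p‖) ^ (k + 1))
    · exact ((trp_meas _ _).pow_const _).aestronglyMeasurable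
    · refine Filter.Eventually.of_forall fun z => ?_
      rw [norm_pow]
      refine pow_le_pow_left₀ (norm_nonneg _) ?_ _
      unfold trp
      refine (norm_sum_le _ _).trans (Finset.sum_le_sum fun p _ => ?_)
      rw [norm_mul, norm_ex, mul_one]
  have i12 : Integrable (fun z : ℝ × ℝ => Xk T Z z.1 z.2 ^ (k + 1) - trp (bP T 0) R (z.1 - z.2) ^ (k + 1)) (μ₁.prod μ₂) := by
    refine ⟨(((Xk_meas T Z).pow_const _).sub ((trp_meas _ _).pow_const _)).aestronglyMeasurable, ?_⟩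
    exact h3.trans_lt ENNReal.ofReal_lt_top
  have i1 : Integrable (fun z : ℝ × ℝ => Xk T Z z.1 z.2 ^ (k + 1)) (μ₁.prod μ₂) := by
    have := i12.add i2
    refine this.congr (Filter.Eventually.of_forall fun z => ?_)
    simp
  rw [← integral_sub i1 i2]
  have h4 := enorm_integral_le_lintegral_enorm (μ := μ₁.prod μ₂)
    (fun z : ℝ × ℝ => Xk T Z z.1 z.2 ^ (k + 1) - trp (bP T 0) R (z.1 - z.2) ^ (k + 1))
  have h5 := h4.trans h3
  rw [← ofReal_norm] at h5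
  exact (ENNReal.ofReal_le_ofReal_iff hη).1 h5

end Pool.Agent.H471.EP
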