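import Pool.Agent.H471.EP.Mv
import Pool.Agent.H471.GS.Ms
import Pool.Agent.H471.QP.Ker

set_option autoImplicit false

/-!
The kernel of the mean square over one shift.
-/

namespace Pool.Agent.H471.EP

open Complex MeasureTheory Set
open Pool.Agent.H471.QP (ex ex_add norm_ex ex_cont conj_ex ex_deriv C1 C1.mul ibp nrm_inv)
open Pool.Agent.Y969.GP (ht lam FR PS)
open Pool.Agent.H471.GS (mem_FR' ht_pos sh ee sh_meas sh_cont)

lemma ee_ex (V : ℝ) (p : ℕ × ℕ) : ee V p = ex (V * lam p) := rfl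

/-- the constant -/
noncomputable def k0 : ℝ := 2 * Real.eulerMascheroniConstant - Real.log (2 * Real.pi)

lemma k0_bd : |k0| ≤ 2 := by
  unfold k0
  have hpi3 := Real.pi_gt_three
  have hpi4 := Real.pi_le_four
  have hpi := Real.pi_pos
  have a5 : 0 ≤ Real.log Real.pi := Real.log_nonneg (by linarith)
  have a6 : Real.log Real.pi ≤ 2 * Real.log 2 := by
    have : Real.log Real.pi ≤ Real.log (2 ^ 2) := Real.log_le_log hpi (by linarith)
    rwa [Real.log_pow] at this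
  have a7 := Real.log_two_lt_d9
  have a8 := Real.log_two_gt_d9
  have a9 := Real.eulerMascheroniConstant_lt_two_thirds
  have a10 := Real.one_half_lt_eulerMascheroniConstant
  rw [Real.log_mul (by norm_num) hpi.ne', abs_le]
  constructor <;> linarith

/-- the amplitudes -/
noncomputable def cc (p : ℕ × ℕ) (x : ℝ) : ℝ := (√(ht p))⁻¹ * (Real.log x + k0 - Real.log (ht p))

lemma sh_eq (Z : ℕ) {x : ℝ} (hx : 0 < x) : sh Z x = ∑ p ∈ FR Z, (cc p x : ℂ) * ex (x * lam p) := by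
  unfold sh
  refine Finset.sum_congr rfl fun p hp => ?_
  rw [ee_ex]
  congr 2
  rw [mem_FR'] at hp
  have hp0 := ht_pos hp.1 hp.2.1
  have hpi := Real.pi_pos
  unfold cc k0
  rw [Real.log_div hx.ne' (by positivity), Real.log_mul (by positivity) hp0.ne']
  ring

/-- the small quantity -/
noncomputable def rho (T : ℝ) : ℝ := (Real.log (Real.log T) + 3) / Real.log T

lemma rho_tendsto : Filter.Tendsto rho Filter.atTop (nhds 0) := by
  have h1 : Filter.Tendsto (fun x : ℝ => (Real.log x + 3) / x) Filter.atTop (nhds 0) := by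
    have a1 : Filter.Tendsto (fun x : ℝ => Real.log x / x) Filter.atTop (nhds 0) :=
      Real.isLittleO_log_id_atTop.tendsto_div_nhds_zero
    have a2 : Filter.Tendsto (fun x : ℝ => 3 / x) Filter.atTop (nhds 0) := Filter.Tendsto.const_div_atTop Filter.tendsto_id 3
    have := a1.add a2
    rw [add_zero] at this
    refine this.congr fun x => ?_
    rw [add_div]
  exact h1.comp Real.tendsto_log_atTop

/-- a large height -/
def Big (T : ℝ) : Prop := 16 ≤ Real.log T ∧ rho T ≤ 1 / 4 ∧ 0 < T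

lemma big_ev : ∀ᶠ T in Filter.atTop, Big T := by
  filter_upwards [Real.tendsto_log_atTop.eventually_ge_atTop 16,
    rho_tendsto.eventually_le_const (show (0 : ℝ) < 1 / 4 by norm_num), Filter.eventually_gt_atTop 0] with T h1 h2 h3
  exact ⟨h1, h2, h3⟩

lemma Big.r {T : ℝ} (h : Big T) : 1 / Real.log T ≤ rho T ∧ 0 < rho T ∧ rho T * Real.log T = Real.log (Real.log T) + 3 := by
  obtain ⟨h1, h2, h3⟩ := h
  have hl : 0 < Real.log T := by linarith
  have hll : 0 ≤ Real.log (Real.log T) := Real.log_nonneg (by linarith)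
  unfold rho
  refine ⟨?_, by positivity, by field_simp⟩
  gcongr
  linarith

lemma lx {T x : ℝ} (h : Big T) (h1 : T / Real.log T ≤ x) (h2 : x ≤ 2 * T) :
    |Real.log x + k0 - Real.log T| ≤ rho T * Real.log T := by
  obtain ⟨-, -, hr⟩ := h.r
  obtain ⟨g1, g2, g3⟩ := h
  have hl : 0 < Real.log T := by linarith
  have hll : 0 ≤ Real.log (Real.log T) := Real.log_nonneg (by linarith)
  have hT0 : 0 < T / Real.log T := by positivity
  have hx0 : 0 < x := hT0.trans_le h1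
  have a1 := Real.log_le_log hT0 h1
  rw [Real.log_div g3.ne' hl.ne'] at a1
  have a2 := Real.log_le_log hx0 h2
  rw [Real.log_mul (by norm_num) g3.ne'] at a2
  have a7 := Real.log_two_lt_d9
  have a8 := abs_le.1 k0_bd
  rw [hr, abs_le]
  constructor <;> linarith [a8.1, a8.2]

/-- the range of the variables -/
lemma rg {T t α : ℝ} (ht0 : t ∈ Icc (0 : ℝ) T) (hα : α ∈ Icc (T / Real.log T) T) : T / Real.log T ≤ t + α ∧ t + α ≤ 2 * T := by
  constructor
  · linarith [ht0.1, hα.1]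
  · linarith [ht0.2, hα.2]

lemma Big.a {T : ℝ} (h : Big T) : 0 < T / Real.log T ∧ T / Real.log T ≤ T ∧ T / Real.log T ≤ T * rho T := by
  obtain ⟨r1, r2, r3⟩ := h.r
  obtain ⟨g1, g2, g3⟩ := h
  have hl : 0 < Real.log T := by linarith
  refine ⟨by positivity, div_le_self g3.le (by linarith), ?_⟩
  calc T / Real.log T = T * (1 / Real.log T) := by ring
    _ ≤ _ := by gcongr

lemma log_ht {Z : ℕ} {T : ℝ} (h : Big T) (hZ : (Z : ℝ) ≤ T) {p : ℕ × ℕ} (hp : p ∈ FR Z) :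
    0 ≤ Real.log (ht p) ∧ Real.log (ht p) ≤ Real.log T ∧ (√(ht p))⁻¹ ≤ 1 ∧ 0 < (√(ht p))⁻¹ ∧ 1 ≤ ht p := by
  rw [mem_FR'] at hp
  have h1 := ht_ge hp.1 hp.2.1
  have h2 : ht p ≤ Z := by
    unfold ht
    exact_mod_cast hp.2.2.1
  refine ⟨Real.log_nonneg h1, Real.log_le_log (by linarith) (h2.trans hZ), ?_, by positivity, h1⟩
  exact inv_le_one_of_one_le₀ (Real.one_le_sqrt.2 h1)

lemma cc_C1 {Z : ℕ} {T : ℝ} (h : Big T) (hZ : (Z : ℝ) ≤ T) {p : ℕ × ℕ} (hp : p ∈ FR Z) {t : ℝ} (ht0 : t ∈ Icc 0 T) :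
    C1 (T / Real.log T) T (fun α => cc p (t + α)) (fun α => (√(ht p))⁻¹ * (t + α)⁻¹) (3 * Real.log T)
      (Real.log T / T) := by
  intro α hα
  obtain ⟨l1, l2, l3, l4, l5⟩ := log_ht h hZ hp
  obtain ⟨r1, r2⟩ := rg ht0 hα
  obtain ⟨a1, a2, a3⟩ := h.a
  have hx : 0 < t + α := by linarith
  have hlx := abs_le.1 (lx h r1 r2)
  obtain ⟨g1, g2, g3⟩ := h
  have hl : 0 < Real.log T := by linarith
  have hrl : rho T * Real.log T ≤ 1 / 4 * Real.log T := by gcongr
  refine ⟨?_, ?_, ?_, ?_⟩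
  · unfold cc
    have d1 : HasDerivAt (fun α : ℝ => t + α) 1 α := (hasDerivAt_id α).const_add t
    have d2 := (((d1.log hx.ne').add_const k0).sub_const (Real.log (ht p))).const_mul (√(ht p))⁻¹
    rw [one_div] at d2
    exact d2
  · apply ContinuousAt.mul continuousAt_const
    exact ContinuousAt.inv₀ (by fun_prop) hx.ne'
  · unfold cc
    rw [abs_mul, abs_of_nonneg l4.le]
    have : |Real.log (t + α) + k0 - Real.log (ht p)| ≤ 3 * Real.log T := by
      rw [abs_le]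
      constructor <;> linarith [hlx.1, hlx.2]
    calc _ ≤ 1 * (3 * Real.log T) := by gcongr
      _ = _ := one_mul _
  · rw [abs_mul, abs_of_nonneg l4.le, abs_of_nonneg (by positivity)]
    have : (t + α)⁻¹ ≤ Real.log T / T := by
      rw [← inv_div]
      exact inv_anti₀ a1 r1
    calc _ ≤ 1 * (Real.log T / T) := by gcongr
      _ = _ := one_mul _

lemma osc {α β : ℝ} (hαβ : α ≤ β) {h h1 : ℝ → ℝ} {B0 B1 : ℝ} (H : C1 α β h h1 B0 B1) {X : ℝ} (hX : X ≠ 0) :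
    ‖∫ a in α..β, (h a : ℂ) * ex (a * X)‖ ≤ |X|⁻¹ * (2 * B0 + (β - α) * B1) := by
  rw [ibp hαβ H hX, norm_mul, nrm_inv]
  gcongr
  have e1 : ‖(h β : ℂ) * ex (β * X)‖ ≤ B0 := by
    rw [norm_mul, norm_ex, mul_one, Complex.norm_real]
    exact (H β ⟨hαβ, le_rfl⟩).2.2.1
  have e2 : ‖(h α : ℂ) * ex (α * X)‖ ≤ B0 := by
    rw [norm_mul, norm_ex, mul_one, Complex.norm_real]
    exact (H α ⟨le_rfl, hαβ⟩).2.2.1
  have e3 : ‖∫ a in α..β, (h1 a : ℂ) * ex (a * X)‖ ≤ (β - α) * B1 :=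
    Pool.Agent.H471.QP.triv hαβ (fun a ha => (H a ha).2.2.2) X
  calc _ ≤ ‖(h β : ℂ) * ex (β * X)‖ + ‖(h α : ℂ) * ex (α * X)‖ + ‖∫ a in α..β, (h1 a : ℂ) * ex (a * X)‖ :=
        (norm_sub_le _ _).trans (add_le_add (norm_sub_le _ _) le_rfl)
    _ ≤ B0 + B0 + (β - α) * B1 := by gcongr
    _ = _ := by ring

/-- the polynomial -/
noncomputable def trp (b : ℕ × ℕ → ℂ) (Z : ℕ) (u : ℝ) : ℂ := ∑ p ∈ FR Z, b p * ex (u * lam p)

/-- the kernel -/
noncomputable def Xk (T : ℝ) (Z : ℕ) (t t' : ℝ) : ℂ :=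
  (∫ α in (T / Real.log T)..T, sh Z (t + α) * (starRingEnd ℂ) (sh Z (t' + α))) / (T * Real.log T ^ 2)

/-- the coefficients -/
noncomputable def bP (T : ℝ) (i : ℕ) (p : ℕ × ℕ) : ℂ := (((ht p)⁻¹ * (Real.log (ht p) / Real.log T) ^ i : ℝ) : ℂ)

lemma dist_lam {Z : ℕ} {p q : ℕ × ℕ} (hp : p ∈ FR Z) (hq : q ∈ FR Z) (hpq : p ≠ q) :
    lam p - lam q ≠ 0 ∧ |lam p - lam q|⁻¹ ≤ 2 * Z := by
  have h1 := Pool.Agent.Y379.GP.sp1 Z p q hp hq hpq
  have hZ : 1 ≤ Z := by
    rw [mem_FR'] at hp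
    exact (Nat.mul_pos hp.1 hp.2.1).trans_le hp.2.2.1
  have hZ0 : (0 : ℝ) < Z := by exact_mod_cast hZ
  have h2 : (0 : ℝ) < 1 / (2 * (Z : ℝ)) := by positivity
  refine ⟨abs_pos.1 (h2.trans_le h1), ?_⟩
  have := inv_anti₀ h2 h1
  rwa [one_div, inv_inv] at this

/-- the off-diagonal integrals -/
lemma off {Z : ℕ} {T : ℝ} (h : Big T) (hZ : (Z : ℝ) ≤ T) {p q : ℕ × ℕ} (hp : p ∈ FR Z) (hq : q ∈ FR Z) (hpq : p ≠ q)
    {t t' : ℝ} (ht0 : t ∈ Icc 0 T) (ht1 : t' ∈ Icc 0 T) :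
    ‖∫ α in (T / Real.log T)..T, ((cc p (t + α) * cc q (t' + α) : ℝ) : ℂ) * ex (α * (lam p - lam q))‖ ≤
      48 * Z * Real.log T ^ 2 := by
  obtain ⟨d1, d2⟩ := dist_lam hp hq hpq
  obtain ⟨a1, a2, a3⟩ := h.a
  have H := (cc_C1 h hZ hp ht0).mul (cc_C1 h hZ hq ht1)
  have h1 := osc a2 H d1
  obtain ⟨g1, g2, g3⟩ := h
  have hl : 0 < Real.log T := by linarith
  refine h1.trans ?_
  calc |lam p - lam q|⁻¹ * (2 * (3 * Real.log T * (3 * Real.log T)) + (T - T / Real.log T) *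
        (Real.log T / T * (3 * Real.log T) + 3 * Real.log T * (Real.log T / T))) ≤
        2 * Z * (2 * (3 * Real.log T * (3 * Real.log T)) + T *
        (Real.log T / T * (3 * Real.log T) + 3 * Real.log T * (Real.log T / T))) := by
        gcongr
        linarith
    _ = _ := by field_simp; ring

lemma off1 {Z : ℕ} {T : ℝ} (h : Big T) (hZ : (Z : ℝ) ≤ T) {p q : ℕ × ℕ} (hp : p ∈ FR Z) (hq : q ∈ FR Z) (hpq : p ≠ q)
    {t : ℝ} (ht0 : t ∈ Icc 0 T) :
    ‖∫ α in (T / Real.log T)..T, ((cc p (t + α) : ℝ) : ℂ) * ex (α * (lam p - lam q))‖ ≤ 14 * Z * Real.log T := by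
  obtain ⟨d1, d2⟩ := dist_lam hp hq hpq
  obtain ⟨a1, a2, a3⟩ := h.a
  have H := cc_C1 h hZ hp ht0
  have h1 := osc a2 H d1
  obtain ⟨g1, g2, g3⟩ := h
  have hl : 0 < Real.log T := by linarith
  refine h1.trans ?_
  calc |lam p - lam q|⁻¹ * (2 * (3 * Real.log T) + (T - T / Real.log T) * (Real.log T / T)) ≤
        2 * Z * (2 * (3 * Real.log T) + T * (Real.log T / T)) := by
        gcongr
        linarith
    _ = _ := by field_simp; ring

lemma cc_int {Z : ℕ} {T : ℝ} (h : Big T) (hZ : (Z : ℝ) ≤ T) {p : ℕ × ℕ} (hp : p ∈ FR Z) {t : ℝ} (ht0 : t ∈ Icc 0 T) :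
    ContinuousOn (fun α => cc p (t + α)) (Icc (T / Real.log T) T) := fun α hα =>
  ((cc_C1 h hZ hp ht0) α hα).1.continuousAt.continuousWithinAt

/-- expansion -/
lemma expand {Z : ℕ} {T : ℝ} (h : Big T) (hZ : (Z : ℝ) ≤ T) {t t' : ℝ} (ht0 : t ∈ Icc 0 T) (ht1 : t' ∈ Icc 0 T) :
    ∫ α in (T / Real.log T)..T, sh Z (t + α) * (starRingEnd ℂ) (sh Z (t' + α)) =
      ∑ p ∈ FR Z, ∑ q ∈ FR Z, (ex (t * lam p) * ex (-(t' * lam q))) *
        ∫ α in (T / Real.log T)..T, ((cc p (t + α) * cc q (t' + α) : ℝ) : ℂ) * ex (α * (lam p - lam q)) := by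
  obtain ⟨a1, a2, a3⟩ := h.a
  have hc : ∀ p ∈ FR Z, ∀ q ∈ FR Z, ContinuousOn (fun α : ℝ => (ex (t * lam p) * ex (-(t' * lam q))) *
      (((cc p (t + α) * cc q (t' + α) : ℝ) : ℂ) * ex (α * (lam p - lam q)))) (uIcc (T / Real.log T) T) := by
    intro p hp q hq
    rw [uIcc_of_le a2]
    apply ContinuousOn.mul continuousOn_const
    apply ContinuousOn.mul
    · exact Complex.continuous_ofReal.comp_continuousOn ((cc_int h hZ hp ht0).mul (cc_int h hZ hq ht1))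
    · exact (ex_cont.comp (by fun_prop)).continuousOn
  have e1 : ∀ α ∈ uIcc (T / Real.log T) T, sh Z (t + α) * (starRingEnd ℂ) (sh Z (t' + α)) =
      ∑ p ∈ FR Z, ∑ q ∈ FR Z, (ex (t * lam p) * ex (-(t' * lam q))) *
        (((cc p (t + α) * cc q (t' + α) : ℝ) : ℂ) * ex (α * (lam p - lam q))) := by
    intro α hα
    rw [uIcc_of_le a2] at hα
    rw [sh_eq Z (by linarith [ht0.1, hα.1] : 0 < t + α), sh_eq Z (by linarith [ht1.1, hα.1] : 0 < t' + α), map_sum,
      Finset.sum_mul_sum]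
    refine Finset.sum_congr rfl fun p _ => Finset.sum_congr rfl fun q _ => ?_
    rw [map_mul, Complex.conj_ofReal, conj_ex]
    have : ex ((t + α) * lam p) * ex (-((t' + α) * lam q)) =
        ex (t * lam p) * ex (-(t' * lam q)) * ex (α * (lam p - lam q)) := by
      rw [← ex_add, ← ex_add, ← ex_add]
      congr 1
      ring
    push_cast
    calc _ = (cc p (t + α) : ℂ) * (cc q (t' + α) : ℂ) * (ex ((t + α) * lam p) * ex (-((t' + α) * lam q))) := by ring
      _ = _ := by rw [this]; ring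
  rw [intervalIntegral.integral_congr e1, intervalIntegral.integral_finsetSum fun p hp => ?_]
  · refine Finset.sum_congr rfl fun p hp => ?_
    rw [intervalIntegral.integral_finsetSum fun q hq => (hc p hp q hq).intervalIntegrable]
    refine Finset.sum_congr rfl fun q _ => ?_
    rw [intervalIntegral.integral_const_mul]
  · exact (continuousOn_finsetSum _ fun q hq => hc p hp q hq).intervalIntegrable

end Pool.Agent.H471.EP
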