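import Pool.Agent.H471.EP.Kr

set_option autoImplicit false

/-!
The kernel of the mean square over one shift, and the first Fourier coefficient.
-/

namespace Pool.Agent.H471.EP

open Complex MeasureTheory Set
open Pool.Agent.H471.QP (ex ex_add norm_ex ex_cont conj_ex ex_deriv C1 C1.mul ibp nrm_inv)
open Pool.Agent.Y969.GP (ht lam FR PS)
open Pool.Agent.H471.GS (mem_FR' ht_pos sh ee sh_meas sh_cont)

/-- the logarithm -/
noncomputable def lmb (x : ℝ) : ℝ := Real.log x + k0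

lemma lmb_cont {T : ℝ} (h : Big T) {t : ℝ} (ht0 : t ∈ Icc 0 T) :
    ContinuousOn (fun α => lmb (t + α)) (Icc (T / Real.log T) T) := by
  obtain ⟨a1, a2, a3⟩ := h.a
  intro α hα
  have hx : 0 < t + α := by linarith [ht0.1, hα.1]
  apply ContinuousAt.continuousWithinAt
  unfold lmb
  exact (ContinuousAt.log (by fun_prop) hx.ne').add continuousAt_const

lemma lmb_bd {T : ℝ} (h : Big T) {t α : ℝ} (ht0 : t ∈ Icc 0 T) (hα : α ∈ Icc (T / Real.log T) T) :
    |lmb (t + α) - Real.log T| ≤ rho T * Real.log T ∧ |lmb (t + α)| ≤ 5 / 4 * Real.log T := by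
  obtain ⟨r1, r2⟩ := rg ht0 hα
  have h1 := lx h r1 r2
  obtain ⟨g1, g2, g3⟩ := h
  have hl : 0 < Real.log T := by linarith
  have h2 : rho T * Real.log T ≤ 1 / 4 * Real.log T := by gcongr
  refine ⟨h1, ?_⟩
  have h3 := abs_le.1 h1
  rw [abs_le]
  unfold lmb
  constructor <;> linarith [h3.1, h3.2]

lemma bd_int {a b : ℝ} (hab : a ≤ b) {f : ℝ → ℝ} {C : ℝ} (h : ∀ x ∈ Icc a b, |f x| ≤ C) :
    |∫ x in a..b, f x| ≤ (b - a) * C := by
  have := intervalIntegral.norm_integral_le_of_norm_le_const (a := a) (b := b) (C := C) (f := f) (by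
    intro x hx
    rw [uIoc_of_le hab] at hx
    exact h x (Ioc_subset_Icc_self hx))
  rw [abs_of_nonneg (by linarith : 0 ≤ b - a), Real.norm_eq_abs] at this
  linarith

lemma G_bd {T : ℝ} (h : Big T) {t t' : ℝ} (ht0 : t ∈ Icc 0 T) (ht1 : t' ∈ Icc 0 T) :
    |(∫ α in (T / Real.log T)..T, lmb (t + α) * lmb (t' + α)) - T * Real.log T ^ 2| ≤ 4 * rho T * (T * Real.log T ^ 2) := by
  obtain ⟨a1, a2, a3⟩ := h.a
  obtain ⟨r1, r2, r3⟩ := h.r
  have hg := h
  obtain ⟨g1, g2, g3⟩ := h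
  have hl : 0 < Real.log T := by linarith
  have hi : IntervalIntegrable (fun α => lmb (t + α) * lmb (t' + α)) volume (T / Real.log T) T := by
    apply ContinuousOn.intervalIntegrable
    rw [uIcc_of_le a2]
    exact (lmb_cont hg ht0).mul (lmb_cont hg ht1)
  have hi2 : IntervalIntegrable (fun _ : ℝ => Real.log T ^ 2) volume (T / Real.log T) T := by simp
  have e1 : (∫ α in (T / Real.log T)..T, lmb (t + α) * lmb (t' + α)) - T * Real.log T ^ 2 =
      (∫ α in (T / Real.log T)..T, (lmb (t + α) * lmb (t' + α) - Real.log T ^ 2)) - T / Real.log T * Real.log T ^ 2 := by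
    rw [intervalIntegral.integral_sub hi hi2, intervalIntegral.integral_const, smul_eq_mul]
    ring
  rw [e1]
  have b1 : |∫ α in (T / Real.log T)..T, (lmb (t + α) * lmb (t' + α) - Real.log T ^ 2)| ≤
      (T - T / Real.log T) * (9 / 4 * rho T * Real.log T ^ 2) := by
    apply bd_int a2
    intro α hα
    obtain ⟨u1, u2⟩ := lmb_bd hg ht0 hα
    obtain ⟨v1, v2⟩ := lmb_bd hg ht1 hα
    have e : lmb (t + α) * lmb (t' + α) - Real.log T ^ 2 = (lmb (t + α) - Real.log T) * lmb (t' + α) +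
        Real.log T * (lmb (t' + α) - Real.log T) := by ring
    rw [e]
    refine (abs_add_le _ _).trans ?_
    rw [abs_mul, abs_mul, abs_of_pos hl]
    calc _ ≤ rho T * Real.log T * (5 / 4 * Real.log T) + Real.log T * (rho T * Real.log T) := by gcongr
      _ = _ := by ring
  have b2 : |T / Real.log T * Real.log T ^ 2| ≤ T * rho T * Real.log T ^ 2 := by
    rw [abs_of_nonneg (by positivity)]
    gcongr
  have b3 : (T - T / Real.log T) * (9 / 4 * rho T * Real.log T ^ 2) ≤ T * (9 / 4 * rho T * Real.log T ^ 2) := by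
    gcongr
    linarith
  have h5 : 0 ≤ T * rho T * Real.log T ^ 2 := by positivity
  refine (abs_sub _ _).trans ?_
  linarith

lemma H_bd {T : ℝ} (h : Big T) {t t' : ℝ} (ht0 : t ∈ Icc 0 T) (ht1 : t' ∈ Icc 0 T) :
    |∫ α in (T / Real.log T)..T, (lmb (t + α) + lmb (t' + α))| ≤ 4 * (T * Real.log T) := by
  obtain ⟨a1, a2, a3⟩ := h.a
  have hg := h
  obtain ⟨g1, g2, g3⟩ := h
  have hl : 0 < Real.log T := by linarith
  have b1 : |∫ α in (T / Real.log T)..T, (lmb (t + α) + lmb (t' + α))| ≤ (T - T / Real.log T) * (4 * Real.log T) := by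
    apply bd_int a2
    intro α hα
    obtain ⟨u1, u2⟩ := lmb_bd hg ht0 hα
    obtain ⟨v1, v2⟩ := lmb_bd hg ht1 hα
    refine (abs_add_le _ _).trans ?_
    linarith
  refine b1.trans ?_
  calc _ ≤ T * (4 * Real.log T) := by gcongr; linarith
    _ = _ := by ring

/-- the diagonal integral -/
lemma dg {Z : ℕ} {T : ℝ} (h : Big T) {p : ℕ × ℕ} (hp : p ∈ FR Z) {t t' : ℝ} (ht0 : t ∈ Icc 0 T) (ht1 : t' ∈ Icc 0 T) :
    ∫ α in (T / Real.log T)..T, cc p (t + α) * cc p (t' + α) = (ht p)⁻¹ *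
      ((∫ α in (T / Real.log T)..T, lmb (t + α) * lmb (t' + α)) -
        Real.log (ht p) * (∫ α in (T / Real.log T)..T, (lmb (t + α) + lmb (t' + α))) +
        Real.log (ht p) ^ 2 * (T - T / Real.log T)) := by
  obtain ⟨a1, a2, a3⟩ := h.a
  have hp0 : 0 < ht p := by
    rw [mem_FR'] at hp
    exact ht_pos hp.1 hp.2.1
  have i1 : IntervalIntegrable (fun α => lmb (t + α) * lmb (t' + α)) volume (T / Real.log T) T := by
    apply ContinuousOn.intervalIntegrable
    rw [uIcc_of_le a2]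
    exact (lmb_cont h ht0).mul (lmb_cont h ht1)
  have i2 : IntervalIntegrable (fun α => Real.log (ht p) * (lmb (t + α) + lmb (t' + α))) volume (T / Real.log T) T := by
    apply ContinuousOn.intervalIntegrable
    rw [uIcc_of_le a2]
    exact continuousOn_const.mul ((lmb_cont h ht0).add (lmb_cont h ht1))
  have i3 : IntervalIntegrable (fun _ : ℝ => Real.log (ht p) ^ 2) volume (T / Real.log T) T := by simp
  have i4 := i1.sub i2
  have e1 : ∀ α : ℝ, cc p (t + α) * cc p (t' + α) = (ht p)⁻¹ *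
      ((lmb (t + α) * lmb (t' + α) - Real.log (ht p) * (lmb (t + α) + lmb (t' + α))) + Real.log (ht p) ^ 2) := by
    intro α
    have e2 : (√(ht p))⁻¹ * (√(ht p))⁻¹ = (ht p)⁻¹ := by
      rw [← mul_inv, Real.mul_self_sqrt hp0.le]
    unfold cc lmb
    rw [← e2]
    ring
  simp_rw [e1]
  rw [intervalIntegral.integral_const_mul, intervalIntegral.integral_add i4 i3, intervalIntegral.integral_sub i1 i2,
    intervalIntegral.integral_const_mul, intervalIntegral.integral_const, smul_eq_mul]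
  ring

lemma card_FR2 {Z : ℕ} : ((FR Z).card : ℝ) ≤ (Z : ℝ) ^ 2 := by
  have := Pool.Agent.H471.GS.card_FR' Z
  rwa [← pow_two] at this

/-- the kernel -/
lemma K0 {Z : ℕ} {T : ℝ} (h : Big T) (hZ : (Z : ℝ) ≤ T) (hZ5 : 48 * (Z : ℝ) ^ 5 ≤ rho T * T) {t t' : ℝ}
    (ht0 : t ∈ Icc 0 T) (ht1 : t' ∈ Icc 0 T) :
    ‖Xk T Z t t' - trp (bP T 0) Z (t - t')‖ ≤ 4 * rho T * ‖trp (bP T 0) Z (t - t')‖ +
      4 * ‖trp (bP T 1) Z (t - t')‖ + ‖trp (bP T 2) Z (t - t')‖ + rho T := by
  obtain ⟨a1, a2, a3⟩ := h.a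
  have hG := G_bd h ht0 ht1
  have hH := H_bd h ht0 ht1
  have hD : ∀ p ∈ FR Z, _ := fun p hp => dg h hp ht0 ht1
  have hO : ∀ p ∈ FR Z, ∀ q ∈ (FR Z).erase p, _ := fun p hp q hq =>
    off h hZ hp (Finset.mem_of_mem_erase hq) (Finset.ne_of_mem_erase hq).symm ht0 ht1
  have hE := expand h hZ ht0 ht1
  obtain ⟨g1, g2, g3⟩ := h
  have hl : 0 < Real.log T := by linarith
  obtain ⟨G, hG'⟩ : ∃ G : ℝ, G = ∫ α in (T / Real.log T)..T, lmb (t + α) * lmb (t' + α) := ⟨_, rfl⟩
  obtain ⟨H, hH'⟩ : ∃ H : ℝ, H = ∫ α in (T / Real.log T)..T, (lmb (t + α) + lmb (t' + α)) := ⟨_, rfl⟩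
  rw [← hG'] at hG
  rw [← hH'] at hH
  rw [← hG', ← hH'] at hD
  obtain ⟨W, hW⟩ : ∃ W : ℕ × ℕ → ℕ × ℕ → ℂ, W = fun p q => (ex (t * lam p) * ex (-(t' * lam q))) *
        ∫ α in (T / Real.log T)..T, ((cc p (t + α) * cc q (t' + α) : ℝ) : ℂ) * ex (α * (lam p - lam q)) := ⟨_, rfl⟩
  have hE' : ∫ α in (T / Real.log T)..T, sh Z (t + α) * (starRingEnd ℂ) (sh Z (t' + α)) =
      ∑ p ∈ FR Z, W p p + ∑ p ∈ FR Z, ∑ q ∈ (FR Z).erase p, W p q := by
    rw [hE, hW, ← Finset.sum_add_distrib]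
    refine Finset.sum_congr rfl fun p hp => ?_
    rw [Finset.add_sum_erase (FR Z) (fun q => (ex (t * lam p) * ex (-(t' * lam q))) *
        ∫ α in (T / Real.log T)..T, ((cc p (t + α) * cc q (t' + α) : ℝ) : ℂ) * ex (α * (lam p - lam q))) hp]
  -- the diagonal terms
  have hTl : (T : ℂ) * (Real.log T : ℂ) ^ 2 ≠ 0 := by
    have : (T * Real.log T ^ 2 : ℝ) ≠ 0 := by positivity
    exact_mod_cast this
  have hWd : ∀ p ∈ FR Z, W p p = (T * Real.log T ^ 2 : ℂ) * (((G / (T * Real.log T ^ 2) : ℝ) : ℂ) * (bP T 0 p * ex ((t - t') * lam p)) -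
      ((H / (T * Real.log T) : ℝ) : ℂ) * (bP T 1 p * ex ((t - t') * lam p)) +
      (((T - T / Real.log T) / T : ℝ) : ℂ) * (bP T 2 p * ex ((t - t') * lam p))) := by
    intro p hp
    have e1 : ∫ α in (T / Real.log T)..T, ((cc p (t + α) * cc p (t' + α) : ℝ) : ℂ) * ex (α * (lam p - lam p)) =
        ((∫ α in (T / Real.log T)..T, cc p (t + α) * cc p (t' + α) : ℝ) : ℂ) := by
      rw [← intervalIntegral.integral_ofReal]
      congr 1
      funext α
      rw [sub_self, mul_zero]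
      unfold ex
      simp
    have e2 : ex (t * lam p) * ex (-(t' * lam p)) = ex ((t - t') * lam p) := by
      rw [← ex_add]
      congr 1
      ring
    have hp0 : 0 < ht p := by
      rw [mem_FR'] at hp
      exact ht_pos hp.1 hp.2.1
    have e3 : (ht p)⁻¹ * (G - Real.log (ht p) * H + Real.log (ht p) ^ 2 * (T - T / Real.log T)) =
        (T * Real.log T ^ 2) * (G / (T * Real.log T ^ 2) * ((ht p)⁻¹ * (Real.log (ht p) / Real.log T) ^ 0) -
          H / (T * Real.log T) * ((ht p)⁻¹ * (Real.log (ht p) / Real.log T) ^ 1) +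
          (T - T / Real.log T) / T * ((ht p)⁻¹ * (Real.log (ht p) / Real.log T) ^ 2)) := by
      field_simp
    rw [hW]
    simp only
    rw [e1, e2, hD p hp, e3]
    unfold bP
    push_cast
    ring
  obtain ⟨F, hF⟩ : ∃ F : ℂ, F = ∑ p ∈ FR Z, ∑ q ∈ (FR Z).erase p, W p q := ⟨_, rfl⟩
  have hFb : ‖F‖ ≤ 48 * (Z : ℝ) ^ 5 * Real.log T ^ 2 := by
    rw [hF]
    calc _ ≤ ∑ p ∈ FR Z, ∑ q ∈ (FR Z).erase p, 48 * Z * Real.log T ^ 2 := by
          refine (norm_sum_le _ _).trans (Finset.sum_le_sum fun p hp => (norm_sum_le _ _).trans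
            (Finset.sum_le_sum fun q hq => ?_))
          rw [hW]
          simp only
          rw [norm_mul, norm_mul, norm_ex, norm_ex, one_mul, one_mul]
          exact hO p hp q hq
      _ ≤ ∑ p ∈ FR Z, (Z : ℝ) ^ 2 * (48 * Z * Real.log T ^ 2) := by
          refine Finset.sum_le_sum fun p _ => ?_
          rw [Finset.sum_const, nsmul_eq_mul]
          refine mul_le_mul_of_nonneg_right ?_ (by positivity)
          refine le_trans ?_ (card_FR2 (Z := Z))
          exact_mod_cast Finset.card_le_card (Finset.erase_subset _ _)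
      _ = ((FR Z).card : ℝ) * ((Z : ℝ) ^ 2 * (48 * Z * Real.log T ^ 2)) := by
          rw [Finset.sum_const, nsmul_eq_mul]
      _ ≤ (Z : ℝ) ^ 2 * ((Z : ℝ) ^ 2 * (48 * Z * Real.log T ^ 2)) :=
          mul_le_mul_of_nonneg_right card_FR2 (by positivity)
      _ = _ := by ring
  obtain ⟨A, hA⟩ : ∃ A : ℝ, A = G / (T * Real.log T ^ 2) := ⟨_, rfl⟩
  obtain ⟨B, hB⟩ : ∃ B : ℝ, B = H / (T * Real.log T) := ⟨_, rfl⟩
  obtain ⟨D, hD'⟩ : ∃ D : ℝ, D = (T - T / Real.log T) / T := ⟨_, rfl⟩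
  have hX : Xk T Z t t' = (A : ℂ) * trp (bP T 0) Z (t - t') - (B : ℂ) * trp (bP T 1) Z (t - t') +
      (D : ℂ) * trp (bP T 2) Z (t - t') + F / (T * Real.log T ^ 2) := by
    unfold Xk
    rw [hE', ← hF, Finset.sum_congr rfl hWd, ← Finset.mul_sum, add_div, mul_div_cancel_left₀ _ hTl,
      Finset.sum_add_distrib, Finset.sum_sub_distrib, ← Finset.mul_sum, ← Finset.mul_sum, ← Finset.mul_sum, hA, hB, hD']
    rfl
  have hAb : |A - 1| ≤ 4 * rho T := by
    have hpos : 0 < T * Real.log T ^ 2 := by positivity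
    have e : A - 1 = (G - T * Real.log T ^ 2) / (T * Real.log T ^ 2) := by
      rw [hA]; field_simp
    rw [e, abs_div, abs_of_pos hpos, div_le_iff₀ hpos]
    exact hG
  have hBb : |B| ≤ 4 := by
    have hpos : 0 < T * Real.log T := by positivity
    rw [hB, abs_div, abs_of_pos hpos, div_le_iff₀ hpos]
    exact hH
  have hDb : |D| ≤ 1 := by
    rw [hD', abs_of_nonneg (div_nonneg (by linarith) g3.le), div_le_one g3]
    linarith
  have hFb' : ‖F / (T * Real.log T ^ 2)‖ ≤ rho T := by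
    have e : ‖(T * Real.log T ^ 2 : ℂ)‖ = T * Real.log T ^ 2 := by
      have : (T * Real.log T ^ 2 : ℂ) = ((T * Real.log T ^ 2 : ℝ) : ℂ) := by push_cast; rfl
      rw [this, Complex.norm_real, Real.norm_of_nonneg (by positivity)]
    rw [norm_div, e, div_le_iff₀ (by positivity)]
    calc _ ≤ 48 * (Z : ℝ) ^ 5 * Real.log T ^ 2 := hFb
      _ ≤ rho T * T * Real.log T ^ 2 := by gcongr
      _ = _ := by ring
  rw [hX]
  have e : (A : ℂ) * trp (bP T 0) Z (t - t') - (B : ℂ) * trp (bP T 1) Z (t - t') +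
      (D : ℂ) * trp (bP T 2) Z (t - t') + F / (T * Real.log T ^ 2) - trp (bP T 0) Z (t - t') =
      ((A - 1 : ℝ) : ℂ) * trp (bP T 0) Z (t - t') + (-(B : ℂ)) * trp (bP T 1) Z (t - t') +
      (D : ℂ) * trp (bP T 2) Z (t - t') + F / (T * Real.log T ^ 2) := by
    push_cast
    ring
  rw [e]
  calc _ ≤ ‖((A - 1 : ℝ) : ℂ) * trp (bP T 0) Z (t - t')‖ + ‖(-(B : ℂ)) * trp (bP T 1) Z (t - t')‖ +
        ‖(D : ℂ) * trp (bP T 2) Z (t - t')‖ + ‖F / (T * Real.log T ^ 2)‖ :=
        (norm_add_le _ _).trans (add_le_add ((norm_add_le _ _).trans (add_le_add (norm_add_le _ _) le_rfl)) le_rfl)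
    _ ≤ 4 * rho T * ‖trp (bP T 0) Z (t - t')‖ + 4 * ‖trp (bP T 1) Z (t - t')‖ +
        1 * ‖trp (bP T 2) Z (t - t')‖ + rho T := by
        rw [norm_mul, norm_mul, norm_mul, norm_neg, Complex.norm_real, Complex.norm_real, Complex.norm_real,
          Real.norm_eq_abs, Real.norm_eq_abs, Real.norm_eq_abs]
        gcongr
    _ = _ := by ring

/-- the Fourier coefficient -/
lemma I1 {Z : ℕ} {T : ℝ} (h : Big T) (hZ : (Z : ℝ) ≤ T) (hZ3 : 14 * (Z : ℝ) ^ 3 ≤ rho T * T) {t : ℝ}
    (ht0 : t ∈ Icc 0 T) {p : ℕ × ℕ} (hp : p ∈ FR Z) :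
    ‖(∫ α in (T / Real.log T)..T, sh Z (t + α) * ex (-(α * lam p))) / (T * Real.log T) -
      (((√(ht p))⁻¹ : ℝ) : ℂ) * ex (t * lam p)‖ ≤ 3 * rho T + Real.log (ht p) / Real.log T := by
  obtain ⟨a1, a2, a3⟩ := h.a
  obtain ⟨r1, r2, r3⟩ := h.r
  obtain ⟨l1, l2, l3, l4, l5⟩ := log_ht h hZ hp
  have hO : ∀ q ∈ (FR Z).erase p, _ := fun q hq =>
    off1 h hZ (Finset.mem_of_mem_erase hq) hp (Finset.ne_of_mem_erase hq) ht0
  have hi : ∀ q ∈ FR Z, IntervalIntegrable (fun α : ℝ => ex (t * lam q) *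
      (((cc q (t + α) : ℝ) : ℂ) * ex (α * (lam q - lam p)))) volume (T / Real.log T) T := by
    intro q hq
    apply ContinuousOn.intervalIntegrable
    rw [uIcc_of_le a2]
    apply ContinuousOn.mul continuousOn_const
    apply ContinuousOn.mul
    · exact Complex.continuous_ofReal.comp_continuousOn (cc_int h hZ hq ht0)
    · exact (ex_cont.comp (by fun_prop)).continuousOn
  have e1 : ∀ α ∈ uIcc (T / Real.log T) T, sh Z (t + α) * ex (-(α * lam p)) =
      ∑ q ∈ FR Z, ex (t * lam q) * (((cc q (t + α) : ℝ) : ℂ) * ex (α * (lam q - lam p))) := by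
    intro α hα
    rw [uIcc_of_le a2] at hα
    rw [sh_eq Z (by linarith [ht0.1, hα.1] : 0 < t + α), Finset.sum_mul]
    refine Finset.sum_congr rfl fun q _ => ?_
    have : ex ((t + α) * lam q) * ex (-(α * lam p)) = ex (t * lam q) * ex (α * (lam q - lam p)) := by
      rw [← ex_add, ← ex_add]
      congr 1
      ring
    calc _ = (cc q (t + α) : ℂ) * (ex ((t + α) * lam q) * ex (-(α * lam p))) := by ring
      _ = _ := by rw [this]; ring
  have hE : ∫ α in (T / Real.log T)..T, sh Z (t + α) * ex (-(α * lam p)) =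
      ∑ q ∈ FR Z, ex (t * lam q) * ∫ α in (T / Real.log T)..T, ((cc q (t + α) : ℝ) : ℂ) * ex (α * (lam q - lam p)) := by
    rw [intervalIntegral.integral_congr e1, intervalIntegral.integral_finsetSum fun q hq => hi q hq]
    refine Finset.sum_congr rfl fun q _ => ?_
    rw [intervalIntegral.integral_const_mul]
  have i1 : IntervalIntegrable (fun α => lmb (t + α)) volume (T / Real.log T) T := by
    apply ContinuousOn.intervalIntegrable
    rw [uIcc_of_le a2]
    exact lmb_cont h ht0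
  have i3 : ∀ c : ℝ, IntervalIntegrable (fun _ : ℝ => c) volume (T / Real.log T) T := by intro c; simp
  have hlb : ∀ α ∈ Icc (T / Real.log T) T, |lmb (t + α) - Real.log T| ≤ rho T * Real.log T := fun α hα =>
    (lmb_bd h ht0 hα).1
  obtain ⟨g1, g2, g3⟩ := h
  have hl : 0 < Real.log T := by linarith
  have hM : |(∫ α in (T / Real.log T)..T, lmb (t + α)) - T * Real.log T| ≤ 2 * rho T * (T * Real.log T) := by
    have e2 : (∫ α in (T / Real.log T)..T, lmb (t + α)) - T * Real.log T =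
        (∫ α in (T / Real.log T)..T, (lmb (t + α) - Real.log T)) - T / Real.log T * Real.log T := by
      rw [intervalIntegral.integral_sub i1 (i3 _), intervalIntegral.integral_const, smul_eq_mul]
      ring
    rw [e2]
    have b1 := bd_int a2 hlb
    have b2 : |T / Real.log T * Real.log T| ≤ T * rho T * Real.log T := by
      rw [abs_of_nonneg (by positivity)]
      gcongr
    have b3 : (T - T / Real.log T) * (rho T * Real.log T) ≤ T * (rho T * Real.log T) := by
      gcongr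
      linarith
    refine (abs_sub _ _).trans ?_
    linarith
  have hd : ∫ α in (T / Real.log T)..T, ((cc p (t + α) : ℝ) : ℂ) * ex (α * (lam p - lam p)) =
      (((√(ht p))⁻¹ * ((∫ α in (T / Real.log T)..T, lmb (t + α)) - (T - T / Real.log T) * Real.log (ht p)) : ℝ) : ℂ) := by
    have e3 : (√(ht p))⁻¹ * ((∫ α in (T / Real.log T)..T, lmb (t + α)) - (T - T / Real.log T) * Real.log (ht p)) =
        ∫ α in (T / Real.log T)..T, cc p (t + α) := by
      unfold cc
      rw [intervalIntegral.integral_const_mul]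
      congr 1
      have := intervalIntegral.integral_sub i1 (i3 (Real.log (ht p)))
      rw [intervalIntegral.integral_const, smul_eq_mul] at this
      rw [← this]
      rfl
    rw [e3, ← intervalIntegral.integral_ofReal]
    congr 1
    funext α
    rw [sub_self, mul_zero]
    unfold ex
    simp
  obtain ⟨F, hF⟩ : ∃ F : ℂ, F = ∑ q ∈ (FR Z).erase p, ex (t * lam q) *
      ∫ α in (T / Real.log T)..T, ((cc q (t + α) : ℝ) : ℂ) * ex (α * (lam q - lam p)) := ⟨_, rfl⟩
  have hFb : ‖F‖ ≤ 14 * (Z : ℝ) ^ 3 * Real.log T := by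
    rw [hF]
    calc _ ≤ ∑ q ∈ (FR Z).erase p, 14 * Z * Real.log T := by
          refine (norm_sum_le _ _).trans (Finset.sum_le_sum fun q hq => ?_)
          rw [norm_mul, norm_ex, one_mul]
          exact hO q hq
      _ = (((FR Z).erase p).card : ℝ) * (14 * Z * Real.log T) := by rw [Finset.sum_const, nsmul_eq_mul]
      _ ≤ (Z : ℝ) ^ 2 * (14 * Z * Real.log T) := by
          refine mul_le_mul_of_nonneg_right ?_ (by positivity)
          refine le_trans ?_ (card_FR2 (Z := Z))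
          exact_mod_cast Finset.card_le_card (Finset.erase_subset _ _)
      _ = _ := by ring
  obtain ⟨M, hM'⟩ : ∃ M : ℝ, M = (∫ α in (T / Real.log T)..T, lmb (t + α)) := ⟨_, rfl⟩
  rw [← hM'] at hM hd
  have hTl : (T : ℂ) * (Real.log T : ℂ) ≠ 0 := by
    have : (T * Real.log T : ℝ) ≠ 0 := by positivity
    exact_mod_cast this
  rw [hE, ← Finset.add_sum_erase (FR Z) _ hp, hd, ← hF]
  have e4 : (ex (t * lam p) * (((√(ht p))⁻¹ * (M - (T - T / Real.log T) * Real.log (ht p)) : ℝ) : ℂ) + F) / (T * Real.log T) -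
      (((√(ht p))⁻¹ : ℝ) : ℂ) * ex (t * lam p) = ex (t * lam p) * (((√(ht p))⁻¹ * ((M - T * Real.log T) -
        (T - T / Real.log T) * Real.log (ht p)) / (T * Real.log T) : ℝ) : ℂ) + F / (T * Real.log T) := by
    have gen : ∀ E k x F N : ℂ, N ≠ 0 → (E * (k * x) + F) / N - k * E = E * (k * (x - N) / N) + F / N := by
      intro E k x F N hN
      field_simp
      ring
    have g5 := gen (ex (t * lam p)) (((√(ht p))⁻¹ : ℝ) : ℂ) ((M - (T - T / Real.log T) * Real.log (ht p) : ℝ) : ℂ) F _ hTl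
    have e5 : (((√(ht p))⁻¹ * ((M - T * Real.log T) - (T - T / Real.log T) * Real.log (ht p)) / (T * Real.log T) : ℝ) : ℂ) =
        (((√(ht p))⁻¹ : ℝ) : ℂ) * (((M - (T - T / Real.log T) * Real.log (ht p) : ℝ) : ℂ) - T * Real.log T) / (T * Real.log T) := by
      push_cast
      ring
    rw [e5, ← g5, Complex.ofReal_mul]
  rw [e4]
  have hn : ‖(T * Real.log T : ℂ)‖ = T * Real.log T := by
    have : (T * Real.log T : ℂ) = ((T * Real.log T : ℝ) : ℂ) := by push_cast; rfl
    rw [this, Complex.norm_real, Real.norm_of_nonneg (by positivity)]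
  refine (norm_add_le _ _).trans ?_
  have hn2 : ‖F / (T * Real.log T : ℂ)‖ = ‖F‖ / (T * Real.log T) := by rw [norm_div, hn]
  rw [norm_mul, norm_ex, one_mul, Complex.norm_real, hn2, Real.norm_eq_abs, abs_div, abs_mul,
    abs_of_pos l4, abs_of_pos (by positivity : 0 < T * Real.log T)]
  have b4 : |M - T * Real.log T - (T - T / Real.log T) * Real.log (ht p)| ≤ 2 * rho T * (T * Real.log T) + T * Real.log (ht p) := by
    refine (abs_sub _ _).trans (add_le_add hM ?_)
    rw [abs_mul, abs_of_nonneg (by linarith : 0 ≤ T - T / Real.log T), abs_of_nonneg l1]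
    gcongr
    linarith
  calc _ ≤ 1 * (2 * rho T * (T * Real.log T) + T * Real.log (ht p)) / (T * Real.log T) +
        (rho T * T * Real.log T) / (T * Real.log T) := by
        gcongr
        exact hFb.trans (by gcongr)
    _ = _ := by
        field_simp
        ring

end Pool.Agent.H471.EP
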