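import Pool.Agent.H471.EP.Jm

set_option autoImplicit false

/-!
The limit of the second moment.
-/

namespace Pool.Agent.H471.EP

open Complex MeasureTheory Set ENNReal Filter Topology
open Pool.Agent.H471.QP (ex ex_add norm_ex ex_cont conj_ex ex_deriv)
open Pool.Agent.Y969.GP (ht lam FR PS)
open Pool.Agent.H471.GS (mem_FR' ht_pos sh ee sh_meas sh_cont)

/-- the exponent -/
noncomputable def th (k : ℕ) : ℝ := 1 / (16 * (k + 1))

/-- the length -/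
noncomputable def ZT (k : ℕ) (T : ℝ) : ℕ := ⌊T ^ th k⌋₊

lemma th_pos (k : ℕ) : 0 < th k ∧ th k ≤ 1 / 16 := by
  unfold th
  refine ⟨by positivity, ?_⟩
  apply one_div_le_one_div_of_le (by norm_num)
  have : (0 : ℝ) ≤ k := by positivity
  linarith

lemma ad_ev (k : ℕ) {R : ℕ} (hR : 1 ≤ R) : ∀ᶠ T in atTop, Ad k T (ZT k T) R ∧ 14 * (ZT k T : ℝ) ^ 3 ≤ rho T * T := by
  obtain ⟨t1, t2⟩ := th_pos k
  filter_upwards [big_ev, (tendsto_rpow_atTop t1).eventually_ge_atTop (R : ℝ),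
    (tendsto_rpow_atTop (show (0 : ℝ) < 1 / 4 by norm_num)).eventually_ge_atTop 64, eventually_ge_atTop 1] with T hB hR' h64 h1
  obtain ⟨r1, r2, r3⟩ := hB.r
  have hl : 0 < Real.log T := by linarith [hB.1]
  have hT0 : 0 < T := by linarith
  have hZ : (ZT k T : ℝ) ≤ T ^ th k := Nat.floor_le (by positivity)
  have hRZ : R ≤ ZT k T := Nat.le_floor hR'
  have hZ1 : (1 : ℝ) ≤ ZT k T := by exact_mod_cast hR.trans hRZ
  have pw : ∀ (m : ℕ) (e : ℝ), m * th k ≤ e → (ZT k T : ℝ) ^ m ≤ T ^ e := by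
    intro m e he
    calc (ZT k T : ℝ) ^ m ≤ (T ^ th k) ^ m := pow_le_pow_left₀ (by positivity) hZ m
      _ = T ^ (m * th k) := by
          rw [← Real.rpow_natCast, ← Real.rpow_mul hT0.le]
          congr 1
          ring
      _ ≤ T ^ e := Real.rpow_le_rpow_of_exponent_le h1 he
  have hk : ((4 * k : ℕ) : ℝ) * th k ≤ 1 := by
    unfold th
    push_cast
    rw [mul_one_div, div_le_one (by positivity)]
    have : (0 : ℝ) ≤ k := by positivity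
    linarith
  have h48 : 48 * (ZT k T : ℝ) ^ 5 ≤ rho T * T := by
    have a1 : (ZT k T : ℝ) ^ 5 ≤ T ^ (1 / 2 : ℝ) := pw 5 _ (by push_cast; linarith)
    have a2 : Real.log T ≤ 4 * T ^ (1 / 4 : ℝ) := by
      have := Real.log_le_rpow_div (x := T) (ε := 1 / 4) hT0.le (by norm_num)
      linarith
    have a3 : T ^ (1 / 2 : ℝ) = T ^ (1 / 4 : ℝ) * T ^ (1 / 4 : ℝ) := by rw [← Real.rpow_add hT0]; norm_num
    have a4 : T = T ^ (1 / 2 : ℝ) * T ^ (1 / 2 : ℝ) := by rw [← Real.rpow_add hT0]; norm_num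
    have a5 : 16 * Real.log T ≤ T ^ (1 / 2 : ℝ) := by
      rw [a3]
      nlinarith
    have a6 : 3 / Real.log T ≤ rho T := by
      unfold rho
      gcongr
      have : 0 ≤ Real.log (Real.log T) := Real.log_nonneg (by linarith [hB.1])
      linarith
    have a7 : 48 * T ^ (1 / 2 : ℝ) ≤ 3 / Real.log T * T := by
      rw [div_mul_eq_mul_div, le_div_iff₀ hl]
      conv_rhs => rw [a4]
      have : 0 ≤ T ^ (1 / 2 : ℝ) := by positivity
      nlinarith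
    calc _ ≤ 48 * T ^ (1 / 2 : ℝ) := by gcongr
      _ ≤ 3 / Real.log T * T := a7
      _ ≤ _ := by gcongr
  refine ⟨⟨hB, hR, hRZ, ?_, ?_, h48⟩, ?_⟩
  · have := pw 4 1 (by push_cast; linarith)
    rwa [Real.rpow_one] at this
  · have := pw (4 * k) 1 hk
    rwa [Real.rpow_one] at this
  · refine le_trans ?_ h48
    have : (ZT k T : ℝ) ^ 3 ≤ (ZT k T : ℝ) ^ 5 := pow_le_pow_right₀ hZ1 (by norm_num)
    have h0 : 0 ≤ (ZT k T : ℝ) ^ 3 := by positivity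
    linarith

/-- the condition on the Fourier coefficients -/
def FCo (μ : ℕ → Measure ℝ) : Prop :=
  ∀ r : ℚ, 0 < r → r ≠ 1 → Tendsto (fun n => fc (μ n) (Real.log r)) atTop (𝓝 0)

lemma lam_rat {K R : ℕ} {p : Fin K → ℕ × ℕ} (hp : p ∈ TS K R) : ∃ r : ℚ, 0 < r ∧ Real.log r = Lam p := by
  refine ⟨∏ j, (((p j).2 : ℚ) / (p j).1), ?_, ?_⟩
  · apply Finset.prod_pos
    intro j _
    have h := mem_FR'.1 (mem_TS.1 hp j)
    have h1 : (0 : ℚ) < (p j).1 := by exact_mod_cast h.1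
    have h2 : (0 : ℚ) < (p j).2 := by exact_mod_cast h.2.1
    positivity
  · push_cast
    rw [Real.log_prod]
    · unfold Lam lam
      refine Finset.sum_congr rfl fun j _ => ?_
      have h := mem_FR'.1 (mem_TS.1 hp j)
      have h1 : ((p j).1 : ℝ) ≠ 0 := by have := h.1; positivity
      have h2 : ((p j).2 : ℝ) ≠ 0 := by have := h.2.1; positivity
      rw [Real.log_div h2 h1]
    · intro j _
      have h := mem_FR'.1 (mem_TS.1 hp j)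
      have h1 : ((p j).1 : ℝ) ≠ 0 := by have := h.1; positivity
      have h2 : ((p j).2 : ℝ) ≠ 0 := by have := h.2.1; positivity
      exact div_ne_zero h2 h1

/-- the main term -/
noncomputable def Sm (K R : ℕ) (μ₁ μ₂ : Measure ℝ) : ℂ :=
  ∑ p ∈ TS K R, (((Ht p)⁻¹ : ℝ) : ℂ) * (fc μ₁ (Lam p) * (starRingEnd ℂ) (fc μ₂ (Lam p)))

open Classical in
lemma S_lim (K R : ℕ) {μ₁ μ₂ : ℕ → Measure ℝ} (h1 : FCo μ₁) (h2 : FCo μ₂) (p1 : ∀ n, IsProbabilityMeasure (μ₁ n))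
    (p2 : ∀ n, IsProbabilityMeasure (μ₂ n)) : Tendsto (fun n => Sm K R (μ₁ n) (μ₂ n)) atTop
    (𝓝 (∑ p ∈ TS K R, (((Ht p)⁻¹ : ℝ) : ℂ) * (if Lam p = 0 then 1 else 0))) := by
  unfold Sm
  refine tendsto_finsetSum _ fun p hp => ?_
  apply Filter.Tendsto.const_mul
  split_ifs with h
  · rw [h]
    have : ∀ n, fc (μ₁ n) 0 * (starRingEnd ℂ) (fc (μ₂ n) 0) = 1 := by
      intro n
      rw [fc_zero, fc_zero, map_one, one_mul]
    simp_rw [this]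
    exact tendsto_const_nhds
  · obtain ⟨r, hr, hr2⟩ := lam_rat hp
    have hr1 : r ≠ 1 := by
      rintro rfl
      apply h
      rw [← hr2]
      simp
    have a1 := h1 r hr hr1
    have a2 := h2 r hr hr1
    rw [hr2] at a1 a2
    have a3 := (Complex.continuous_conj.tendsto 0).comp a2
    have := a1.mul a3
    simpa using this

/-- the normalised second moment -/
noncomputable def En (k : ℕ) (T : ℝ) (μ₁ μ₂ : Measure ℝ) : ℝ :=
  (∫ α, ‖Dm (k + 1) (ZT k T) μ₁ α - Dm (k + 1) (ZT k T) μ₂ α‖ ^ 2 ∂(pb (k + 1) T)) / (T * Real.log T ^ 2) ^ (k + 1)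

lemma En_eq {k : ℕ} {T C0 : ℝ} (h : Big T) (hZ : (ZT k T : ℝ) ≤ T) {μ₁ μ₂ : Measure ℝ} (h1 : Mz T C0 μ₁) (h2 : Mz T C0 μ₂) :
    En k T μ₁ μ₂ = ‖Jn (k + 1) (ZT k T) T μ₁ μ₁ - Jn (k + 1) (ZT k T) T μ₁ μ₂ - Jn (k + 1) (ZT k T) T μ₂ μ₁ +
      Jn (k + 1) (ZT k T) T μ₂ μ₂‖ := by
  have h3 := E2 (K := k + 1) h hZ h1 h2
  have hl : 0 < Real.log T := by linarith [h.1]
  have hT0 := h.2.2
  have h4 : 0 ≤ ∫ α, ‖Dm (k + 1) (ZT k T) μ₁ α - Dm (k + 1) (ZT k T) μ₂ α‖ ^ 2 ∂(pb (k + 1) T) :=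
    integral_nonneg fun α => by positivity
  have h5 := congrArg norm h3
  rw [Complex.norm_real, Real.norm_of_nonneg h4, norm_mul] at h5
  have e : ‖(T * Real.log T ^ 2 : ℂ) ^ (k + 1)‖ = (T * Real.log T ^ 2) ^ (k + 1) := by
    have : (T * Real.log T ^ 2 : ℂ) = ((T * Real.log T ^ 2 : ℝ) : ℂ) := by push_cast; rfl
    rw [this, norm_pow, Complex.norm_real, Real.norm_of_nonneg (by positivity)]
  rw [e] at h5
  unfold En
  rw [h5, mul_div_cancel_left₀]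
  positivity

/-- the difference of the kernels and the main terms -/
lemma En_apx (k : ℕ) {C0 : ℝ} (hC0 : 0 < C0) : ∃ C : ℝ, 0 < C ∧ ∀ (T : ℝ) (R : ℕ), Ad k T (ZT k T) R →
    ∀ (μ₁ μ₂ : Measure ℝ), Mz T C0 μ₁ → Mz T C0 μ₂ →
    En k T μ₁ μ₂ ≤ C * (rho T + (R : ℝ) ^ (-(1 / 8 : ℝ))) + ‖Sm (k + 1) R μ₁ μ₁ - Sm (k + 1) R μ₁ μ₂ -
      Sm (k + 1) R μ₂ μ₁ + Sm (k + 1) R μ₂ μ₂‖ := by
  obtain ⟨C, hC, hA⟩ := Jn_apx k hC0
  refine ⟨4 * C, by positivity, fun T R ha μ₁ μ₂ h1 h2 => ?_⟩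
  rw [En_eq ha.big ha.f.2.2.1 h1 h2]
  have b11 := hA T _ R ha μ₁ μ₁ h1 h1
  have b12 := hA T _ R ha μ₁ μ₂ h1 h2
  have b21 := hA T _ R ha μ₂ μ₁ h2 h1
  have b22 := hA T _ R ha μ₂ μ₂ h2 h2
  change ‖_ - Sm (k + 1) R μ₁ μ₁‖ ≤ _ at b11
  change ‖_ - Sm (k + 1) R μ₁ μ₂‖ ≤ _ at b12
  change ‖_ - Sm (k + 1) R μ₂ μ₁‖ ≤ _ at b21
  change ‖_ - Sm (k + 1) R μ₂ μ₂‖ ≤ _ at b22
  generalize Jn (k + 1) (ZT k T) T μ₁ μ₁ = j11 at *
  generalize Jn (k + 1) (ZT k T) T μ₁ μ₂ = j12 at *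
  generalize Jn (k + 1) (ZT k T) T μ₂ μ₁ = j21 at *
  generalize Jn (k + 1) (ZT k T) T μ₂ μ₂ = j22 at *
  generalize Sm (k + 1) R μ₁ μ₁ = s11 at *
  generalize Sm (k + 1) R μ₁ μ₂ = s12 at *
  generalize Sm (k + 1) R μ₂ μ₁ = s21 at *
  generalize Sm (k + 1) R μ₂ μ₂ = s22 at *
  have e : j11 - j12 - j21 + j22 = (j11 - s11) - (j12 - s12) - (j21 - s21) + (j22 - s22) + (s11 - s12 - s21 + s22) := by ring
  rw [e]
  calc _ ≤ ‖j11 - s11‖ + ‖j12 - s12‖ + ‖j21 - s21‖ + ‖j22 - s22‖ + ‖s11 - s12 - s21 + s22‖ := by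
        refine (norm_add_le _ _).trans (add_le_add ?_ le_rfl)
        refine (norm_add_le _ _).trans (add_le_add ?_ le_rfl)
        refine (norm_sub_le _ _).trans (add_le_add ?_ le_rfl)
        exact norm_sub_le _ _
    _ ≤ _ := by linarith

lemma En_nn {k : ℕ} {T : ℝ} (h : Big T) (μ₁ μ₂ : Measure ℝ) : 0 ≤ En k T μ₁ μ₂ := by
  have hl : 0 < Real.log T := by linarith [h.1]
  have hT0 := h.2.2
  unfold En
  apply div_nonneg (integral_nonneg fun α => by positivity)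
  positivity

/-- the limit of the second moment -/
lemma En_lim (k : ℕ) {C0 : ℝ} (hC0 : 0 < C0) {T : ℕ → ℝ} (hT : Tendsto T atTop atTop) {μ₁ μ₂ : ℕ → Measure ℝ}
    (p1 : ∀ n, IsProbabilityMeasure (μ₁ n)) (p2 : ∀ n, IsProbabilityMeasure (μ₂ n))
    (h1 : ∀ᶠ n in atTop, Mz (T n) C0 (μ₁ n)) (h2 : ∀ᶠ n in atTop, Mz (T n) C0 (μ₂ n)) (f1 : FCo μ₁) (f2 : FCo μ₂) :
    Tendsto (fun n => En k (T n) (μ₁ n) (μ₂ n)) atTop (𝓝 0) := by
  obtain ⟨C, hC, hA⟩ := En_apx k hC0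
  have hr := rho_tendsto.comp hT
  rw [Metric.tendsto_nhds]
  intro ε hε
  obtain ⟨R, hR1, hR2⟩ : ∃ R : ℕ, 1 ≤ R ∧ C * (R : ℝ) ^ (-(1 / 8 : ℝ)) < ε / 3 := by
    have a1 : Tendsto (fun R : ℕ => C * (R : ℝ) ^ (-(1 / 8 : ℝ))) atTop (𝓝 (C * 0)) :=
      ((tendsto_rpow_neg_atTop (show (0 : ℝ) < 1 / 8 by norm_num)).comp tendsto_natCast_atTop_atTop).const_mul C
    rw [mul_zero] at a1
    obtain ⟨R, hR⟩ := ((a1.eventually_lt_const (show (0 : ℝ) < ε / 3 by positivity)).and (eventually_ge_atTop 1)).exists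
    exact ⟨R, hR.2, hR.1⟩
  have hS : Tendsto (fun n => ‖Sm (k + 1) R (μ₁ n) (μ₁ n) - Sm (k + 1) R (μ₁ n) (μ₂ n) -
      Sm (k + 1) R (μ₂ n) (μ₁ n) + Sm (k + 1) R (μ₂ n) (μ₂ n)‖) atTop (𝓝 0) := by
    have s11 := S_lim (k + 1) R f1 f1 p1 p1
    have s12 := S_lim (k + 1) R f1 f2 p1 p2
    have s21 := S_lim (k + 1) R f2 f1 p2 p1
    have s22 := S_lim (k + 1) R f2 f2 p2 p2
    have := (((s11.sub s12).sub s21).add s22).norm
    rw [sub_self, zero_sub, neg_add_cancel, norm_zero] at this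
    exact this
  have hr' : Tendsto (fun n => C * rho (T n)) atTop (𝓝 (C * 0)) := hr.const_mul C
  rw [mul_zero] at hr'
  filter_upwards [h1, h2, hT.eventually (ad_ev k hR1), hr'.eventually_lt_const (show (0 : ℝ) < ε / 3 by positivity),
    hS.eventually_lt_const (show (0 : ℝ) < ε / 3 by positivity)] with n m1 m2 ha h3 h4
  rw [Real.dist_eq, sub_zero, abs_of_nonneg (En_nn ha.1.big _ _)]
  have := hA (T n) R ha.1 _ _ m1 m2
  linarith

lemma Sm_le (K R : ℕ) (μ₁ μ₂ : Measure ℝ) [IsProbabilityMeasure μ₁] [IsProbabilityMeasure μ₂] :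
    ‖Sm K R μ₁ μ₂‖ ≤ ∑ p ∈ TS K R, (Ht p)⁻¹ := by
  unfold Sm
  refine (norm_sum_le _ _).trans (Finset.sum_le_sum fun p hp => ?_)
  have h1 := fc_le μ₁ (Lam p)
  have h2 := fc_le μ₂ (Lam p)
  have h3 := Ht_ge hp
  rw [norm_mul, norm_mul, RCLike.norm_conj, Complex.norm_real, Real.norm_of_nonneg (by positivity)]
  calc (Ht p)⁻¹ * (‖fc μ₁ (Lam p)‖ * ‖fc μ₂ (Lam p)‖) ≤ (Ht p)⁻¹ * (1 * 1) := by gcongr
    _ = _ := by ring

/-- the second moment is bounded -/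
lemma En_bdd (k : ℕ) {C0 : ℝ} (hC0 : 0 < C0) : ∃ C : ℝ, 0 < C ∧ ∀ᶠ T in atTop,
    ∀ (μ₁ μ₂ : Measure ℝ), Mz T C0 μ₁ → Mz T C0 μ₂ → En k T μ₁ μ₂ ≤ C := by
  obtain ⟨C, hC, hA⟩ := En_apx k hC0
  have h0 : 0 ≤ ∑ p ∈ TS (k + 1) 1, (Ht p)⁻¹ := Finset.sum_nonneg fun p hp => by
    have := Ht_ge hp
    positivity
  refine ⟨2 * C + 4 * ∑ p ∈ TS (k + 1) 1, (Ht p)⁻¹, by positivity, ?_⟩
  filter_upwards [ad_ev k le_rfl] with T ha μ₁ μ₂ h1 h2
  have := h1.pr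
  have := h2.pr
  have h3 := hA T 1 ha.1 μ₁ μ₂ h1 h2
  have h4 := ha.1.big.2.1
  have s11 := Sm_le (k + 1) 1 μ₁ μ₁
  have s12 := Sm_le (k + 1) 1 μ₁ μ₂
  have s21 := Sm_le (k + 1) 1 μ₂ μ₁
  have s22 := Sm_le (k + 1) 1 μ₂ μ₂
  have h5 : ‖Sm (k + 1) 1 μ₁ μ₁ - Sm (k + 1) 1 μ₁ μ₂ - Sm (k + 1) 1 μ₂ μ₁ + Sm (k + 1) 1 μ₂ μ₂‖ ≤
      ‖Sm (k + 1) 1 μ₁ μ₁‖ + ‖Sm (k + 1) 1 μ₁ μ₂‖ + ‖Sm (k + 1) 1 μ₂ μ₁‖ + ‖Sm (k + 1) 1 μ₂ μ₂‖ := by
    refine (norm_add_le _ _).trans (add_le_add ?_ le_rfl)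
    refine (norm_sub_le _ _).trans (add_le_add ?_ le_rfl)
    exact norm_sub_le _ _
  have h6 : C * (rho T + ((1 : ℕ) : ℝ) ^ (-(1 / 8 : ℝ))) ≤ 2 * C := by
    rw [Nat.cast_one, Real.one_rpow]
    nlinarith
  linarith

/-- the uniform measure -/
noncomputable def un (T : ℝ) : Measure ℝ := (ENNReal.ofReal T)⁻¹ • volume.restrict (Icc 0 T)

lemma un_int {T : ℝ} (hT : 0 < T) {E : Type} [NormedAddCommGroup E] [NormedSpace ℝ E] (f : ℝ → E) :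
    ∫ t, f t ∂(un T) = T⁻¹ • ∫ t in (0 : ℝ)..T, f t := by
  unfold un
  rw [integral_smul_measure, intervalIntegral.integral_of_le hT.le, ← integral_Icc_eq_integral_Ioc,
    ENNReal.toReal_inv, ENNReal.toReal_ofReal hT.le]

lemma un_mz {T C0 : ℝ} (hT : 1 ≤ T) (hC0 : 1 ≤ C0) : Mz T C0 (un T) := by
  have hT0 : 0 < T := by linarith
  have hne : ENNReal.ofReal T ≠ 0 := by
    rw [Ne, ENNReal.ofReal_eq_zero]
    linarith
  refine ⟨⟨?_⟩, ?_, ?_⟩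
  · unfold un
    rw [Measure.smul_apply, Measure.restrict_apply MeasurableSet.univ, univ_inter, Real.volume_Icc, sub_zero, smul_eq_mul]
    exact ENNReal.inv_mul_cancel hne ENNReal.ofReal_ne_top
  · unfold un
    apply Measure.ae_smul_measure
    exact ae_restrict_mem measurableSet_Icc
  · intro x
    unfold un
    rw [Measure.smul_apply, smul_eq_mul]
    have h1 : volume.restrict (Icc 0 T) (Icc x (x + 1)) ≤ 1 := by
      refine (Measure.restrict_apply_le _ _).trans ?_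
      rw [Real.volume_Icc]
      simp
    calc _ ≤ (ENNReal.ofReal T)⁻¹ * 1 := by gcongr
      _ = ENNReal.ofReal (T⁻¹) := by rw [mul_one, ENNReal.ofReal_inv_of_pos hT0]
      _ ≤ _ := by
          apply ENNReal.ofReal_le_ofReal
          rw [inv_eq_one_div]
          gcongr

lemma un_fc {T : ℕ → ℝ} (hT : Tendsto T atTop atTop) : FCo fun n => un (T n) := by
  intro r hr hr1
  have hξ : Real.log r ≠ 0 := by
    rw [Ne, Real.log_eq_zero]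
    have h0 : (0 : ℝ) < r := by exact_mod_cast hr
    rintro (h | h | h)
    · linarith
    · apply hr1
      exact_mod_cast h
    · linarith
  rw [tendsto_zero_iff_norm_tendsto_zero]
  have hb : Tendsto (fun n => (T n)⁻¹ * (2 / |Real.log r|)) atTop (𝓝 (0 * (2 / |Real.log r|))) :=
    hT.inv_tendsto_atTop.mul_const _
  rw [zero_mul] at hb
  apply squeeze_zero' (Eventually.of_forall fun n => norm_nonneg _) _ hb
  filter_upwards [hT.eventually_gt_atTop 0] with n hn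
  unfold fc
  rw [un_int hn, norm_smul, norm_inv, Real.norm_of_nonneg hn.le]
  gcongr
  exact (Pool.Agent.H471.CR.int_b hn.le (Real.log r)).2 hξ

end Pool.Agent.H471.EP
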