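import Pool.Agent.H471.EP.Sob
import Pool.Graph.R_seed8.Helper112.Arith
import Pool.Agent.H471.GS.Par

set_option autoImplicit false

/-!
The mean values of polynomials over tuples of fractions.
-/

namespace Pool.Agent.H471.EP

open Complex MeasureTheory Set ENNReal
open Pool.Agent.H471.QP (ex ex_add norm_ex ex_cont conj_ex ex_deriv)
open Pool.Agent.Y969.GP (ht lam FR PS)
open Pool.Agent.H471.GS (mem_FR' ht_pos)

/-- distinct logarithms -/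
lemma log_sep {n m N : ℕ} (hn : 1 ≤ n) (hm : 1 ≤ m) (hnN : n ≤ N) (hmN : m ≤ N) (h : n ≠ m) :
    1 / (N : ℝ) ≤ |Real.log n - Real.log m| := by
  have key : ∀ a b : ℕ, 1 ≤ a → a < b → b ≤ N → 1 / (N : ℝ) ≤ Real.log b - Real.log a := by
    intro a b ha hab hb
    have ha0 : (0 : ℝ) < a := by exact_mod_cast ha
    have hb0 : (0 : ℝ) < b := by exact_mod_cast (by omega : 0 < b)
    have hN0 : (0 : ℝ) < N := by exact_mod_cast (by omega : 0 < N)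
    rw [← Real.log_div hb0.ne' ha0.ne']
    have h1 := Real.one_sub_inv_le_log_of_pos (show (0 : ℝ) < b / a by positivity)
    refine le_trans ?_ h1
    rw [inv_div]
    have h2 : (a : ℝ) + 1 ≤ b := by exact_mod_cast hab
    have h3 : (b : ℝ) ≤ N := by exact_mod_cast hb
    have e : 1 - (a : ℝ) / b = (b - a) / b := by field_simp
    rw [e]
    calc 1 / (N : ℝ) ≤ 1 / b := by gcongr
      _ ≤ _ := by gcongr; linarith
  rcases lt_or_gt_of_ne h with h1 | h1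
  · rw [abs_sub_comm]
    exact (key n m hn h1 hmN).trans (le_abs_self _)
  · exact (key m n hm h1 hnN).trans (le_abs_self _)

/-- the tuples -/
def TS (q Z : ℕ) : Finset (Fin q → ℕ × ℕ) := Fintype.piFinset fun _ : Fin q => FR Z

/-- the frequency of a tuple -/
noncomputable def Lam {q : ℕ} (p : Fin q → ℕ × ℕ) : ℝ := ∑ j, lam (p j)

/-- the height of a tuple -/
noncomputable def Ht {q : ℕ} (p : Fin q → ℕ × ℕ) : ℝ := ∏ j, ht (p j)

/-- the numerators -/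
def nn {q : ℕ} (x : (Fin q → ℕ × ℕ) × (Fin q → ℕ × ℕ)) : ℕ := ∏ j, ((x.1 j).2 * (x.2 j).1)

lemma ht_ge {p : ℕ × ℕ} (h1 : 1 ≤ p.1) (h2 : 1 ≤ p.2) : 1 ≤ ht p := by
  unfold ht
  have a : (1 : ℝ) ≤ p.1 := by exact_mod_cast h1
  have b : (1 : ℝ) ≤ p.2 := by exact_mod_cast h2
  nlinarith

lemma mem_TS {q Z : ℕ} {p : Fin q → ℕ × ℕ} : p ∈ TS q Z ↔ ∀ j, p j ∈ FR Z := by
  unfold TS
  rw [Fintype.mem_piFinset]

lemma Ht_ge {q Z : ℕ} {p : Fin q → ℕ × ℕ} (hp : p ∈ TS q Z) : 1 ≤ Ht p := by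
  unfold Ht
  refine Finset.prod_induction _ (fun x : ℝ => 1 ≤ x) (fun a b ha hb => one_le_mul_of_one_le_of_one_le ha hb) le_rfl ?_
  intro j _
  have := mem_FR'.1 (mem_TS.1 hp j)
  exact ht_ge this.1 this.2.1

lemma nn_pos {q Z : ℕ} {p p' : Fin q → ℕ × ℕ} (hp : p ∈ TS q Z) (hp' : p' ∈ TS q Z) : 1 ≤ nn (p, p') := by
  unfold nn
  apply Nat.one_le_iff_ne_zero.2
  apply Finset.prod_ne_zero_iff.2
  intro j _
  have h1 := mem_FR'.1 (mem_TS.1 hp j)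
  have h2 := mem_FR'.1 (mem_TS.1 hp' j)
  have h3 : 1 ≤ (p j).2 * (p' j).1 := Nat.mul_pos h1.2.1 h2.1
  simp only
  omega

lemma nn_le {q Z : ℕ} {p p' : Fin q → ℕ × ℕ} (hp : p ∈ TS q Z) (hp' : p' ∈ TS q Z) : nn (p, p') ≤ Z ^ (2 * q) := by
  unfold nn
  have : ∀ j ∈ (Finset.univ : Finset (Fin q)), (p j).2 * (p' j).1 ≤ Z * Z := by
    intro j _
    have h1 := mem_FR'.1 (mem_TS.1 hp j)
    have h2 := mem_FR'.1 (mem_TS.1 hp' j)
    exact Nat.mul_le_mul ((Nat.le_mul_of_pos_left _ h1.1).trans h1.2.2.1) ((Nat.le_mul_of_pos_right _ h2.2.1).trans h2.2.2.1)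
  calc _ ≤ ∏ _j : Fin q, Z * Z := Finset.prod_le_prod' this
    _ = _ := by
      rw [Finset.prod_const, Finset.card_univ, Fintype.card_fin, pow_mul, pow_two]

lemma Lam_sub {q Z : ℕ} {p p' : Fin q → ℕ × ℕ} (hp : p ∈ TS q Z) (hp' : p' ∈ TS q Z) :
    Lam p - Lam p' = Real.log (nn (p, p')) - Real.log (nn (p', p)) := by
  have key : ∀ a b : Fin q → ℕ × ℕ, a ∈ TS q Z → b ∈ TS q Z →
      Real.log (nn (a, b)) = ∑ j, (Real.log (a j).2 + Real.log (b j).1) := by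
    intro a b ha hb
    unfold nn
    push_cast
    rw [Real.log_prod]
    · refine Finset.sum_congr rfl fun j _ => ?_
      have h1 := mem_FR'.1 (mem_TS.1 ha j)
      have h2 := mem_FR'.1 (mem_TS.1 hb j)
      rw [Real.log_mul (by have := h1.2.1; positivity) (by have := h2.1; positivity)]
    · intro j _
      have h1 := mem_FR'.1 (mem_TS.1 ha j)
      have h2 := mem_FR'.1 (mem_TS.1 hb j)
      have a1 : ((a j).2 : ℝ) ≠ 0 := by have := h1.2.1; positivity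
      have a2 : ((b j).1 : ℝ) ≠ 0 := by have := h2.1; positivity
      exact mul_ne_zero a1 a2
  rw [key p p' hp hp', key p' p hp' hp]
  unfold Lam lam
  rw [← Finset.sum_sub_distrib, ← Finset.sum_sub_distrib]
  refine Finset.sum_congr rfl fun j _ => ?_
  ring

lemma Ht_mul {q : ℕ} (p p' : Fin q → ℕ × ℕ) : Ht p * Ht p' = (nn (p, p') : ℝ) * nn (p', p) := by
  unfold Ht nn ht
  push_cast
  rw [← Finset.prod_mul_distrib, ← Finset.prod_mul_distrib]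
  refine Finset.prod_congr rfl fun j _ => ?_
  ring

lemma Lam_le {q Z : ℕ} {p : Fin q → ℕ × ℕ} (hp : p ∈ TS q Z) : |Lam p| ≤ Real.log (Ht p) := by
  have h0 : Real.log (Ht p) = ∑ j, Real.log (ht (p j)) := by
    unfold Ht
    rw [Real.log_prod]
    intro j _
    have := mem_FR'.1 (mem_TS.1 hp j)
    exact (ht_pos this.1 this.2.1).ne'
  rw [h0]
  unfold Lam
  refine (Finset.abs_sum_le_sum_abs _ _).trans (Finset.sum_le_sum fun j _ => ?_)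
  have h := mem_FR'.1 (mem_TS.1 hp j)
  unfold lam ht
  have a1 : 0 ≤ Real.log (p j).1 := Real.log_nonneg (by exact_mod_cast h.1)
  have a2 : 0 ≤ Real.log (p j).2 := Real.log_nonneg (by exact_mod_cast h.2.1)
  have b1 : ((p j).1 : ℝ) ≠ 0 := by have := h.1; positivity
  have b2 : ((p j).2 : ℝ) ≠ 0 := by have := h.2.1; positivity
  rw [Real.log_mul b1 b2, abs_le]
  constructor <;> linarith

lemma card_TS (q Z : ℕ) : ((TS q Z).card : ℝ) ≤ (Z : ℝ) ^ (2 * q) := by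
  have : (TS q Z).card ≤ Z ^ (2 * q) := by
    unfold TS
    rw [Fintype.card_piFinset, Finset.prod_const, Finset.card_univ, Fintype.card_fin, pow_mul]
    apply Nat.pow_le_pow_left
    rw [pow_two]
    exact Pool.Agent.Y379.GP.card_FR Z
  exact_mod_cast this

lemma fiber_card (q Z n : ℕ) (hn : 1 ≤ n) :
    (((TS q Z ×ˢ TS q Z).filter (fun x => nn x = nn x.swap)).filter (fun x => nn x = n)).card ≤
      n.divisors.card ^ (4 * q) := by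
  have hsub : ((TS q Z ×ˢ TS q Z).filter (fun x => nn x = nn x.swap)).filter (fun x => nn x = n) ⊆
      (Fintype.piFinset fun _ : Fin q => n.divisors ×ˢ n.divisors) ×ˢ
        (Fintype.piFinset fun _ : Fin q => n.divisors ×ˢ n.divisors) := by
    intro x hx
    simp only [Finset.mem_filter, Finset.mem_product] at hx
    obtain ⟨⟨⟨hx1, hx2⟩, hx3⟩, hx4⟩ := hx
    have hx5 : nn x.swap = n := by rw [← hx3, hx4]
    have hn0 : n ≠ 0 := by omega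
    have d1 : ∀ j, (x.1 j).2 * (x.2 j).1 ∣ n := by
      intro j
      rw [← hx4]
      exact Finset.dvd_prod_of_mem (fun j => (x.1 j).2 * (x.2 j).1) (Finset.mem_univ j)
    have d2 : ∀ j, (x.2 j).2 * (x.1 j).1 ∣ n := by
      intro j
      rw [← hx5]
      exact Finset.dvd_prod_of_mem (fun j => (x.2 j).2 * (x.1 j).1) (Finset.mem_univ j)
    rw [Finset.mem_product, Fintype.mem_piFinset, Fintype.mem_piFinset]
    constructor
    · intro j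
      rw [Finset.mem_product, Nat.mem_divisors, Nat.mem_divisors]
      exact ⟨⟨(Dvd.intro_left _ rfl).trans (d2 j), hn0⟩, ⟨(Dvd.intro _ rfl).trans (d1 j), hn0⟩⟩
    · intro j
      rw [Finset.mem_product, Nat.mem_divisors, Nat.mem_divisors]
      exact ⟨⟨(Dvd.intro_left _ rfl).trans (d1 j), hn0⟩, ⟨(Dvd.intro _ rfl).trans (d2 j), hn0⟩⟩
  refine (Finset.card_le_card hsub).trans (le_of_eq ?_)
  rw [Finset.card_product, Fintype.card_piFinset, Finset.prod_const, Finset.card_univ, Fintype.card_fin,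
    Finset.card_product, ← pow_add, ← pow_two, ← pow_mul]
  congr 1
  ring

/-- the diagonal -/
lemma diag (q : ℕ) : ∃ C : ℝ, 0 < C ∧ ∀ Z : ℕ, 1 ≤ Z →
    ∑ x ∈ (TS q Z ×ˢ TS q Z).filter (fun x => nn x = nn x.swap), ((nn x : ℝ)) ^ (-(3 / 2 : ℝ)) ≤ C := by
  obtain ⟨C0, hC0, hd⟩ := Pool.Agent.Helper112.divisor_bound (1 / (16 * (q + 1))) (by positivity)
  have hs : Summable fun n : ℕ => 1 / (n : ℝ) ^ (5 / 4 : ℝ) := Real.summable_one_div_nat_rpow.2 (by norm_num)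
  refine ⟨C0 ^ (4 * q) * ∑' n : ℕ, 1 / (n : ℝ) ^ (5 / 4 : ℝ) + 1, ?_, fun Z hZ => ?_⟩
  · have : 0 ≤ ∑' n : ℕ, 1 / (n : ℝ) ^ (5 / 4 : ℝ) := tsum_nonneg fun n => by positivity
    positivity
  have hmap : ∀ x ∈ (TS q Z ×ˢ TS q Z).filter (fun x => nn x = nn x.swap), nn x ∈ Finset.Icc 1 (Z ^ (2 * q)) := by
    intro x hx
    simp only [Finset.mem_filter, Finset.mem_product] at hx
    rw [Finset.mem_Icc]
    exact ⟨nn_pos hx.1.1 hx.1.2, nn_le hx.1.1 hx.1.2⟩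
  rw [← Finset.sum_fiberwise_of_maps_to hmap]
  have h1 : ∀ n ∈ Finset.Icc 1 (Z ^ (2 * q)),
      ∑ x ∈ ((TS q Z ×ˢ TS q Z).filter (fun x => nn x = nn x.swap)).filter (fun x => nn x = n), (nn x : ℝ) ^ (-(3 / 2 : ℝ)) ≤
        C0 ^ (4 * q) * (1 / (n : ℝ) ^ (5 / 4 : ℝ)) := by
    intro n hn
    rw [Finset.mem_Icc] at hn
    have hn0 : (0 : ℝ) < n := by exact_mod_cast hn.1
    have hn1 : (1 : ℝ) ≤ n := by exact_mod_cast hn.1
    have e1 : ∑ x ∈ ((TS q Z ×ˢ TS q Z).filter (fun x => nn x = nn x.swap)).filter (fun x => nn x = n),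
        (nn x : ℝ) ^ (-(3 / 2 : ℝ)) = ((((TS q Z ×ˢ TS q Z).filter (fun x => nn x = nn x.swap)).filter
          (fun x => nn x = n)).card : ℝ) * (n : ℝ) ^ (-(3 / 2 : ℝ)) := by
      rw [Finset.sum_congr rfl (g := fun _ => (n : ℝ) ^ (-(3 / 2 : ℝ))), Finset.sum_const, nsmul_eq_mul]
      intro x hx
      rw [(Finset.mem_filter.1 hx).2]
    rw [e1]
    have h2 : ((((TS q Z ×ˢ TS q Z).filter (fun x => nn x = nn x.swap)).filter
          (fun x => nn x = n)).card : ℝ) ≤ (n.divisors.card : ℝ) ^ (4 * q) := by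
      exact_mod_cast fiber_card q Z n hn.1
    have h3 : (n.divisors.card : ℝ) ^ (4 * q) ≤ (C0 * (n : ℝ) ^ (1 / (16 * (q + 1)) : ℝ)) ^ (4 * q) :=
      pow_le_pow_left₀ (by positivity) (hd n hn.1) _
    have h4 : (C0 * (n : ℝ) ^ (1 / (16 * (q + 1)) : ℝ)) ^ (4 * q) ≤ C0 ^ (4 * q) * (n : ℝ) ^ (1 / 4 : ℝ) := by
      rw [mul_pow, ← Real.rpow_natCast ((n : ℝ) ^ (1 / (16 * (q + 1)) : ℝ)), ← Real.rpow_mul hn0.le]
      have hq : 1 / (16 * ((q : ℝ) + 1)) * ((4 * q : ℕ) : ℝ) ≤ 1 / 4 := by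
        push_cast
        rw [div_mul_eq_mul_div, one_mul, div_le_div_iff₀ (by positivity) (by norm_num)]
        have : (0 : ℝ) ≤ q := by positivity
        linarith
      have := Real.rpow_le_rpow_of_exponent_le hn1 hq
      gcongr
    calc _ ≤ (C0 ^ (4 * q) * (n : ℝ) ^ (1 / 4 : ℝ)) * (n : ℝ) ^ (-(3 / 2 : ℝ)) := by
          gcongr
          exact h2.trans (h3.trans h4)
      _ = C0 ^ (4 * q) * ((n : ℝ) ^ (1 / 4 : ℝ) * (n : ℝ) ^ (-(3 / 2 : ℝ))) := by ring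
      _ = _ := by
          have e3 : 1 / (n : ℝ) ^ (5 / 4 : ℝ) = (n : ℝ) ^ (-(5 / 4 : ℝ)) := by rw [one_div, Real.rpow_neg hn0.le]
          rw [← Real.rpow_add hn0, e3]
          norm_num
  calc _ ≤ ∑ n ∈ Finset.Icc 1 (Z ^ (2 * q)), C0 ^ (4 * q) * (1 / (n : ℝ) ^ (5 / 4 : ℝ)) := Finset.sum_le_sum h1
    _ = C0 ^ (4 * q) * ∑ n ∈ Finset.Icc 1 (Z ^ (2 * q)), (1 / (n : ℝ) ^ (5 / 4 : ℝ)) := by rw [Finset.mul_sum]
    _ ≤ C0 ^ (4 * q) * ∑' n : ℕ, 1 / (n : ℝ) ^ (5 / 4 : ℝ) := by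
        gcongr
        exact hs.sum_le_tsum _ fun n _ => by positivity
    _ ≤ _ := by linarith

/-- the mean value -/
lemma mvq (q : ℕ) : ∃ C : ℝ, 0 < C ∧ ∀ (Z : ℕ) (Y : ℝ), 1 ≤ Z → (Z : ℝ) ^ (4 * q) ≤ Y →
    ∑ p ∈ TS q Z, ∑ p' ∈ TS q Z, Ht p ^ (-(3 / 4 : ℝ)) * Ht p' ^ (-(3 / 4 : ℝ)) * mm Y (Lam p - Lam p') ≤
      C * Y ^ 2 := by
  obtain ⟨C, hC, hd⟩ := diag q
  refine ⟨C + 4, by positivity, fun Z Y hZ hY => ?_⟩
  have hZ1 : (1 : ℝ) ≤ Z := by exact_mod_cast hZ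
  have hY0 : 0 ≤ Y := le_trans (by positivity) hY
  have ht : ∀ p ∈ TS q Z, ∀ p' ∈ TS q Z, Ht p ^ (-(3 / 4 : ℝ)) * Ht p' ^ (-(3 / 4 : ℝ)) * mm Y (Lam p - Lam p') ≤
      (if nn (p, p') = nn (p, p').swap then (nn (p, p') : ℝ) ^ (-(3 / 2 : ℝ)) * Y ^ 2 else 0) + 4 * (Z : ℝ) ^ (4 * q) := by
    intro p hp p' hp'
    have a1 := Ht_ge hp
    have a2 := Ht_ge hp'
    have a3 := nn_pos hp hp'
    have a4 := nn_pos hp' hp
    have a5 : (0 : ℝ) < nn (p, p') := by exact_mod_cast a3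
    rw [← Real.mul_rpow (by linarith) (by linarith), Ht_mul]
    rw [Prod.swap_prod_mk]
    by_cases h : nn (p, p') = nn (p', p)
    · rw [if_pos h, ← h]
      have e : ((nn (p, p') : ℝ) * nn (p, p')) ^ (-(3 / 4 : ℝ)) = (nn (p, p') : ℝ) ^ (-(3 / 2 : ℝ)) := by
        rw [← pow_two, ← Real.rpow_natCast, ← Real.rpow_mul a5.le]
        norm_num
      rw [e]
      have := mm_le hY0 (Lam p - Lam p')
      have h5 : (0 : ℝ) ≤ 4 * (Z : ℝ) ^ (4 * q) := by positivity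
      have h6 : (nn (p, p') : ℝ) ^ (-(3 / 2 : ℝ)) * mm Y (Lam p - Lam p') ≤ (nn (p, p') : ℝ) ^ (-(3 / 2 : ℝ)) * Y ^ 2 := by
        gcongr
      linarith
    · rw [if_neg h, zero_add]
      have hsep := log_sep a3 a4 (nn_le hp hp') (nn_le hp' hp) h
      rw [← Lam_sub hp hp'] at hsep
      have hN : (0 : ℝ) < ((Z ^ (2 * q) : ℕ) : ℝ) := by positivity
      have hne : Lam p - Lam p' ≠ 0 := by
        intro h0
        rw [h0, abs_zero] at hsep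
        have : (0 : ℝ) < 1 / ((Z ^ (2 * q) : ℕ) : ℝ) := by positivity
        linarith
      have h5 := mm_le' hY0 hne
      have h6 : (2 / |Lam p - Lam p'|) ^ 2 ≤ 4 * (Z : ℝ) ^ (4 * q) := by
        have h7 : 2 / |Lam p - Lam p'| ≤ 2 * (Z : ℝ) ^ (2 * q) := by
          rw [div_le_iff₀ (abs_pos.2 hne)]
          rw [div_le_iff₀ hN] at hsep
          push_cast at hsep
          linarith
        calc _ ≤ (2 * (Z : ℝ) ^ (2 * q)) ^ 2 := pow_le_pow_left₀ (by positivity) h7 2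
          _ = _ := by rw [mul_pow, ← pow_mul]; norm_num; congr 1; ring
      have h8 : ((nn (p, p') : ℝ) * nn (p', p)) ^ (-(3 / 4 : ℝ)) ≤ 1 := by
        apply Real.rpow_le_one_of_one_le_of_nonpos _ (by norm_num)
        have b1 : (1 : ℝ) ≤ nn (p, p') := by exact_mod_cast a3
        have b2 : (1 : ℝ) ≤ nn (p', p) := by exact_mod_cast a4
        nlinarith
      calc _ ≤ 1 * mm Y (Lam p - Lam p') := by
            have := mm_nn Y (Lam p - Lam p')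
            gcongr
        _ ≤ _ := by rw [one_mul]; exact h5.trans h6
  calc _ ≤ ∑ p ∈ TS q Z, ∑ p' ∈ TS q Z, ((if nn (p, p') = nn (p, p').swap then
        (nn (p, p') : ℝ) ^ (-(3 / 2 : ℝ)) * Y ^ 2 else 0) + 4 * (Z : ℝ) ^ (4 * q)) :=
        Finset.sum_le_sum fun p hp => Finset.sum_le_sum fun p' hp' => ht p hp p' hp'
    _ = ∑ x ∈ TS q Z ×ˢ TS q Z, ((if nn x = nn x.swap then (nn x : ℝ) ^ (-(3 / 2 : ℝ)) * Y ^ 2 else 0) +
        4 * (Z : ℝ) ^ (4 * q)) := by rw [Finset.sum_product]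
    _ = (∑ x ∈ (TS q Z ×ˢ TS q Z).filter (fun x => nn x = nn x.swap), (nn x : ℝ) ^ (-(3 / 2 : ℝ))) * Y ^ 2 +
        ((TS q Z).card : ℝ) ^ 2 * (4 * (Z : ℝ) ^ (4 * q)) := by
        rw [Finset.sum_add_distrib, ← Finset.sum_filter, Finset.sum_mul, Finset.sum_const, Finset.card_product,
          nsmul_eq_mul]
        push_cast
        ring
    _ ≤ C * Y ^ 2 + ((Z : ℝ) ^ (2 * q)) ^ 2 * (4 * (Z : ℝ) ^ (4 * q)) := by
        have := hd Z hZ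
        have := card_TS q Z
        gcongr
    _ = C * Y ^ 2 + 4 * ((Z : ℝ) ^ (4 * q)) ^ 2 := by
        rw [← pow_mul, ← pow_mul]
        have e : 4 * q * 2 = 2 * q * 2 + 4 * q := by ring
        rw [e, pow_add]
        ring
    _ ≤ C * Y ^ 2 + 4 * Y ^ 2 := by gcongr
    _ = _ := by ring

/-- polynomials over tuples against two measures -/
lemma K1 (q : ℕ) : ∃ C : ℝ, 0 < C ∧ ∀ (Z : ℕ) (T m B : ℝ), 1 ≤ Z → 0 ≤ T → (Z : ℝ) ^ (4 * q) ≤ T + 1 → 0 ≤ m →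
    ∀ (μ₁ μ₂ : Measure ℝ) [SFinite μ₁] [SFinite μ₂], (∀ᵐ t ∂μ₁, t ∈ Icc 0 T) → (∀ᵐ t ∂μ₂, t ∈ Icc 0 T) →
    (∀ x : ℝ, μ₁ (Icc x (x + 1)) ≤ ENNReal.ofReal m) → (∀ x : ℝ, μ₂ (Icc x (x + 1)) ≤ ENNReal.ofReal m) →
    ∀ b : (Fin q → ℕ × ℕ) → ℂ, (∀ p ∈ TS q Z, ‖b p‖ ≤ B * Ht p ^ (-(7 / 8 : ℝ))) →
    (∫⁻ t, (∫⁻ s, ‖tp (TS q Z) b Lam (t - s)‖ₑ ^ 2 ∂μ₂) ∂μ₁) ≤ ENNReal.ofReal (C * (m * (T + 1)) ^ 2 * B ^ 2) := by
  obtain ⟨C, hC, hmv⟩ := mvq q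
  refine ⟨9 * 65536 * C, by positivity, fun Z T m B hZ hT hZT hm μ₁ μ₂ _ _ h1 h2 m1 m2 b hb => ?_⟩
  have hl : ∀ p ∈ TS q Z, Real.log (Ht p) ≤ 16 * Ht p ^ (1 / 16 : ℝ) := by
    intro p hp
    have h3 := Real.log_le_rpow_div (x := Ht p) (ε := 1 / 16) (by linarith [Ht_ge hp]) (by norm_num)
    linarith
  have hH : ∀ p ∈ TS q Z, ‖b p‖ ≤ 256 * B * Ht p ^ (-(3 / 4 : ℝ)) ∧ ‖b p‖ * |Lam p| ≤ 256 * B * Ht p ^ (-(3 / 4 : ℝ)) ∧
      ‖b p‖ * |Lam p| ^ 2 ≤ 256 * B * Ht p ^ (-(3 / 4 : ℝ)) := by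
    intro p hp
    have a1 := Ht_ge hp
    have a0 : 0 < Ht p := by linarith
    have a2 := (Lam_le hp).trans (hl p hp)
    have a3 := hb p hp
    have hB : 0 ≤ B := by
      by_contra hB
      push Not at hB
      have : B * Ht p ^ (-(7 / 8 : ℝ)) < 0 := mul_neg_of_neg_of_pos hB (by positivity)
      linarith [norm_nonneg (b p)]
    have e1 : Ht p ^ (-(7 / 8 : ℝ)) * (16 * Ht p ^ (1 / 16 : ℝ)) ^ 2 = 256 * Ht p ^ (-(3 / 4 : ℝ)) := by
      rw [mul_pow, ← Real.rpow_natCast (Ht p ^ (1 / 16 : ℝ)), ← Real.rpow_mul a0.le]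
      have : Ht p ^ (-(3 / 4 : ℝ)) = Ht p ^ (-(7 / 8 : ℝ)) * Ht p ^ ((1 / 16 : ℝ) * (2 : ℕ)) := by
        rw [← Real.rpow_add a0]
        norm_num
      rw [this]
      ring
    have a4 : (1 : ℝ) ≤ 16 * Ht p ^ (1 / 16 : ℝ) := by
      have := Real.one_le_rpow a1 (show (0 : ℝ) ≤ 1 / 16 by norm_num)
      linarith
    obtain ⟨w, hw⟩ : ∃ w : ℝ, w = 16 * Ht p ^ (1 / 16 : ℝ) := ⟨_, rfl⟩
    rw [← hw] at e1 a4 a2
    have a5 : 0 ≤ Ht p ^ (-(7 / 8 : ℝ)) := by positivity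
    have t2 : ‖b p‖ * w ^ 2 ≤ 256 * B * Ht p ^ (-(3 / 4 : ℝ)) := by
      calc ‖b p‖ * w ^ 2 ≤ (B * Ht p ^ (-(7 / 8 : ℝ))) * w ^ 2 := by gcongr
        _ = B * (Ht p ^ (-(7 / 8 : ℝ)) * w ^ 2) := by ring
        _ = _ := by rw [e1]; ring
    have hn := norm_nonneg (b p)
    have hw2 : w ≤ w ^ 2 := by nlinarith
    refine ⟨?_, ?_, ?_⟩
    · refine le_trans ?_ t2
      nlinarith
    · refine le_trans ?_ t2
      exact mul_le_mul_of_nonneg_left (a2.trans hw2) hn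
    · refine le_trans ?_ t2
      exact mul_le_mul_of_nonneg_left (pow_le_pow_left₀ (abs_nonneg _) a2 2) hn
  refine (tp2 hT hm h1 h2 m1 m2 (TS q Z) b Lam (fun p => 256 * B * Ht p ^ (-(3 / 4 : ℝ))) (fun p hp => (hH p hp).1)
    (fun p hp => (hH p hp).2.1) (fun p hp => (hH p hp).2.2)).trans (ENNReal.ofReal_le_ofReal ?_)
  have e2 : ∑ p ∈ TS q Z, ∑ p' ∈ TS q Z, 256 * B * Ht p ^ (-(3 / 4 : ℝ)) * (256 * B * Ht p' ^ (-(3 / 4 : ℝ))) *
      mm (T + 1) (Lam p - Lam p') = 65536 * B ^ 2 * ∑ p ∈ TS q Z, ∑ p' ∈ TS q Z,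
        Ht p ^ (-(3 / 4 : ℝ)) * Ht p' ^ (-(3 / 4 : ℝ)) * mm (T + 1) (Lam p - Lam p') := by
    rw [Finset.mul_sum]
    refine Finset.sum_congr rfl fun p _ => ?_
    rw [Finset.mul_sum]
    refine Finset.sum_congr rfl fun p' _ => ?_
    ring
  rw [e2]
  calc 9 * m ^ 2 * (65536 * B ^ 2 * ∑ p ∈ TS q Z, ∑ p' ∈ TS q Z,
        Ht p ^ (-(3 / 4 : ℝ)) * Ht p' ^ (-(3 / 4 : ℝ)) * mm (T + 1) (Lam p - Lam p')) ≤
        9 * m ^ 2 * (65536 * B ^ 2 * (C * (T + 1) ^ 2)) := by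
        have := hmv Z (T + 1) hZ hZT
        gcongr
    _ = _ := by ring

end Pool.Agent.H471.EP
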