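import Pool.Agent.H471.CR.Ker

set_option autoImplicit false

/-!
Mean values of trigonometric polynomials against products of measures.
-/

namespace Pool.Agent.H471.EP

open Complex MeasureTheory Set ENNReal
open Pool.Agent.H471.QP (ex ex_add norm_ex ex_cont conj_ex ex_deriv)

/-- the mean of a character -/
noncomputable def mm (Y ξ : ℝ) : ℝ := ‖∫ s in (0:ℝ)..Y, ex (s * ξ)‖ ^ 2

lemma mm_nn (Y ξ : ℝ) : 0 ≤ mm Y ξ := by unfold mm; positivity

lemma mm_le {Y : ℝ} (hY : 0 ≤ Y) (ξ : ℝ) : mm Y ξ ≤ Y ^ 2 := by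
  unfold mm
  exact pow_le_pow_left₀ (norm_nonneg _) (Pool.Agent.H471.CR.int_b hY ξ).1 2

lemma mm_le' {Y : ℝ} (hY : 0 ≤ Y) {ξ : ℝ} (hξ : ξ ≠ 0) : mm Y ξ ≤ (2 / |ξ|) ^ 2 := by
  unfold mm
  exact pow_le_pow_left₀ (norm_nonneg _) ((Pool.Agent.H471.CR.int_b hY ξ).2 hξ) 2

/-- a trigonometric polynomial -/
noncomputable def tp {ι : Type} (S : Finset ι) (b : ι → ℂ) (ξ : ι → ℝ) (u : ℝ) : ℂ := ∑ q ∈ S, b q * ex (u * ξ q)

lemma tp_cont {ι : Type} (S : Finset ι) (b : ι → ℂ) (ξ : ι → ℝ) : Continuous (tp S b ξ) := by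
  unfold tp
  apply continuous_finsetSum
  intro q _
  exact continuous_const.mul (ex_cont.comp (by fun_prop))

lemma tp_deriv {ι : Type} (S : Finset ι) (b : ι → ℂ) (ξ : ι → ℝ) (u : ℝ) :
    HasDerivAt (tp S b ξ) (tp S (fun q => b q * (I * ξ q)) ξ u) u := by
  unfold tp
  apply HasDerivAt.fun_sum
  intro q _
  have := (ex_deriv (ξ q) u).const_mul (b q)
  have e : b q * (I * ξ q) * ex (u * ξ q) = b q * ((I * ξ q) * ex (u * ξ q)) := by ring
  rw [e]
  exact this

/-- the double mean -/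
lemma tp_mean {ι : Type} (S : Finset ι) (b : ι → ℂ) (ξ : ι → ℝ) {Y : ℝ} (hY : 0 ≤ Y) :
    ∫⁻ z in Icc 0 Y, (∫⁻ y in Icc 0 Y, ‖tp S b ξ (y - z)‖ₑ ^ 2) ≤
      ENNReal.ofReal (∑ q ∈ S, ∑ r ∈ S, ‖b q‖ * ‖b r‖ * mm Y (ξ q - ξ r)) := by
  have hc := tp_cont S b ξ
  have hce : ∀ c : ℝ, Continuous (fun y : ℝ => ex (y * c)) := fun c => ex_cont.comp (by fun_prop)
  -- the inner integral
  have h1 : ∀ z : ℝ, ∫⁻ y in Icc 0 Y, ‖tp S b ξ (y - z)‖ₑ ^ 2 = ENNReal.ofReal (∫ y in (0:ℝ)..Y, ‖tp S b ξ (y - z)‖ ^ 2) := by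
    intro z
    have i1 : Continuous (fun y : ℝ => ‖tp S b ξ (y - z)‖ ^ 2) :=
      (hc.comp (continuous_id.sub continuous_const)).norm.pow 2
    have i2 : IntegrableOn (fun y : ℝ => ‖tp S b ξ (y - z)‖ ^ 2) (Icc 0 Y) volume :=
      i1.continuousOn.integrableOn_compact isCompact_Icc
    rw [intervalIntegral.integral_of_le hY, ← integral_Icc_eq_integral_Ioc,
      ofReal_integral_eq_lintegral_ofReal i2 (Filter.Eventually.of_forall fun y => by positivity)]
    refine lintegral_congr fun y => ?_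
    rw [ENNReal.ofReal_pow (norm_nonneg _), ofReal_norm]
  have h2 : ∀ z : ℝ, ((∫ y in (0:ℝ)..Y, ‖tp S b ξ (y - z)‖ ^ 2 : ℝ) : ℂ) = ∑ q ∈ S, ∑ r ∈ S,
      (b q * (starRingEnd ℂ) (b r) * (∫ y in (0:ℝ)..Y, ex (y * (ξ q - ξ r)))) * ex (z * (ξ r - ξ q)) := by
    intro z
    rw [← intervalIntegral.integral_ofReal]
    have e1 : ∀ y : ℝ, ((‖tp S b ξ (y - z)‖ ^ 2 : ℝ) : ℂ) = ∑ q ∈ S, ∑ r ∈ S,
        (b q * (starRingEnd ℂ) (b r) * ex (z * (ξ r - ξ q))) * ex (y * (ξ q - ξ r)) := by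
      intro y
      have h3 := Complex.mul_conj (tp S b ξ (y - z))
      rw [Complex.normSq_eq_norm_sq] at h3
      rw [← h3]
      unfold tp
      rw [map_sum, Finset.sum_mul_sum]
      refine Finset.sum_congr rfl fun q _ => Finset.sum_congr rfl fun r _ => ?_
      rw [map_mul, conj_ex]
      have : ex ((y - z) * ξ q) * ex (-((y - z) * ξ r)) = ex (z * (ξ r - ξ q)) * ex (y * (ξ q - ξ r)) := by
        rw [← ex_add, ← ex_add]
        congr 1
        ring
      calc b q * ex ((y - z) * ξ q) * ((starRingEnd ℂ) (b r) * ex (-((y - z) * ξ r))) =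
            b q * (starRingEnd ℂ) (b r) * (ex ((y - z) * ξ q) * ex (-((y - z) * ξ r))) := by ring
        _ = _ := by rw [this]; ring
    simp_rw [e1]
    rw [intervalIntegral.integral_finsetSum fun q _ => ?_]
    · refine Finset.sum_congr rfl fun q _ => ?_
      rw [intervalIntegral.integral_finsetSum fun r _ => ?_]
      · refine Finset.sum_congr rfl fun r _ => ?_
        rw [intervalIntegral.integral_const_mul]
        ring
      · exact (continuous_const.mul (hce _)).intervalIntegrable _ _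
    · exact (continuous_finsetSum _ fun r _ => continuous_const.mul (hce _)).intervalIntegrable _ _
  have h3 : Continuous (fun z : ℝ => ∫ y in (0:ℝ)..Y, ‖tp S b ξ (y - z)‖ ^ 2) := by
    have e1 : (fun z : ℝ => ∫ y in (0:ℝ)..Y, ‖tp S b ξ (y - z)‖ ^ 2) = fun z => (∑ q ∈ S, ∑ r ∈ S,
      (b q * (starRingEnd ℂ) (b r) * (∫ y in (0:ℝ)..Y, ex (y * (ξ q - ξ r)))) * ex (z * (ξ r - ξ q))).re := by
      funext z
      rw [← h2 z, Complex.ofReal_re]
    rw [e1]
    apply Complex.continuous_re.comp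
    exact continuous_finsetSum _ fun q _ => continuous_finsetSum _ fun r _ => continuous_const.mul (hce _)
  simp_rw [h1]
  have h4 : ∫⁻ z in Icc 0 Y, ENNReal.ofReal (∫ y in (0:ℝ)..Y, ‖tp S b ξ (y - z)‖ ^ 2) =
      ENNReal.ofReal (∫ z in (0:ℝ)..Y, ∫ y in (0:ℝ)..Y, ‖tp S b ξ (y - z)‖ ^ 2) := by
    rw [intervalIntegral.integral_of_le hY, ← integral_Icc_eq_integral_Ioc,
      ofReal_integral_eq_lintegral_ofReal (h3.continuousOn.integrableOn_compact isCompact_Icc)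
        (Filter.Eventually.of_forall fun z => intervalIntegral.integral_nonneg hY fun y _ => by positivity)]
  rw [h4]
  apply ENNReal.ofReal_le_ofReal
  have h5 : ((∫ z in (0:ℝ)..Y, ∫ y in (0:ℝ)..Y, ‖tp S b ξ (y - z)‖ ^ 2 : ℝ) : ℂ) = ∑ q ∈ S, ∑ r ∈ S,
      (b q * (starRingEnd ℂ) (b r)) * (mm Y (ξ q - ξ r) : ℂ) := by
    rw [← intervalIntegral.integral_ofReal]
    simp_rw [h2]
    rw [intervalIntegral.integral_finsetSum fun q _ => ?_]
    · refine Finset.sum_congr rfl fun q _ => ?_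
      rw [intervalIntegral.integral_finsetSum fun r _ => ?_]
      · refine Finset.sum_congr rfl fun r _ => ?_
        rw [intervalIntegral.integral_const_mul]
        have e2 : ∫ z in (0:ℝ)..Y, ex (z * (ξ r - ξ q)) = (starRingEnd ℂ) (∫ z in (0:ℝ)..Y, ex (z * (ξ q - ξ r))) := by
          rw [intervalIntegral.integral_of_le hY, intervalIntegral.integral_of_le hY, ← integral_conj]
          congr 1
          funext z
          rw [conj_ex]
          congr 1
          ring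
        have e3 : (mm Y (ξ q - ξ r) : ℂ) = (∫ z in (0:ℝ)..Y, ex (z * (ξ q - ξ r))) *
            (starRingEnd ℂ) (∫ z in (0:ℝ)..Y, ex (z * (ξ q - ξ r))) := by
          rw [Complex.mul_conj, Complex.normSq_eq_norm_sq]
          rfl
        rw [e2, e3]
        ring
      · exact (continuous_const.mul (hce _)).intervalIntegrable _ _
    · exact (continuous_finsetSum _ fun r _ => continuous_const.mul (hce _)).intervalIntegrable _ _
  have h6 : 0 ≤ ∫ z in (0:ℝ)..Y, ∫ y in (0:ℝ)..Y, ‖tp S b ξ (y - z)‖ ^ 2 :=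
    intervalIntegral.integral_nonneg hY fun z _ => intervalIntegral.integral_nonneg hY fun y _ => by positivity
  have h7 : ∫ z in (0:ℝ)..Y, ∫ y in (0:ℝ)..Y, ‖tp S b ξ (y - z)‖ ^ 2 =
      ‖∑ q ∈ S, ∑ r ∈ S, (b q * (starRingEnd ℂ) (b r)) * (mm Y (ξ q - ξ r) : ℂ)‖ := by
    rw [← h5, Complex.norm_real, Real.norm_of_nonneg h6]
  rw [h7]
  refine (norm_sum_le _ _).trans (Finset.sum_le_sum fun q _ => (norm_sum_le _ _).trans (Finset.sum_le_sum fun r _ => ?_))
  rw [norm_mul, norm_mul, RCLike.norm_conj, Complex.norm_real, Real.norm_of_nonneg (mm_nn _ _)]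

end Pool.Agent.H471.EP
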