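import Pool.Agent.H471.EP.SobB
import Pool.Agent.H471.EP.SobC

set_option autoImplicit false

/-!
Mean values of trigonometric polynomials against products of measures.
-/

namespace Pool.Agent.H471.EP

open Complex MeasureTheory Set ENNReal
open Pool.Agent.H471.QP (ex ex_add norm_ex ex_cont conj_ex ex_deriv)

lemma lin3 (μ : Measure ℝ) [SFinite μ] {N0 N1 N2 : ℝ → ℝ → ℝ≥0∞} (m0 : Measurable (Function.uncurry N0))
    (m1 : Measurable (Function.uncurry N1)) {W : ℝ≥0∞} (w0 : (∫⁻ z, (∫⁻ y, N0 z y ∂μ) ∂μ) ≤ W)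
    (w1 : (∫⁻ z, (∫⁻ y, N1 z y ∂μ) ∂μ) ≤ W) (w2 : (∫⁻ z, (∫⁻ y, N2 z y ∂μ) ∂μ) ≤ W) :
    (∫⁻ z, (∫⁻ y, (4 * N0 z y + 4 * N1 z y + N2 z y) ∂μ) ∂μ) ≤ 9 * W := by
  have z0 : ∀ z, Measurable (N0 z) := fun z => m0.comp (measurable_const.prodMk measurable_id)
  have z1 : ∀ z, Measurable (N1 z) := fun z => m1.comp (measurable_const.prodMk measurable_id)
  have l0 : Measurable (fun z : ℝ => ∫⁻ y, N0 z y ∂μ) := m0.lintegral_prod_right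
  have l1 : Measurable (fun z : ℝ => ∫⁻ y, N1 z y ∂μ) := m1.lintegral_prod_right
  have e1 : ∀ z : ℝ, (∫⁻ y, (4 * N0 z y + 4 * N1 z y + N2 z y) ∂μ) =
      4 * (∫⁻ y, N0 z y ∂μ) + 4 * (∫⁻ y, N1 z y ∂μ) + ∫⁻ y, N2 z y ∂μ := by
    intro z
    have u : Measurable (fun y => 4 * N0 z y + 4 * N1 z y) := ((z0 z).const_mul 4).add ((z1 z).const_mul 4)
    rw [← lintegral_const_mul _ (z0 z), ← lintegral_const_mul _ (z1 z), ← lintegral_add_left ((z0 z).const_mul 4),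
      ← lintegral_add_left u]
  calc _ = ∫⁻ z, (4 * (∫⁻ y, N0 z y ∂μ) + 4 * (∫⁻ y, N1 z y ∂μ) + ∫⁻ y, N2 z y ∂μ) ∂μ := lintegral_congr e1
    _ = 4 * (∫⁻ z, (∫⁻ y, N0 z y ∂μ) ∂μ) + 4 * (∫⁻ z, (∫⁻ y, N1 z y ∂μ) ∂μ) + ∫⁻ z, (∫⁻ y, N2 z y ∂μ) ∂μ := by
        have u : Measurable (fun z => 4 * (∫⁻ y, N0 z y ∂μ) + 4 * (∫⁻ y, N1 z y ∂μ)) :=
          (l0.const_mul 4).add (l1.const_mul 4)
        rw [← lintegral_const_mul _ l0, ← lintegral_const_mul _ l1, ← lintegral_add_left (l0.const_mul 4),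
          ← lintegral_add_left u]
    _ ≤ 4 * W + 4 * W + W := by gcongr
    _ = _ := by ring

lemma tp_key {T : ℝ} (hT : 0 ≤ T) {ι : Type} (S : Finset ι) (ξ : ι → ℝ) (β : ι → ℝ) (c : ι → ℂ)
    (hc : ∀ q ∈ S, ‖c q‖ ≤ β q) :
    (∫⁻ z in Icc 0 T, (∫⁻ y in Icc 0 T, ‖tp S c ξ (y - z)‖ₑ ^ 2)) ≤
      ENNReal.ofReal (∑ q ∈ S, ∑ r ∈ S, β q * β r * mm T (ξ q - ξ r)) := by
  refine (tp_mean S c ξ hT).trans (ENNReal.ofReal_le_ofReal ?_)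
  refine Finset.sum_le_sum fun q hq => Finset.sum_le_sum fun r hr => ?_
  have a1 := hc q hq
  have a2 := hc r hr
  have a3 := mm_nn T (ξ q - ξ r)
  have a4 := (norm_nonneg _).trans a1
  gcongr

lemma tp_meas {ι : Type} (S : Finset ι) (ξ : ι → ℝ) (c : ι → ℂ) :
    Measurable (Function.uncurry fun z y : ℝ => ‖tp S c ξ (y - z)‖ₑ ^ 2) :=
  (((tp_cont S c ξ).comp (continuous_snd.sub continuous_fst)).enorm.measurable).pow_const 2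

/-- trigonometric polynomials against two measures -/
lemma tp2 {μ₁ μ₂ : Measure ℝ} [SFinite μ₁] [SFinite μ₂] {T m : ℝ} (hT : 0 ≤ T) (hm : 0 ≤ m)
    (h1 : ∀ᵐ t ∂μ₁, t ∈ Icc 0 T)
    (h2 : ∀ᵐ t ∂μ₂, t ∈ Icc 0 T) (m1 : ∀ x : ℝ, μ₁ (Icc x (x + 1)) ≤ ENNReal.ofReal m)
    (m2 : ∀ x : ℝ, μ₂ (Icc x (x + 1)) ≤ ENNReal.ofReal m)
    {ι : Type} (S : Finset ι) (b : ι → ℂ) (ξ : ι → ℝ) (β : ι → ℝ) (h0 : ∀ q ∈ S, ‖b q‖ ≤ β q)
    (hb1 : ∀ q ∈ S, ‖b q‖ * |ξ q| ≤ β q) (hb2 : ∀ q ∈ S, ‖b q‖ * |ξ q| ^ 2 ≤ β q) :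
    (∫⁻ t, (∫⁻ s, ‖tp S b ξ (t - s)‖ₑ ^ 2 ∂μ₂) ∂μ₁) ≤
      ENNReal.ofReal (9 * m ^ 2 * ∑ q ∈ S, ∑ r ∈ S, β q * β r * mm (T + 1) (ξ q - ξ r)) := by
  have hT1 : 0 ≤ T + 1 := by linarith
  have d1 : ∀ x, HasDerivAt (tp S b ξ) (tp S (fun q => b q * (I * ξ q)) ξ x) x := fun x => tp_deriv S b ξ x
  have d2 : ∀ x, HasDerivAt (tp S (fun q => b q * (I * ξ q)) ξ) (tp S (fun q => b q * (I * ξ q) * (I * ξ q)) ξ x) x :=
    fun x => tp_deriv S _ ξ x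
  have n1 : ∀ q ∈ S, ‖b q * (I * ξ q)‖ ≤ β q := by
    intro q hq
    rw [norm_mul, norm_mul, Complex.norm_I, one_mul, Complex.norm_real, Real.norm_eq_abs]
    exact hb1 q hq
  have n2 : ∀ q ∈ S, ‖b q * (I * ξ q) * (I * ξ q)‖ ≤ β q := by
    intro q hq
    rw [norm_mul, norm_mul, norm_mul, Complex.norm_I, one_mul, Complex.norm_real, Real.norm_eq_abs]
    calc _ = ‖b q‖ * |ξ q| ^ 2 := by ring
      _ ≤ _ := hb2 q hq
  have k1 := sob2 h1 h2 m1 m2 d1 d2 (tp_cont S _ ξ)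
  refine k1.trans ?_
  have w0 := tp_key hT1 S ξ β b h0
  have w1 := tp_key hT1 S ξ β _ n1
  have w2 := tp_key hT1 S ξ β _ n2
  generalize (∑ q ∈ S, ∑ r ∈ S, β q * β r * mm (T + 1) (ξ q - ξ r)) = W at *
  have k2 := lin3 (volume.restrict (Icc 0 (T + 1))) (tp_meas S ξ b) (tp_meas S ξ fun q => b q * (I * ξ q)) w0 w1 w2
  calc _ ≤ ENNReal.ofReal m ^ 2 * (9 * ENNReal.ofReal W) := by
        apply mul_le_mul_right
        exact k2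
    _ = ENNReal.ofReal (9 * m ^ 2 * W) := by
        have : ENNReal.ofReal 9 = 9 := by norm_num
        rw [ENNReal.ofReal_mul (by positivity), ENNReal.ofReal_mul (by norm_num), ENNReal.ofReal_pow hm, this]
        ring

end Pool.Agent.H471.EP
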