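import Mathlib

set_option autoImplicit false

/-!
Mean values of trigonometric polynomials against products of measures.
-/

namespace Pool.Agent.H471.EP

open Complex MeasureTheory Set ENNReal

/-- a bound at a point -/
lemma sob_pt {f f1 : ℝ → ℂ} (hf : ∀ x, HasDerivAt f (f1 x) x) (hf1 : Continuous f1) (x : ℝ) :
    ‖f x‖ₑ ^ 2 ≤ ∫⁻ y in Icc x (x + 1), (2 * ‖f y‖ₑ ^ 2 + ‖f1 y‖ₑ ^ 2) := by
  have hfc : Continuous f := continuous_iff_continuousAt.2 fun x => (hf x).continuousAt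
  have hd : ∀ y, HasDerivAt (fun y => ‖f y‖ ^ 2) (2 * inner ℝ (f y) (f1 y)) y := fun y => (hf y).norm_sq
  have hgc : Continuous (fun y => ‖f y‖ ^ 2 + ‖f1 y‖ ^ 2) := (hfc.norm.pow 2).add (hf1.norm.pow 2)
  have hic : Continuous (fun y => 2 * inner ℝ (f y) (f1 y)) := continuous_const.mul (hfc.inner hf1)
  -- pointwise in y
  have h1 : ∀ y ∈ Icc x (x + 1), ‖f x‖ ^ 2 ≤ ‖f y‖ ^ 2 + ∫ z in x..(x + 1), (‖f z‖ ^ 2 + ‖f1 z‖ ^ 2) := by
    intro y hy
    have h2 := intervalIntegral.integral_eq_sub_of_hasDerivAt (a := x) (b := y) (fun z _ => hd z)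
      (hic.intervalIntegrable _ _)
    have h3 : ‖∫ z in x..y, 2 * inner ℝ (f z) (f1 z)‖ ≤ ∫ z in x..y, (‖f z‖ ^ 2 + ‖f1 z‖ ^ 2) := by
      apply intervalIntegral.norm_integral_le_of_norm_le hy.1 _ (hgc.intervalIntegrable _ _)
      refine Filter.Eventually.of_forall fun z _ => ?_
      rw [Real.norm_eq_abs, abs_mul, abs_two]
      have := abs_real_inner_le_norm (f z) (f1 z)
      nlinarith [sq_nonneg (‖f z‖ - ‖f1 z‖)]
    have h4 : ∫ z in x..y, (‖f z‖ ^ 2 + ‖f1 z‖ ^ 2) ≤ ∫ z in x..(x + 1), (‖f z‖ ^ 2 + ‖f1 z‖ ^ 2) := by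
      apply intervalIntegral.integral_mono_interval le_rfl hy.1 hy.2 _ (hgc.intervalIntegrable _ _)
      exact Filter.Eventually.of_forall fun z => by positivity
    rw [h2, Real.norm_eq_abs] at h3
    have h5 := neg_abs_le (‖f y‖ ^ 2 - ‖f x‖ ^ 2)
    linarith
  have hx1 : x ≤ x + 1 := by linarith
  have h6 : ‖f x‖ ^ 2 ≤ ∫ y in x..(x + 1), (2 * ‖f y‖ ^ 2 + ‖f1 y‖ ^ 2) := by
    have h7 : ∫ y in x..(x + 1), ‖f x‖ ^ 2 ≤ ∫ y in x..(x + 1), (‖f y‖ ^ 2 +
        ∫ z in x..(x + 1), (‖f z‖ ^ 2 + ‖f1 z‖ ^ 2)) := by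
      apply intervalIntegral.integral_mono_on hx1 (by simp) _ h1
      exact ((hfc.norm.pow 2).add continuous_const).intervalIntegrable _ _
    have i1 : IntervalIntegrable (fun y => ‖f y‖ ^ 2) volume x (x + 1) := (hfc.norm.pow 2).intervalIntegrable _ _
    have i2 : IntervalIntegrable (fun y => ‖f y‖ ^ 2 + ‖f1 y‖ ^ 2) volume x (x + 1) := hgc.intervalIntegrable _ _
    obtain ⟨J, hJ⟩ : ∃ J : ℝ, J = ∫ z in x..(x + 1), (‖f z‖ ^ 2 + ‖f1 z‖ ^ 2) := ⟨_, rfl⟩
    rw [← hJ] at h7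
    have i3 : IntervalIntegrable (fun _ : ℝ => J) volume x (x + 1) := by simp
    have e0 : ∫ y in x..(x + 1), (‖f y‖ ^ 2 + J) = (∫ y in x..(x + 1), ‖f y‖ ^ 2) + J := by
      have := intervalIntegral.integral_add i1 i3
      rw [this]
      simp
    have e0' : ∫ y in x..(x + 1), ‖f x‖ ^ 2 = ‖f x‖ ^ 2 := by simp
    have e1 : ∫ y in x..(x + 1), (2 * ‖f y‖ ^ 2 + ‖f1 y‖ ^ 2) = (∫ y in x..(x + 1), ‖f y‖ ^ 2) + J := by
      have := intervalIntegral.integral_add i1 i2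
      rw [hJ, ← this]
      congr 1
      funext y
      ring
    rw [e1, ← e0]
    rw [e0'] at h7
    exact h7
  have h8 : ‖f x‖ₑ ^ 2 = ENNReal.ofReal (‖f x‖ ^ 2) := by rw [ENNReal.ofReal_pow (norm_nonneg _), ofReal_norm]
  rw [h8]
  have hc2 : Continuous (fun y => 2 * ‖f y‖ ^ 2 + ‖f1 y‖ ^ 2) := (continuous_const.mul (hfc.norm.pow 2)).add (hf1.norm.pow 2)
  have h9 : ∫⁻ y in Icc x (x + 1), (2 * ‖f y‖ₑ ^ 2 + ‖f1 y‖ₑ ^ 2) =
      ENNReal.ofReal (∫ y in x..(x + 1), (2 * ‖f y‖ ^ 2 + ‖f1 y‖ ^ 2)) := by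
    rw [intervalIntegral.integral_of_le hx1, ← integral_Icc_eq_integral_Ioc,
      ofReal_integral_eq_lintegral_ofReal (hc2.continuousOn.integrableOn_compact isCompact_Icc)
        (Filter.Eventually.of_forall fun y => by positivity)]
    refine lintegral_congr fun y => ?_
    rw [ENNReal.ofReal_add (by positivity) (by positivity), ENNReal.ofReal_mul (by norm_num),
      ENNReal.ofReal_pow (norm_nonneg _), ENNReal.ofReal_pow (norm_nonneg _), ofReal_norm, ofReal_norm]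
    norm_num
  rw [h9]
  exact ENNReal.ofReal_le_ofReal h6

/-- against a measure -/
lemma sob_mu {μ : Measure ℝ} [SFinite μ] {T : ℝ} {m : ℝ≥0∞} (hμ : ∀ᵐ t ∂μ, t ∈ Icc 0 T)
    (hm : ∀ x : ℝ, μ (Icc x (x + 1)) ≤ m) {f f1 : ℝ → ℂ} (hf : ∀ x, HasDerivAt f (f1 x) x) (hf1 : Continuous f1) :
    (∫⁻ x, ‖f x‖ₑ ^ 2 ∂μ) ≤ m * ∫⁻ y in Icc 0 (T + 1), (2 * ‖f y‖ₑ ^ 2 + ‖f1 y‖ₑ ^ 2) := by
  have hfc : Continuous f := continuous_iff_continuousAt.2 fun x => (hf x).continuousAt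
  obtain ⟨g, hg⟩ : ∃ g : ℝ → ℝ≥0∞, g = fun y => 2 * ‖f y‖ₑ ^ 2 + ‖f1 y‖ₑ ^ 2 := ⟨_, rfl⟩
  have hgm : Measurable g := by
    rw [hg]
    exact ((hfc.enorm.measurable.pow_const 2).const_mul 2).add (hf1.enorm.measurable.pow_const 2)
  set A : Set (ℝ × ℝ) := {z | z.1 ≤ z.2 ∧ z.2 ≤ z.1 + 1} with hA
  have hAm : MeasurableSet A := by
    apply MeasurableSet.inter
    · exact measurableSet_le measurable_fst measurable_snd
    · exact measurableSet_le measurable_snd (measurable_fst.add_const 1)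
  calc ∫⁻ x, ‖f x‖ₑ ^ 2 ∂μ ≤ ∫⁻ x, (∫⁻ y in Icc 0 (T + 1), A.indicator (fun z => g z.2) (x, y)) ∂μ := by
        apply lintegral_mono_ae
        filter_upwards [hμ] with x hx
        refine (sob_pt hf hf1 x).trans ?_
        have e : ∫⁻ y in Icc x (x + 1), (2 * ‖f y‖ₑ ^ 2 + ‖f1 y‖ₑ ^ 2) =
            ∫⁻ y in Icc x (x + 1), A.indicator (fun z => g z.2) (x, y) := by
          apply setLIntegral_congr_fun measurableSet_Icc
          intro y hy
          simp only
          rw [Set.indicator_of_mem (show (x, y) ∈ A from hy), hg]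
        rw [e]
        apply lintegral_mono_set
        exact Icc_subset_Icc hx.1 (by linarith [hx.2])
    _ = ∫⁻ y in Icc 0 (T + 1), (∫⁻ x, A.indicator (fun z => g z.2) (x, y) ∂μ) := by
        apply lintegral_lintegral_swap
        exact ((hgm.comp measurable_snd).indicator hAm).aemeasurable
    _ ≤ ∫⁻ y in Icc 0 (T + 1), m * g y := by
        apply lintegral_mono
        intro y
        have e : ∀ x, A.indicator (fun z => g z.2) (x, y) = (Icc (y - 1) (y - 1 + 1)).indicator (fun _ => g y) x := by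
          intro x
          by_cases h : x ∈ Icc (y - 1) (y - 1 + 1)
          · rw [Set.indicator_of_mem h, Set.indicator_of_mem]
            rw [hA]
            constructor <;> simp only <;> linarith [h.1, h.2]
          · rw [Set.indicator_of_notMem h, Set.indicator_of_notMem]
            intro h2
            apply h
            have h3 : x ≤ y ∧ y ≤ x + 1 := h2
            constructor <;> linarith [h3.1, h3.2]
        simp_rw [e]
        rw [lintegral_indicator measurableSet_Icc, lintegral_const, Measure.restrict_apply MeasurableSet.univ,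
          univ_inter, mul_comm]
        gcongr
        exact hm _
    _ = _ := by
        rw [lintegral_const_mul _ hgm, hg]

end Pool.Agent.H471.EP
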