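import Pool.Agent.H471.EP.SobA

set_option autoImplicit false

/-!
Mean values of trigonometric polynomials against products of measures.
-/

namespace Pool.Agent.H471.EP

open Complex MeasureTheory Set ENNReal

/-- against two measures -/
lemma sob2 {μ₁ μ₂ : Measure ℝ} [SFinite μ₁] [SFinite μ₂] {T : ℝ} {m : ℝ≥0∞} (h1 : ∀ᵐ t ∂μ₁, t ∈ Icc 0 T)
    (h2 : ∀ᵐ t ∂μ₂, t ∈ Icc 0 T) (m1 : ∀ x : ℝ, μ₁ (Icc x (x + 1)) ≤ m) (m2 : ∀ x : ℝ, μ₂ (Icc x (x + 1)) ≤ m)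
    {f f1 f2 : ℝ → ℂ} (hf : ∀ x, HasDerivAt f (f1 x) x) (hf1 : ∀ x, HasDerivAt f1 (f2 x) x) (hf2 : Continuous f2) :
    (∫⁻ t, (∫⁻ s, ‖f (t - s)‖ₑ ^ 2 ∂μ₂) ∂μ₁) ≤ m ^ 2 * ∫⁻ z in Icc 0 (T + 1), (∫⁻ y in Icc 0 (T + 1),
      (4 * ‖f (y - z)‖ₑ ^ 2 + 4 * ‖f1 (y - z)‖ₑ ^ 2 + ‖f2 (y - z)‖ₑ ^ 2)) := by
  have hfc : Continuous f := continuous_iff_continuousAt.2 fun x => (hf x).continuousAt
  have hfc1 : Continuous f1 := continuous_iff_continuousAt.2 fun x => (hf1 x).continuousAt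
  have c0 : Measurable (fun z : ℝ × ℝ => ‖f (z.1 - z.2)‖ₑ ^ 2) :=
    ((hfc.comp (continuous_fst.sub continuous_snd)).enorm.measurable).pow_const 2
  have c1 : Measurable (fun z : ℝ × ℝ => ‖f1 (z.1 - z.2)‖ₑ ^ 2) :=
    ((hfc1.comp (continuous_fst.sub continuous_snd)).enorm.measurable).pow_const 2
  have c2 : Measurable (fun z : ℝ × ℝ => ‖f2 (z.1 - z.2)‖ₑ ^ 2) :=
    ((hf2.comp (continuous_fst.sub continuous_snd)).enorm.measurable).pow_const 2
  obtain ⟨G, hG⟩ : ∃ G : ℝ → ℝ → ℝ≥0∞, G = fun t z => 2 * ‖f (t - z)‖ₑ ^ 2 + ‖f1 (t - z)‖ₑ ^ 2 := ⟨_, rfl⟩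
  obtain ⟨G1, hG1⟩ : ∃ G : ℝ → ℝ → ℝ≥0∞, G = fun t z => 2 * ‖f1 (t - z)‖ₑ ^ 2 + ‖f2 (t - z)‖ₑ ^ 2 := ⟨_, rfl⟩
  obtain ⟨H, hH⟩ : ∃ H : ℝ → ℝ → ℝ≥0∞, H = fun z y => 4 * ‖f (y - z)‖ₑ ^ 2 + 4 * ‖f1 (y - z)‖ₑ ^ 2 + ‖f2 (y - z)‖ₑ ^ 2 := ⟨_, rfl⟩
  have mG : Measurable (Function.uncurry G) := by
    rw [hG]; exact (c0.const_mul 2).add c1
  have mG1 : Measurable (Function.uncurry G1) := by
    rw [hG1]; exact (c1.const_mul 2).add c2
  have mGt : ∀ z, Measurable (fun t => G t z) := fun z => mG.comp (measurable_id.prodMk measurable_const)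
  have mG1t : ∀ z, Measurable (fun t => G1 t z) := fun z => mG1.comp (measurable_id.prodMk measurable_const)
  have mH : Measurable (Function.uncurry H) := by
    rw [hH]
    exact (((c0.comp measurable_swap).const_mul 4).add ((c1.comp measurable_swap).const_mul 4)).add (c2.comp measurable_swap)
  have eH : ∀ z y, H z y = 2 * G y z + G1 y z := by
    intro z y
    rw [hH, hG, hG1]
    ring
  calc (∫⁻ t, (∫⁻ s, ‖f (t - s)‖ₑ ^ 2 ∂μ₂) ∂μ₁) ≤
        ∫⁻ t, (m * ∫⁻ z in Icc 0 (T + 1), G t z) ∂μ₁ := by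
        apply lintegral_mono
        intro t
        have hd : ∀ x, HasDerivAt (fun s : ℝ => f (t - s)) (-f1 (t - x)) x := by
          intro x
          have h3 := (hf (t - x)).scomp x ((hasDerivAt_id x).const_sub t)
          simp only [neg_smul, one_smul] at h3
          exact h3
        have h4 := sob_mu h2 m2 hd (hfc1.comp (continuous_const.sub continuous_id)).neg
        simp only [enorm_neg] at h4
        rw [hG]
        exact h4
    _ = m * ∫⁻ t, (∫⁻ z in Icc 0 (T + 1), G t z) ∂μ₁ := by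
        rw [lintegral_const_mul]
        exact mG.lintegral_prod_right
    _ = m * ∫⁻ z in Icc 0 (T + 1), (∫⁻ t, G t z ∂μ₁) := by
        congr 1
        exact lintegral_lintegral_swap mG.aemeasurable
    _ ≤ m * ∫⁻ z in Icc 0 (T + 1), (m * ∫⁻ y in Icc 0 (T + 1), H z y) := by
        gcongr with z
        have hd0 : ∀ x, HasDerivAt (fun s : ℝ => f (s - z)) (f1 (x - z)) x := by
          intro x
          have h3 := (hf (x - z)).scomp x ((hasDerivAt_id x).sub_const z)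
          simp only [one_smul] at h3
          exact h3
        have hd1 : ∀ x, HasDerivAt (fun s : ℝ => f1 (s - z)) (f2 (x - z)) x := by
          intro x
          have h3 := (hf1 (x - z)).scomp x ((hasDerivAt_id x).sub_const z)
          simp only [one_smul] at h3
          exact h3
        have k0 : (∫⁻ t, ‖f (t - z)‖ₑ ^ 2 ∂μ₁) ≤ m * ∫⁻ y in Icc 0 (T + 1), G y z := by
          rw [hG]
          exact sob_mu h1 m1 hd0 (hfc1.comp (continuous_id.sub continuous_const))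
        have k1 : (∫⁻ t, ‖f1 (t - z)‖ₑ ^ 2 ∂μ₁) ≤ m * ∫⁻ y in Icc 0 (T + 1), G1 y z := by
          rw [hG1]
          exact sob_mu h1 m1 hd1 (hf2.comp (continuous_id.sub continuous_const))
        have d0 : Measurable (fun y : ℝ => ‖f (y - z)‖ₑ ^ 2) := c0.comp (measurable_id.prodMk measurable_const)
        have e1 : (∫⁻ t, G t z ∂μ₁) = 2 * (∫⁻ t, ‖f (t - z)‖ₑ ^ 2 ∂μ₁) + (∫⁻ t, ‖f1 (t - z)‖ₑ ^ 2 ∂μ₁) := by
          rw [hG]
          rw [← lintegral_const_mul _ d0]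
          exact lintegral_add_left (d0.const_mul 2) _
        have e2 : (∫⁻ y in Icc 0 (T + 1), H z y) = 2 * (∫⁻ y in Icc 0 (T + 1), G y z) + ∫⁻ y in Icc 0 (T + 1), G1 y z := by
          rw [← lintegral_const_mul _ (mGt z), ← lintegral_add_left ((mGt z).const_mul 2)]
          exact lintegral_congr fun y => eH z y
        rw [e1, e2]
        calc 2 * (∫⁻ t, ‖f (t - z)‖ₑ ^ 2 ∂μ₁) + (∫⁻ t, ‖f1 (t - z)‖ₑ ^ 2 ∂μ₁) ≤
              2 * (m * ∫⁻ y in Icc 0 (T + 1), G y z) + m * ∫⁻ y in Icc 0 (T + 1), G1 y z := by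
              gcongr
          _ = _ := by ring
    _ = m ^ 2 * ∫⁻ z in Icc 0 (T + 1), (∫⁻ y in Icc 0 (T + 1), H z y) := by
        rw [lintegral_const_mul]
        · ring
        · exact mH.lintegral_prod_right
    _ = _ := by rw [hH]

end Pool.Agent.H471.EP
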